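import Pool.Agent.Lib.MP_35b3f5_co.Assembly

/-!
# The closed walks of a token: rules for the demand

The token of period `l` repeats the last `l` letters of the word `w₀`. While `r` letters are
missing, the word is `wd l w₀ r`. The labels of the automaton are marked by their positions in
the labels of `w₀` (`nl s₀` if absent there), where `s₀` is the state of `w₀`. `Good` says that
the penalty is at most `A / Λ`; it is closed under the rules below, so that a checker only has to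
follow the automaton.

Rules, with `r` missing letters, state `i`, marks `M`, budget `A`:
* `Good.zero`: `Λ * cv i ≤ A` (`r = 0`);
* `Good.dead`: state `0`;
* `Good.ofOpen`: `U r i ≤ A` for a table `U` of bounds for all walks;
* `Good.forced`: the next letter is known (`(str s₀)[r]? = some x`, before the step `r + 1`
  letters are missing);
* `Good.free`: all letters.
-/

set_option autoImplicit false

namespace Pool.Agent.Lib.MP35b3f5

open Finset

/-! ### The words of a token -/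

/-- the word while `r` of the `l` letters are missing -/
def wd (l : ℕ) (w₀ : List ℕ) (r : ℕ) : List ℕ := (w₀.take l).drop r ++ w₀

lemma wd_self (l : ℕ) (w₀ : List ℕ) : wd l w₀ l = w₀ := by
  unfold wd
  rw [List.drop_eq_nil_of_le (by rw [List.length_take]; omega), List.nil_append]

lemma wd_succ {l : ℕ} {w₀ : List ℕ} {r : ℕ} (hr : r < l) (hl : l ≤ w₀.length) :
    wd l w₀ r = w₀.getD r 0 :: wd l w₀ (r + 1) := by
  unfold wd
  have h1 : r < (w₀.take l).length := by rw [List.length_take]; omega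
  rw [List.drop_eq_getElem_cons h1, List.cons_append, List.getElem_take]
  rw [List.getD_eq_getElem _ _ (by omega)]

lemma wd_length {l : ℕ} {w₀ : List ℕ} {r : ℕ} (hl : l ≤ w₀.length) :
    (wd l w₀ r).length = l - r + w₀.length := by
  unfold wd
  rw [List.length_append, List.length_drop, List.length_take]
  omega

lemma pred_wd {l : ℕ} {w₀ : List ℕ} {r : ℕ} (hr : r < l) (hl : l ≤ w₀.length) :
    pred l (wd l w₀ (r + 1)) = w₀.getD r 0 := by
  unfold pred wd
  rw [List.getD_append_right _ _ _ _ (by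
    rw [List.length_drop, List.length_take]; omega)]
  congr 1
  rw [List.length_drop, List.length_take]
  omega

lemma mt_wd {l : ℕ} {w₀ : List ℕ} (hl : l ≤ w₀.length) (hm : mt l w₀ = 0) :
    ∀ j, j ≤ l → mt l (wd l w₀ (l - j)) = j := by
  intro j
  induction j with
  | zero =>
    intro _
    rw [Nat.sub_zero, wd_self, hm]
  | succ j ih =>
    intro hj
    have h1 := ih (by omega)
    have h2 : l - j = (l - (j + 1)) + 1 := by omega
    rw [wd_succ (by omega) hl, mt_cons (by omega) (by rw [wd_length hl]; omega),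
      pred_wd (by omega) hl, if_pos rfl, ← h2, h1]

/-! ### Marks -/

/-- the marks of the labels `L` -/
def mk (L₀ L : List ℕ) : List ℕ := L.map (fun b => L₀.idxOf b)

lemma mk_self {L₀ : List ℕ} (h : L₀.Nodup) : mk L₀ L₀ = List.range L₀.length := by
  unfold mk
  apply List.ext_getElem
  · simp
  · intro i h1 h2
    simp only [List.getElem_map, List.getElem_range]
    exact h.idxOf_getElem _ _

lemma idxOf_mk {L₀ : List ℕ} : ∀ (L : List ℕ) {b : ℕ}, b ∈ L₀ →
    (mk L₀ L).idxOf (L₀.idxOf b) = L.idxOf b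
  | [], b, _ => by simp [mk]
  | a :: L, b, hb => by
    have ih := idxOf_mk L hb
    unfold mk at *
    rw [List.map_cons]
    by_cases h : a = b
    · subst h
      rw [List.idxOf_cons_self, List.idxOf_cons_self]
    · rw [List.idxOf_cons_ne _ h, List.idxOf_cons_ne]
      · rw [ih]
      · intro h1
        exact h ((List.idxOf_inj hb).1 h1.symm).symm

lemma mk_length (L₀ L : List ℕ) : (mk L₀ L).length = L.length := by simp [mk]

/-- the marks after the letter `b` -/
lemma mk_step (L₀ L : List ℕ) (b k : ℕ) :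
    mk L₀ ((mtf b L).take k) = (L₀.idxOf b :: (mk L₀ L).eraseIdx (L.idxOf b)).take k := by
  unfold mk mtf
  rw [List.map_take, List.map_cons, List.erase_eq_eraseIdx_of_idxOf rfl, List.eraseIdx_map]

/-! ### The demand -/

variable {X : Dat} {p : ℕ} {lam : ℕ → ℕ → ℚ} {l Λ s₀ : ℕ} {lm : ℕ → ℕ}

/-- one step, in rational form: `D ≥ d / Λ`, `A' ≤ α A + d` -/
lemma GG_le_step (hX : X.Valid p) (hΛ : 0 < Λ) {r : ℕ} {w : List ℕ} {A A' d : ℚ}
    (hA : 0 ≤ A) (hd : d ≤ Λ * X.D lam l w) (hA' : A' ≤ X.α * A + d)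
    (h : (Λ : ℚ) * GG X.α X.C (X.D lam) r l (pred l w :: w) ≤ A') :
    (Λ : ℚ) * GG X.α X.C (X.D lam) (r + 1) l w ≤ A := by
  have hΛ' : (0 : ℚ) < Λ := by exact_mod_cast hΛ
  have h0 := GG_nonneg (α := X.α) (D := X.D lam) (X.C_nonneg) r l (pred l w :: w)
  have h1 : GG X.α X.C (X.D lam) r l (pred l w :: w) ≤ A' / Λ := by
    rw [le_div_iff₀ hΛ', mul_comm]; exact h
  have key : GG X.α X.C (X.D lam) (r + 1) l w ≤ A / Λ := by
    apply GG_le_of_step hX (B' := A' / Λ) (by positivity) (le_trans h0 h1) h1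
    have h2 : X.α * (A / Λ) + X.D lam l w = (X.α * A + Λ * X.D lam l w) / Λ := by
      field_simp
    rw [h2]
    apply div_le_div_of_nonneg_right _ hΛ'.le
    linarith
  rw [le_div_iff₀ hΛ', mul_comm] at key
  exact key

/-- the natural form of a step -/
lemma nat_step (hX : X.Valid p) {A A' d : ℕ} (h : X.αd * A' ≤ X.αn * A + d) :
    (A' : ℚ) ≤ X.α * A + (d : ℚ) / X.αd := by
  have h1 : (0 : ℚ) < X.αd := by exact_mod_cast hX.αd_pos
  unfold Dat.α
  have h2 : (X.αd : ℚ) * A' ≤ X.αn * A + d := by exact_mod_cast h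
  have h3 : (X.αn : ℚ) / X.αd * A + (d : ℚ) / X.αd = (X.αn * A + d) / X.αd := by
    ring
  rw [h3, le_div_iff₀ h1, mul_comm]
  exact h2

/-- `lm` is a lower bound for `Λ * lam l`, up to the match `L` and up to the factor `κ` -/
def Low (lam : ℕ → ℕ → ℚ) (l Λ : ℕ) (lm : ℕ → ℕ) (L : ℕ) (κ : ℚ) : Prop :=
  ∀ j, 0 < j → j ≤ L → κ * (lm j : ℚ) ≤ Λ * lam l j

lemma low_D {L : ℕ} {κ : ℚ} (hlm : Low lam l Λ lm L κ) {w : List ℕ} (hw : mt l w < L)
    (hne : (X.T.run w).1 ≠ 0) :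
    κ * ((lm (mt l w + 1) * X.sl (X.T.run w).1 ((X.T.run w).2.idxOf (pred l w)) : ℕ) : ℚ) / X.αd ≤
      Λ * X.D lam l w := by
  unfold Dat.D
  rw [if_neg hne]
  have h1 := hlm (mt l w + 1) (by omega) (by omega)
  have h2 : (0 : ℚ) ≤ (X.sl (X.T.run w).1 ((X.T.run w).2.idxOf (pred l w)) : ℚ) / X.αd := by
    positivity
  have h3 := mul_le_mul_of_nonneg_right h1 h2
  calc κ * ((lm (mt l w + 1) * X.sl (X.T.run w).1 ((X.T.run w).2.idxOf (pred l w)) : ℕ) : ℚ) / X.αd
      = κ * (lm (mt l w + 1) : ℚ) *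
        ((X.sl (X.T.run w).1 ((X.T.run w).2.idxOf (pred l w)) : ℚ) / X.αd) := by
        push_cast; ring
    _ ≤ _ := h3
    _ = _ := by ring

variable (X p lam l Λ s₀ lm)

/-- the penalty in the state `i` with marks `M` is at most `A / Λ` -/
def Good (r i : ℕ) (M : List ℕ) (A : ℕ) : Prop :=
  ∀ w₀ : List ℕ, l ≤ w₀.length → mt l w₀ = 0 → (X.T.run w₀).1 = s₀ →
    (X.T.run (wd l w₀ r)).1 = i → mk (X.T.run w₀).2 (X.T.run (wd l w₀ r)).2 = M →
    (Λ : ℚ) * GG X.α X.C (X.D lam) r l (wd l w₀ r) ≤ A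

variable {X p lam l Λ s₀ lm}

lemma Good.zero {i : ℕ} {M : List ℕ} {A : ℕ}
    (hA : Λ * X.cv i ≤ A) : Good X lam l Λ s₀ 0 i M A := by
  intro w₀ _ _ _ hi _
  have h1 : GG X.α X.C (X.D lam) 0 l (wd l w₀ 0) = X.cv i := by
    show X.C (wd l w₀ 0) = X.cv i
    unfold Dat.C
    rw [hi]
  rw [h1]
  exact_mod_cast hA

lemma Good.dead (hX : X.Valid p) {r : ℕ} {M : List ℕ} {A : ℕ} :
    Good X lam l Λ s₀ r 0 M A := by
  intro w₀ _ _ _ hi _
  rw [GG_dead hX _ _ _ hi, mul_zero]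
  positivity

lemma Good.mono {r i : ℕ} {M : List ℕ} {A A' : ℕ} (h : Good X lam l Λ s₀ r i M A)
    (hA : A ≤ A') : Good X lam l Λ s₀ r i M A' := by
  intro w₀ h1 h2 h3 h4 h5
  have := h w₀ h1 h2 h3 h4 h5
  have h6 : (A : ℚ) ≤ A' := by exact_mod_cast hA
  linarith

/-- one step, in terms of the words -/
lemma step_le (hX : X.Valid p) (hΛ : 0 < Λ) (hlm : Low lam l Λ lm l 1) {r i : ℕ} {A A' : ℕ}
    {w₀ : List ℕ} (hr : r < l) (hl : l ≤ w₀.length) (hm : mt l w₀ = 0)
    (hi : (X.T.run (wd l w₀ (r + 1))).1 = i) (hi0 : i ≠ 0)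
    (hA' : X.αd * A' ≤ X.αn * A +
      lm (l - r) * X.sl i ((X.T.run (wd l w₀ (r + 1))).2.idxOf (w₀.getD r 0)))
    (hstep : (Λ : ℚ) * GG X.α X.C (X.D lam) r l (wd l w₀ r) ≤ A') :
    (Λ : ℚ) * GG X.α X.C (X.D lam) (r + 1) l (wd l w₀ (r + 1)) ≤ A := by
  have hmt : mt l (wd l w₀ (r + 1)) = l - (r + 1) := by
    have := mt_wd hl hm (l - (r + 1)) (by omega)
    rwa [show l - (l - (r + 1)) = r + 1 by omega] at this
  have h1 := low_D (X := X) hlm (w := wd l w₀ (r + 1)) (by omega) (by rw [hi]; exact hi0)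
  rw [hmt, show l - (r + 1) + 1 = l - r by omega, hi, pred_wd hr hl, one_mul] at h1
  apply GG_le_step hX hΛ (Nat.cast_nonneg _) h1 (nat_step hX hA')
  rw [pred_wd hr hl, ← wd_succ hr hl]
  exact hstep

/-- the run after a step -/
lemma run_wd {T : Tab} {w₀ : List ℕ} {r : ℕ} (hr : r < l) (hl : l ≤ w₀.length)
    (hne : (T.run (wd l w₀ (r + 1))).1 ≠ 0) :
    T.run (wd l w₀ r) =
      (T.nxt (T.run (wd l w₀ (r + 1))).1 ((T.run (wd l w₀ (r + 1))).2.idxOf (w₀.getD r 0)),
        (mtf (w₀.getD r 0) (T.run (wd l w₀ (r + 1))).2).take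
          (T.nl (T.nxt (T.run (wd l w₀ (r + 1))).1
            ((T.run (wd l w₀ (r + 1))).2.idxOf (w₀.getD r 0))))) := by
  rw [wd_succ hr hl, Tab.run, if_neg hne]

/-- forced step: the next letter is known -/
lemma Good.forced (hX : X.Valid p) (hΛ : 0 < Λ) (hlm : Low lam l Λ lm l 1) (hs₀ : s₀ ≠ 0)
    {r i : ℕ} {M : List ℕ} {A A' x z : ℕ} (hr : r < l)
    (hx : (X.T.str s₀)[r]? = some x) (hz : M.idxOf x = z)
    (hA' : X.αd * A' ≤ X.αn * A + lm (l - r) * X.sl i z)
    (hG : Good X lam l Λ s₀ r (X.T.nxt i z) ((x :: M.eraseIdx z).take (X.T.nl (X.T.nxt i z))) A') :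
    Good X lam l Λ s₀ (r + 1) i M A := by
  intro w₀ hl hm hrun hi hM
  have hT := hX.tab
  by_cases hi0 : i = 0
  · subst hi0
    exact Good.dead (M := M) hX w₀ hl hm hrun hi hM
  have hI := X.T.run_inv hT w₀ (by rw [hrun]; exact hs₀)
  rw [hrun] at hI
  -- the letter
  have hb : w₀[r]? = some ((X.T.run w₀).2.getD x 0) := by
    have h1 : (St p w₀)[r]? = some ((X.T.run w₀).2.getD x 0) := by
      rw [hI.St_eq, List.getElem?_map, hx]
      rfl
    unfold St at h1
    rw [List.getElem?_take] at h1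
    split_ifs at h1
    exact h1
  have hxN : x < X.T.nl s₀ := hT.lt_nl s₀ hI.pos hI.lt x (List.mem_of_getElem? hx)
  have hbr : w₀.getD r 0 = (X.T.run w₀).2.getD x 0 := by
    rw [List.getD_eq_getElem?_getD, hb]
    rfl
  have hlt : x < (X.T.run w₀).2.length := by rw [hI.len]; exact hxN
  have hbmem : w₀.getD r 0 ∈ (X.T.run w₀).2 := by
    rw [hbr, List.getD_eq_getElem _ _ hlt]
    exact List.getElem_mem _
  have hxidx : (X.T.run w₀).2.idxOf (w₀.getD r 0) = x := by
    rw [hbr, List.getD_eq_getElem _ _ hlt]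
    exact hI.nodup.idxOf_getElem _ _
  have hzz : (X.T.run (wd l w₀ (r + 1))).2.idxOf (w₀.getD r 0) = z := by
    rw [← hz, ← hM, ← hxidx, idxOf_mk _ hbmem]
  apply step_le hX hΛ hlm hr hl hm hi hi0 (A' := A')
  · rw [hzz]
    exact hA'
  · have hrw := run_wd hr hl (T := X.T) (w₀ := w₀) (by rw [hi]; exact hi0)
    rw [hi, hzz] at hrw
    refine hG w₀ hl hm hrun (by rw [hrw]) ?_
    rw [hrw]
    simp only
    rw [mk_step, hM, hxidx, hzz]

/-- free step: all letters -/
lemma Good.free (hX : X.Valid p) (hΛ : 0 < Λ) (hlm : Low lam l Λ lm l 1) (hs₀ : s₀ ≠ 0)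
    {r i : ℕ} {M : List ℕ} {A : ℕ} {A' : ℕ → ℕ} (hr : r < l)
    (hA' : ∀ z, X.αd * A' z ≤ X.αn * A + lm (l - r) * X.sl i z)
    (hold : ∀ z x, z < X.T.nl i → M[z]? = some x → Good X lam l Λ s₀ r (X.T.nxt i z)
      ((x :: M.eraseIdx z).take (X.T.nl (X.T.nxt i z))) (A' z))
    (hnew : ∀ x, x ≤ X.T.nl s₀ → (x < X.T.nl s₀ → x ∉ M) →
      Good X lam l Λ s₀ r (X.T.nxt i (X.T.nl i))
        ((x :: M).take (X.T.nl (X.T.nxt i (X.T.nl i)))) (A' (X.T.nl i))) :
    Good X lam l Λ s₀ (r + 1) i M A := by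
  intro w₀ hl hm hrun hi hM
  have hT := hX.tab
  by_cases hi0 : i = 0
  · subst hi0
    exact Good.dead (M := M) hX w₀ hl hm hrun hi hM
  have hI₀ := X.T.run_inv hT w₀ (by rw [hrun]; exact hs₀)
  have hI := X.T.run_inv hT (wd l w₀ (r + 1)) (by rw [hi]; exact hi0)
  rw [hrun] at hI₀
  rw [hi] at hI
  have hrw := run_wd hr hl (T := X.T) (w₀ := w₀) (by rw [hi]; exact hi0)
  rw [hi] at hrw
  have hMlen : M.length = X.T.nl i := by rw [← hM, mk_length, hI.len]
  by_cases hb : w₀.getD r 0 ∈ (X.T.run (wd l w₀ (r + 1))).2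
  · have hlt := List.idxOf_lt_length_iff.2 hb
    have hx : M[(X.T.run (wd l w₀ (r + 1))).2.idxOf (w₀.getD r 0)]? =
        some ((X.T.run w₀).2.idxOf (w₀.getD r 0)) := by
      rw [← hM]
      unfold mk
      rw [List.getElem?_map, List.getElem?_eq_getElem hlt, List.getElem_idxOf]
      rfl
    have h1 := hold _ _ (by rw [← hI.len]; exact hlt) hx
    apply step_le hX hΛ hlm hr hl hm hi hi0 (hA' _)
    refine h1 w₀ hl hm hrun (by rw [hrw]) ?_
    rw [hrw]
    simp only
    rw [mk_step, hM]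
  · have hidx : (X.T.run (wd l w₀ (r + 1))).2.idxOf (w₀.getD r 0) = X.T.nl i := by
      rw [← hI.len]
      exact List.idxOf_eq_length hb
    have hx1 : (X.T.run w₀).2.idxOf (w₀.getD r 0) ≤ X.T.nl s₀ := by
      rw [← hI₀.len]
      exact List.idxOf_le_length
    have hx2 : (X.T.run w₀).2.idxOf (w₀.getD r 0) < X.T.nl s₀ →
        (X.T.run w₀).2.idxOf (w₀.getD r 0) ∉ M := by
      intro h1 h2
      rw [← hI₀.len] at h1
      have h3 := List.idxOf_lt_length_iff.1 h1
      rw [← hM] at h2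
      have h4 := List.idxOf_lt_length_iff.2 h2
      rw [idxOf_mk _ h3, mk_length] at h4
      exact hb (List.idxOf_lt_length_iff.1 h4)
    have h1 := hnew _ hx1 hx2
    apply step_le hX hΛ hlm hr hl hm hi hi0 (hA' _)
    rw [hidx]
    refine h1 w₀ hl hm hrun (by rw [hrw, hidx]) ?_
    rw [hrw]
    simp only
    rw [mk_step, hM, hidx]
    rw [List.eraseIdx_of_length_le (by omega)]

/-! ### Open walks -/

/-- the penalties decrease at least by the factor `α` -/
lemma GG_le_pow (hX : X.Valid p) (hlam : ∀ l j, 0 ≤ lam l j) {c : ℚ} (hc : 0 ≤ c)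
    (hC : ∀ w, (X.T.run w).1 ≠ 0 → X.C w ≤ c) :
    ∀ r w, GG X.α X.C (X.D lam) r l w ≤ c * (X.α⁻¹) ^ r := by
  have hα := hX.α_pos
  intro r
  induction r with
  | zero =>
    intro w
    rw [pow_zero, mul_one]
    by_cases h : (X.T.run w).1 = 0
    · rw [GG_dead hX _ _ _ h]; exact hc
    · exact hC w h
  | succ r ih =>
    intro w
    have h0 := GG_nonneg (α := X.α) (D := X.D lam) (X.C_nonneg) r l (pred l w :: w)
    have h1 := ih (pred l w :: w)
    apply GG_le_of_step hX (B' := c * (X.α⁻¹) ^ r) (by positivity) (by positivity) h1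
    have h2 : X.α * (c * (X.α⁻¹) ^ (r + 1)) = c * (X.α⁻¹) ^ r := by
      rw [pow_succ]
      field_simp
    rw [h2]
    have := Dat.D_nonneg (X := X) hlam l w
    linarith

/-- bounds for all walks of the automaton, scaled by `κ`, for the first `L` matches -/
theorem open_bound (hX : X.Valid p) (hlam : ∀ l j, 0 ≤ lam l j) (hΛ : 0 < Λ) {L : ℕ}
    (hL : L ≤ l) {κ : ℚ} (hκ : 0 < κ) {U : ℕ → ℕ → ℕ}
    (hbase : ∀ w, (X.T.run w).1 ≠ 0 →
      (Λ : ℚ) * GG X.α X.C (X.D lam) (l - L) l w ≤ κ * U 0 (X.T.run w).1)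
    (hlm : Low lam l Λ lm L κ)
    (hU : ∀ ρ, ρ < L → ∀ i, 0 < i → i < X.T.n → ∀ z, z ≤ X.T.nl i → X.T.nxt i z ≠ 0 →
      X.αd * U ρ (X.T.nxt i z) ≤ X.αn * U (ρ + 1) i + lm (L - ρ) * X.sl i z) :
    ∀ ρ, ρ ≤ L → ∀ w, l ≤ w.length → mt l w = L - ρ → (X.T.run w).1 ≠ 0 →
      (Λ : ℚ) * GG X.α X.C (X.D lam) (l - L + ρ) l w ≤ κ * U ρ (X.T.run w).1 := by
  have hα0 := hX.α_pos
  intro ρ
  induction ρ with
  | zero =>
    intro _ w _ _ hne
    exact hbase w hne
  | succ ρ ih =>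
    intro hρ w hlw hm hne
    have hI := X.T.run_inv hX.tab w hne
    set i := (X.T.run w).1 with hi
    set z := (X.T.run w).2.idxOf (pred l w) with hz
    have h1 := low_D (X := X) hlm (w := w) (by omega) (by rw [← hi]; exact hne)
    rw [hm, show L - (ρ + 1) + 1 = L - ρ by omega, ← hi, ← hz] at h1
    have hlt : 0 < l := by omega
    have hmt' : mt l (pred l w :: w) = L - ρ := by
      rw [mt_cons hlt hlw, if_pos rfl, hm]
      omega
    have hrun : (X.T.run (pred l w :: w)).1 = X.T.nxt i z := by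
      rw [Tab.run, if_neg hne]
    by_cases h0 : X.T.nxt i z = 0
    · apply GG_le_step hX hΛ (A' := 0) (by positivity) (le_refl (Λ * X.D lam l w))
      · have := Dat.D_nonneg (X := X) hlam l w
        positivity
      · rw [GG_dead hX _ _ _ (by rw [hrun, h0]), mul_zero]
    · have h2 := ih (by omega) (pred l w :: w) (by simp; omega) hmt' (by rw [hrun]; exact h0)
      rw [hrun] at h2
      have h3 := nat_step hX (hU ρ (by omega) i hI.pos hI.lt z (hI.idx_le _) h0)
      apply GG_le_step hX hΛ (by positivity) h1 (A' := κ * (U ρ (X.T.nxt i z) : ℚ)) _ h2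
      have h4 := mul_le_mul_of_nonneg_left h3 hκ.le
      refine le_trans h4 (le_of_eq ?_)
      ring

/-- the bounds for open walks may be used to prune -/
lemma Good.ofOpen (hX : X.Valid p) (hlam : ∀ l j, 0 ≤ lam l j) (hΛ : 0 < Λ)
    (hlm : Low lam l Λ lm l 1) {U : ℕ → ℕ → ℕ}
    (hU0 : ∀ i, 0 < i → i < X.T.n → Λ * X.cv i ≤ U 0 i)
    (hU : ∀ ρ, ρ < l → ∀ i, 0 < i → i < X.T.n → ∀ z, z ≤ X.T.nl i → X.T.nxt i z ≠ 0 →
      X.αd * U ρ (X.T.nxt i z) ≤ X.αn * U (ρ + 1) i + lm (l - ρ) * X.sl i z)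
    {r i : ℕ} {M : List ℕ} {A : ℕ} (hr : r ≤ l) (hA : U r i ≤ A) :
    Good X lam l Λ s₀ r i M A := by
  intro w₀ hl hm hrun hi hM
  by_cases hi0 : i = 0
  · subst hi0
    exact Good.dead (M := M) hX w₀ hl hm hrun hi hM
  have hmt : mt l (wd l w₀ r) = l - r := by
    have := mt_wd hl hm (l - r) (by omega)
    rwa [show l - (l - r) = r by omega] at this
  have h1 := open_bound (κ := 1) (U := U) hX hlam hΛ (le_refl l) one_pos
    (by
      intro w hne
      have hI := X.T.run_inv hX.tab w hne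
      rw [Nat.sub_self, one_mul]
      have h1 : GG X.α X.C (X.D lam) 0 l w = X.cv (X.T.run w).1 := rfl
      rw [h1]
      exact_mod_cast hU0 _ hI.pos hI.lt)
    hlm hU r hr (wd l w₀ r) (by rw [wd_length hl]; omega) hmt (by rw [hi]; exact hi0)
  rw [Nat.sub_self, zero_add, one_mul, hi] at h1
  have h2 : (U r i : ℚ) ≤ A := by exact_mod_cast hA
  exact le_trans h1 h2

/-- all walks absorb the penalty (scaled form, `κ = α⁻¹ ^ (l - L)`) -/
theorem open_final (hX : X.Valid p) (hlam : ∀ l j, 0 ≤ lam l j) (hΛ : 0 < Λ) {L : ℕ}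
    (hL : L ≤ l) {cmax : ℕ} (hcm : ∀ i, 0 < i → i < X.T.n → X.cv i ≤ cmax) {U : ℕ → ℕ → ℕ}
    (hU0 : ∀ i, 0 < i → i < X.T.n → Λ * cmax ≤ U 0 i)
    (hlm : Low lam l Λ lm L ((X.α⁻¹) ^ (l - L)))
    (hU : ∀ ρ, ρ < L → ∀ i, 0 < i → i < X.T.n → ∀ z, z ≤ X.T.nl i → X.T.nxt i z ≠ 0 →
      X.αd * U ρ (X.T.nxt i z) ≤ X.αn * U (ρ + 1) i + lm (L - ρ) * X.sl i z)
    (hU1 : ∀ i, 0 < i → i < X.T.n → U L i = 0)
    {w : List ℕ} (hl : l ≤ w.length) (hm : mt l w = 0) :
    GG X.α X.C (X.D lam) l l w = 0 := by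
  by_cases h0 : (X.T.run w).1 = 0
  · exact GG_dead hX _ _ _ h0
  · have hα := hX.α_pos
    have hI := X.T.run_inv hX.tab w h0
    have hΛ' : (0 : ℚ) < Λ := by exact_mod_cast hΛ
    have h1 := open_bound hX hlam hΛ hL (κ := (X.α⁻¹) ^ (l - L)) (by positivity) (U := U)
      (by
        intro w hne
        have hI := X.T.run_inv hX.tab w hne
        have h2 := GG_le_pow (l := l) hX hlam (c := (cmax : ℚ)) (Nat.cast_nonneg _) (by
          intro w hne
          have hI := X.T.run_inv hX.tab w hne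
          show (X.cv (X.T.run w).1 : ℚ) ≤ cmax
          exact_mod_cast hcm _ hI.pos hI.lt) (l - L) w
        have h3 : ((Λ * cmax : ℕ) : ℚ) ≤ U 0 (X.T.run w).1 := by
          exact_mod_cast hU0 _ hI.pos hI.lt
        push_cast at h3
        calc (Λ : ℚ) * GG X.α X.C (X.D lam) (l - L) l w
            ≤ Λ * (cmax * (X.α⁻¹) ^ (l - L)) := mul_le_mul_of_nonneg_left h2 hΛ'.le
          _ = (X.α⁻¹) ^ (l - L) * (Λ * cmax) := by ring
          _ ≤ _ := mul_le_mul_of_nonneg_left h3 (by positivity))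
      hlm hU L le_rfl w hl (by rw [hm]; omega) h0
    rw [hU1 _ hI.pos hI.lt, show l - L + L = l by omega] at h1
    have h2 := GG_nonneg (α := X.α) (D := X.D lam) (X.C_nonneg) l l w
    apply le_antisymm _ h2
    by_contra h3
    push Not at h3
    have := mul_pos hΛ' h3
    push_cast at h1
    linarith

/-- the end: only the states with a full memory are needed -/
theorem Good.final (hX : X.Valid p) (hΛ : 0 < Λ) (hpl : p ≤ l)
    (hG : ∀ i, 0 < i → i < X.T.n → p ≤ (X.T.str i).length →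
      Good X lam l Λ i l i (List.range (X.T.nl i)) 0)
    {w : List ℕ} (hl : l ≤ w.length) (hm : mt l w = 0) :
    GG X.α X.C (X.D lam) l l w = 0 := by
  by_cases h0 : (X.T.run w).1 = 0
  · exact GG_dead hX _ _ _ h0
  · have hI := X.T.run_inv hX.tab w h0
    have hlen : p ≤ (X.T.str (X.T.run w).1).length := by
      have h2 := congrArg List.length hI.St_eq
      rw [St_length, List.length_map] at h2
      have h3 := min_le_mem p w
      omega
    have h1 := hG _ hI.pos hI.lt hlen w hl hm rfl (by rw [wd_self]) (by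
      rw [wd_self, mk_self hI.nodup, hI.len])
    rw [wd_self] at h1
    have h2 := GG_nonneg (α := X.α) (D := X.D lam) (X.C_nonneg) l l w
    have hΛ' : (0 : ℚ) < Λ := by exact_mod_cast hΛ
    apply le_antisymm _ h2
    by_contra h3
    push Not at h3
    have := mul_pos hΛ' h3
    push_cast at h1
    linarith

end Pool.Agent.Lib.MP35b3f5
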