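import Pool.Agent.Lib.MP_35b3f5_co.Pot

/-!
# The spacing lemma and the interval bound for the sum of the shares
-/

set_option autoImplicit false

namespace Pool.Agent.Lib.MP35b3f5

open Finset

lemma SF.drop {w : List ℕ} (h : SF w) (k : ℕ) : SF (w.drop k) := by
  induction k generalizing w with
  | zero => exact h
  | succ k ih =>
    cases w with
    | nil => exact h
    | cons a w => exact ih h.1

lemma SF.not_endSq {w : List ℕ} (h : SF w) (l : ℕ) : ¬ EndSq l w := by
  cases w with
  | nil =>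
    rintro ⟨h1, h2, -⟩
    simp only [List.length_nil] at h2
    omega
  | cons a w => exact h.2 l

/-- Spacing: two periods `l < l'` cannot both match a long suffix. -/
lemma SF.spacing {w : List ℕ} (h : SF w) {l l' : ℕ} (hll : l < l') :
    min (mt l w) (mt l' w) < l' - l := by
  by_contra hcon
  push Not at hcon
  obtain ⟨d, hd⟩ : ∃ d, l' = l + d := ⟨l' - l, by omega⟩
  subst hd
  have hd0 : 0 < d := by omega
  have e : l + d - l = d := by omega
  rw [e] at hcon
  have h1 : d ≤ mt l w := le_trans hcon (min_le_left _ _)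
  have h2 : d ≤ mt (l + d) w := le_trans hcon (min_le_right _ _)
  rw [le_mt_iff hd0] at h1 h2
  apply (h.drop l).not_endSq d
  refine ⟨hd0, ?_, ?_⟩
  · rw [List.length_drop]
    omega
  · rw [List.drop_drop, ← h1.2, h2.2]

/-- The interval bound: `F a b` bounds the sum of the shares of the periods strictly
between `a` and `b`, provided their matches are shorter than the distances to `a` and `b`. -/
theorem interval_bound {p L : ℕ} {s : ℕ → ℕ → ℚ} {F : ℕ → ℕ → ℚ} (hF0 : ∀ a b, 0 ≤ F a b)
    (hF : ∀ a b q m, a < q → q < b → p < q → q ≤ L → m < q - a → m < b - q →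
      s q m + F a q + F q b ≤ F a b)
    {m : ℕ → ℕ} (hm : ∀ l l', p < l → l < l' → l' ≤ L → min (m l) (m l') < l' - l) :
    ∀ n a b, b - a ≤ n → (∀ l, a < l → l < b → p < l → l ≤ L → m l < l - a ∧ m l < b - l) →
      ∑ l ∈ (Ioc p L).filter (fun l => a < l ∧ l < b), s l (m l) ≤ F a b := by
  intro n
  induction n with
  | zero =>
    intro a b hab _
    have h1 : (Ioc p L).filter (fun l => a < l ∧ l < b) = ∅ := by
      rw [filter_eq_empty_iff]
      intro l _ hl
      omega
    rw [h1, sum_empty]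
    exact hF0 a b
  | succ n ih =>
    intro a b hab hP
    rcases ((Ioc p L).filter (fun l => a < l ∧ l < b)).eq_empty_or_nonempty with he | hne
    · rw [he, sum_empty]
      exact hF0 a b
    · obtain ⟨q, hq, hmax⟩ := exists_max_image _ m hne
      rw [mem_filter, mem_Ioc] at hq
      obtain ⟨⟨hpq, hqL⟩, haq, hqb⟩ := hq
      obtain ⟨h1, h2⟩ := hP q haq hqb hpq hqL
      have hsplit : (Ioc p L).filter (fun l => a < l ∧ l < b) =
          insert q (((Ioc p L).filter (fun l => a < l ∧ l < q)) ∪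
            ((Ioc p L).filter (fun l => q < l ∧ l < b))) := by
        ext l
        simp only [mem_filter, mem_Ioc, mem_insert, mem_union]
        omega
      have hnot : q ∉ ((Ioc p L).filter (fun l => a < l ∧ l < q)) ∪
            ((Ioc p L).filter (fun l => q < l ∧ l < b)) := by
        simp only [mem_filter, mem_Ioc, mem_union]
        omega
      have hdisj : Disjoint ((Ioc p L).filter (fun l => a < l ∧ l < q))
            ((Ioc p L).filter (fun l => q < l ∧ l < b)) := by
        rw [disjoint_filter]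
        omega
      have hL := ih a q (by omega) (by
        intro l hal hlq hpl hlL
        have h3 := hmax l (mem_filter.2 ⟨mem_Ioc.2 ⟨hpl, hlL⟩, hal, by omega⟩)
        have h4 := hm l q hpl hlq hqL
        have h5 := (hP l hal (by omega) hpl hlL).1
        exact ⟨h5, by omega⟩)
      have hR := ih q b (by omega) (by
        intro l hql hlb hpl hlL
        have h3 := hmax l (mem_filter.2 ⟨mem_Ioc.2 ⟨hpl, hlL⟩, by omega, hlb⟩)
        have h4 := hm q l hpq hql hlL
        have h5 := (hP l (by omega) hlb hpl hlL).2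
        exact ⟨by omega, h5⟩)
      rw [hsplit, sum_insert hnot, sum_union hdisj]
      have h6 := hF a b q (m q) haq hqb hpq hqL h1 h2
      linarith

/-- The bound for the sum of all shares: the interval bound for `l ≤ L` and a crude bound for
`l > L`. -/
theorem share_bound {p L : ℕ} {s : ℕ → ℕ → ℚ} {F : ℕ → ℕ → ℚ} {t : ℕ → ℚ} {τ : ℚ}
    (hs0 : ∀ l m, 0 ≤ s l m) (hF0 : ∀ a b, 0 ≤ F a b)
    (hF : ∀ a b q m, a < q → q < b → p < q → q ≤ L → m < q - a → m < b - q →
      s q m + F a q + F q b ≤ F a b)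
    (ht : ∀ l m, L < l → m < l → s l m ≤ t l) (hτ : ∀ n, ∑ l ∈ Ioc L n, t l ≤ τ)
    {w : List ℕ} (hw : SF w) (n : ℕ) :
    ∑ l ∈ Ioc p n, s l (mt l w) ≤ F 0 (2 * L + 1) + τ := by
  have h1 : ∑ l ∈ (Ioc p L).filter (fun l => 0 < l ∧ l < 2 * L + 1), s l (mt l w) ≤
      F 0 (2 * L + 1) := by
    refine interval_bound hF0 hF (m := fun l => mt l w) ?_ (2 * L + 1) 0 (2 * L + 1) (by omega) ?_
    · intro l l' _ hll _
      exact hw.spacing hll
    · intro l hl _ _ hlL
      have := hw.mt_lt hl
      constructor <;> omega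
  have h2 : (Ioc p L).filter (fun l => 0 < l ∧ l < 2 * L + 1) = Ioc p L := by
    rw [filter_eq_self]
    intro l hl
    rw [mem_Ioc] at hl
    omega
  rw [h2] at h1
  have h3 : ∑ l ∈ Ioc p n, s l (mt l w) ≤ ∑ l ∈ Ioc p L ∪ Ioc L n, s l (mt l w) := by
    apply sum_le_sum_of_subset_of_nonneg
    · intro l hl
      rw [mem_union, mem_Ioc, mem_Ioc]
      rw [mem_Ioc] at hl
      omega
    · intro l _ _
      exact hs0 _ _
  have h4 : ∑ l ∈ Ioc p L ∪ Ioc L n, s l (mt l w) ≤
      ∑ l ∈ Ioc p L, s l (mt l w) + ∑ l ∈ Ioc L n, s l (mt l w) := by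
    have h5 := sum_union_inter (s₁ := Ioc p L) (s₂ := Ioc L n) (f := fun l => s l (mt l w))
    have h6 : 0 ≤ ∑ l ∈ Ioc p L ∩ Ioc L n, s l (mt l w) := sum_nonneg fun l _ => hs0 _ _
    linarith
  have h7 : ∑ l ∈ Ioc L n, s l (mt l w) ≤ ∑ l ∈ Ioc L n, t l := by
    apply sum_le_sum
    intro l hl
    rw [mem_Ioc] at hl
    exact ht l _ hl.1 (hw.mt_lt (by omega))
  have h8 := hτ n
  linarith

end Pool.Agent.Lib.MP35b3f5
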