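import Pool.Agent.Lib.MP_35b3f5_co.Automaton
import Pool.Agent.Lib.MP_35b3f5_co.Spacing

/-!
# From a table to the theorem
-/

set_option autoImplicit false

namespace Pool.Agent.Lib.MP35b3f5

open Finset

/-- the numerical data: values `cv` of the states, slacks `sl`, growth `αn / αd` -/
structure Dat where
  T : Tab
  cv : ℕ → ℕ
  sl : ℕ → ℕ → ℕ
  αn : ℕ
  αd : ℕ

/-- the growth rate -/
def Dat.α (X : Dat) : ℚ := (X.αn : ℚ) / X.αd

/-- the value of a word -/
def Dat.C (X : Dat) (w : List ℕ) : ℚ := X.cv (X.T.run w).1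

/-- the share of the token `l` -/
def Dat.D (X : Dat) (lam : ℕ → ℕ → ℚ) (l : ℕ) (w : List ℕ) : ℚ :=
  if (X.T.run w).1 = 0 then 0 else
    lam l (mt l w + 1) * (X.sl (X.T.run w).1 ((X.T.run w).2.idxOf (pred l w)) / X.αd)

/-- the numerical conditions -/
structure Dat.Valid (X : Dat) (p : ℕ) : Prop where
  tab : X.T.Valid p
  cv_zero : X.cv 0 = 0
  cv_one : 0 < X.cv 1
  αn_pos : 0 < X.αn
  αd_pos : 0 < X.αd
  slack : ∀ i, 0 < i → i < X.T.n → ∀ z z', z ≤ X.T.nl i → z' ≤ X.T.nl i →
    (z ≠ z' ∨ z = X.T.nl i) → (i = 1 ∨ (z ≠ 0 ∧ z' ≠ 0)) →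
    X.αn * X.cv i + X.sl i z ≤ X.αd * (X.cv (X.T.nxt i z) + X.cv (X.T.nxt i z'))

variable {X : Dat} {p : ℕ} {lam : ℕ → ℕ → ℚ}

lemma Dat.Valid.α_pos (hX : X.Valid p) : 0 < X.α := by
  unfold Dat.α
  have h1 : (0 : ℚ) < X.αn := by exact_mod_cast hX.αn_pos
  have h2 : (0 : ℚ) < X.αd := by exact_mod_cast hX.αd_pos
  positivity

lemma Dat.C_nonneg (w : List ℕ) : 0 ≤ X.C w := Nat.cast_nonneg _

lemma Dat.C_dead (hX : X.Valid p) {w : List ℕ} (h : (X.T.run w).1 = 0) : X.C w = 0 := by
  unfold Dat.C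
  rw [h, hX.cv_zero]
  rfl

lemma Dat.D_nonneg (hlam : ∀ l j, 0 ≤ lam l j) (l : ℕ) (w : List ℕ) : 0 ≤ X.D lam l w := by
  unfold Dat.D
  split_ifs
  · exact le_rfl
  · have := hlam l (mt l w + 1)
    positivity

lemma Tab.run_cons_state (T : Tab) (w : List ℕ) (b : ℕ) (h : (T.run w).1 ≠ 0) :
    (T.run (b :: w)).1 = T.nxt (T.run w).1 ((T.run w).2.idxOf b) := by
  rw [Tab.run, if_neg h]

lemma Tab.run_cons_dead (T : Tab) (w : List ℕ) (b : ℕ) (h : (T.run w).1 = 0) :
    (T.run (b :: w)).1 = 0 := by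
  rw [Tab.run, if_pos h]

/-- the last letter has label 0 -/
lemma Tab.Inv.head_idx {T : Tab} {p : ℕ} (hT : T.Valid p) {w : List ℕ} {i : ℕ}
    {L : List ℕ} (h : T.Inv p w i L) (hi : 1 < i) {b : ℕ} (hb : w.head? ≠ some b) :
    L.idxOf b ≠ 0 := by
  intro h0
  have h1 := hT.head i hi h.lt
  obtain ⟨s, hs⟩ : ∃ s, T.str i = 0 :: s := by
    cases hstr : T.str i with
    | nil => rw [hstr] at h1; simp at h1
    | cons a s =>
      rw [hstr] at h1
      simp only [List.head?_cons, Option.some.injEq] at h1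
      exact ⟨s, by rw [h1]⟩
  have h2 : 0 < T.nl i := hT.lt_nl i h.pos h.lt 0 (by rw [hs]; exact List.mem_cons_self)
  have h3 := h.St_eq
  rw [hs, List.map_cons] at h3
  cases L with
  | nil =>
    have := h.len
    simp only [List.length_nil] at this
    omega
  | cons a L =>
    by_cases hab : a = b
    · subst hab
      rw [List.getD_cons_zero] at h3
      cases w with
      | nil => simp [St] at h3
      | cons c w =>
        unfold St at h3
        cases hm : mem p (c :: w) with
        | zero => rw [hm] at h3; simp at h3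
        | succ k =>
          rw [hm, List.take_succ_cons] at h3
          simp only [List.cons.injEq] at h3
          exact hb (by rw [h3.1]; rfl)
    · rw [List.idxOf_cons_ne _ hab] at h0
      omega

/-- **Assembly**: a valid table and good shares give the theorem. -/
theorem word_of_tab (X : Dat) (p : ℕ) (hX : X.Valid p) (lam : ℕ → ℕ → ℚ)
    (hlam : ∀ l j, 0 ≤ lam l j)
    (hA : ∀ l w, p < l → l ≤ w.length → SF w → mt l w = 0 → GG X.α X.C (X.D lam) l l w = 0)
    (hB : ∀ w, SF w → ∑ l ∈ Ioc p w.length, lam l (mt l w + 1) ≤ 1)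
    (A : ℕ → Finset ℕ) (hA3 : ∀ n, (A n).card = 3) :
    ∃ w : ℕ → ℕ, (∀ n, w n ∈ A n) ∧
      ∀ i l : ℕ, 0 < l → ¬ (∀ k, k < l → w (i + k) = w (i + l + k)) := by
  have hαd : (0 : ℚ) < X.αd := by exact_mod_cast hX.αd_pos
  refine main X.α p X.C (X.D lam) hX.α_pos Dat.C_nonneg ?_ (Dat.D_nonneg hlam) ?_ ?_ ?_ A hA3
  · unfold Dat.C
    have := hX.cv_one
    simp only [Tab.run]
    exact_mod_cast this
  · intro w b _ l hlp he
    exact Dat.C_dead hX (X.T.run_dead hX.tab hlp he)
  · intro l w hl hlw hw hm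
    unfold G
    rw [hm, Nat.sub_zero]
    exact hA l w hl hlw hw hm
  · intro w hw b c hbc hb hc
    by_cases h0 : (X.T.run w).1 = 0
    · have h1 : ∑ l ∈ (Ioc p w.length).filter (fun l => pred l w = b ∨ pred l w = c),
          X.D lam l w = 0 := by
        apply sum_eq_zero
        intro l _
        unfold Dat.D
        rw [if_pos h0]
      rw [h1, Dat.C_dead hX h0]
      have h2 := X.C_nonneg (b :: w)
      have h3 := X.C_nonneg (c :: w)
      linarith
    · have hI := X.T.run_inv hX.tab w h0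
      set i := (X.T.run w).1 with hi
      set L := (X.T.run w).2 with hL
      have hzz : ∀ b c, b ≠ c → (L.idxOf b ≠ L.idxOf c ∨ L.idxOf b = X.T.nl i) := by
        intro b c hbc
        by_cases hbL : b ∈ L
        · left
          intro he
          exact hbc ((List.idxOf_inj hbL).1 he)
        · right
          rw [← hI.len]
          exact List.idxOf_eq_length hbL
      have hhd : ∀ b c, w.head? ≠ some b → w.head? ≠ some c →
          (i = 1 ∨ (L.idxOf b ≠ 0 ∧ L.idxOf c ≠ 0)) := by
        intro b c hb hc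
        by_cases h1 : i = 1
        · left; exact h1
        · right
          have := hI.pos
          exact ⟨hI.head_idx hX.tab (by omega) hb, hI.head_idx hX.tab (by omega) hc⟩
      have hsl : ∀ b c, b ≠ c → w.head? ≠ some b → w.head? ≠ some c →
          (X.sl i (L.idxOf b) : ℚ) / X.αd ≤ X.C (b :: w) + X.C (c :: w) - X.α * X.C w := by
        intro b c hbc hb hc
        have h1 := hX.slack i hI.pos hI.lt (L.idxOf b) (L.idxOf c) (hI.idx_le b) (hI.idx_le c)
          (hzz b c hbc) (hhd b c hb hc)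
        have e1 : X.C (b :: w) = X.cv (X.T.nxt i (L.idxOf b)) := by
          unfold Dat.C
          rw [X.T.run_cons_state w b h0]
        have e2 : X.C (c :: w) = X.cv (X.T.nxt i (L.idxOf c)) := by
          unfold Dat.C
          rw [X.T.run_cons_state w c h0]
        have e3 : X.C w = X.cv i := rfl
        rw [e1, e2, e3, div_le_iff₀ hαd]
        unfold Dat.α
        have h2 : (X.αn : ℚ) * X.cv i + X.sl i (L.idxOf b) ≤
            X.αd * (X.cv (X.T.nxt i (L.idxOf b)) + X.cv (X.T.nxt i (L.idxOf c))) := by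
          exact_mod_cast h1
        have h3 : (X.αn : ℚ) / X.αd * X.cv i * X.αd = X.αn * X.cv i := by
          field_simp
        nlinarith [h2, h3]
      set σ := X.C (b :: w) + X.C (c :: w) - X.α * X.C w with hσ
      have hs1 : (X.sl i (L.idxOf b) : ℚ) / X.αd ≤ σ := hsl b c hbc hb hc
      have hs2 : (X.sl i (L.idxOf c) : ℚ) / X.αd ≤ σ := by
        have := hsl c b (Ne.symm hbc) hc hb
        linarith
      have hσ0 : 0 ≤ σ := le_trans (by positivity) hs1
      calc ∑ l ∈ (Ioc p w.length).filter (fun l => pred l w = b ∨ pred l w = c), X.D lam l w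
          ≤ ∑ l ∈ (Ioc p w.length).filter (fun l => pred l w = b ∨ pred l w = c),
              lam l (mt l w + 1) * σ := by
            apply sum_le_sum
            intro l hl
            rw [mem_filter] at hl
            unfold Dat.D
            rw [← hi, ← hL, if_neg h0]
            apply mul_le_mul_of_nonneg_left _ (hlam _ _)
            rcases hl.2 with h | h
            · rw [h]; exact hs1
            · rw [h]; exact hs2
        _ ≤ ∑ l ∈ Ioc p w.length, lam l (mt l w + 1) * σ := by
            apply sum_le_sum_of_subset_of_nonneg (filter_subset _ _)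
            intro l _ _
            exact mul_nonneg (hlam _ _) hσ0
        _ = (∑ l ∈ Ioc p w.length, lam l (mt l w + 1)) * σ := by rw [sum_mul]
        _ ≤ 1 * σ := mul_le_mul_of_nonneg_right (hB w hw) hσ0
        _ = σ := one_mul σ

/-! ### Steps of a token -/

/-- a dead word has no penalty -/
lemma GG_dead (hX : X.Valid p) (r l : ℕ) (w : List ℕ)
    (h : (X.T.run w).1 = 0) : GG X.α X.C (X.D lam) r l w = 0 := by
  induction r generalizing w with
  | zero => exact Dat.C_dead hX h
  | succ r ih =>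
    unfold GG
    rw [ih _ (X.T.run_cons_dead w _ h)]
    have h1 : X.D lam l w = 0 := by
      unfold Dat.D
      rw [if_pos h]
    rw [h1]
    simp

/-- a step of the token -/
lemma GG_le_of_step (hX : X.Valid p) {r l : ℕ} {w : List ℕ} {B B' : ℚ} (hB : 0 ≤ B)
    (hB' : 0 ≤ B') (h : GG X.α X.C (X.D lam) r l (pred l w :: w) ≤ B')
    (hst : B' ≤ X.α * B + X.D lam l w) : GG X.α X.C (X.D lam) (r + 1) l w ≤ B := by
  unfold GG
  rw [max_le_iff]
  refine ⟨hB, ?_⟩
  rw [div_le_iff₀ hX.α_pos]
  split_ifs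
  · linarith
  · linarith

end Pool.Agent.Lib.MP35b3f5
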