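import Pool.Agent.Lib.MP_35b3f5_co.Pot

/-!
# The finite automaton for the squares of period at most `p`

The state of a word is the string `S p w` of its remembered last letters (up to renaming).
A table `Tab` lists the states: `0` is the dead state, `1` the state of the empty word.
The letters of a state are labelled by recency, so a step moves a label to the front.
-/

set_option autoImplicit false

namespace Pool.Agent.Lib.MP35b3f5

open Finset

/-! ### Memory -/

/-- the largest `l + mt l w` over the matching periods `l ≤ k` -/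
def memAux (w : List ℕ) : ℕ → ℕ
  | 0 => 0
  | l + 1 => max (memAux w l) (if mt (l + 1) w = 0 then 0 else l + 1 + mt (l + 1) w)

/-- the length of the remembered part -/
def mem (p : ℕ) (w : List ℕ) : ℕ := max (min w.length p) (memAux w p)

/-- the remembered part -/
def St (p : ℕ) (w : List ℕ) : List ℕ := w.take (mem p w)

lemma memAux_le_iff (w : List ℕ) (p k : ℕ) :
    memAux w p ≤ k ↔ ∀ l, 0 < l → l ≤ p → 0 < mt l w → l + mt l w ≤ k := by
  induction p with
  | zero => simp [memAux]; intro l h1 h2; omega
  | succ p ih =>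
    unfold memAux
    rw [max_le_iff, ih]
    constructor
    · rintro ⟨h1, h2⟩ l hl hlp hm
      rcases Nat.lt_or_ge l (p + 1) with h | h
      · exact h1 l hl (by omega) hm
      · obtain rfl : l = p + 1 := by omega
        rw [if_neg (by omega)] at h2
        exact h2
    · intro h
      refine ⟨fun l hl hlp hm => h l hl (by omega) hm, ?_⟩
      split_ifs with h0
      · omega
      · exact h (p + 1) (by omega) le_rfl (by omega)

lemma mem_le_iff (w : List ℕ) (p k : ℕ) :
    mem p w ≤ k ↔ min w.length p ≤ k ∧ ∀ l, 0 < l → l ≤ p → 0 < mt l w → l + mt l w ≤ k := by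
  unfold mem
  rw [max_le_iff, memAux_le_iff]

lemma add_mt_le_length {l : ℕ} {w : List ℕ} (h : 0 < mt l w) : l + mt l w ≤ w.length := by
  have := (le_mt_iff (l := l) (w := w) h).1 le_rfl
  exact this.1

lemma mem_le_length (p : ℕ) (w : List ℕ) : mem p w ≤ w.length := by
  rw [mem_le_iff]
  exact ⟨min_le_left _ _, fun l _ _ h => add_mt_le_length h⟩

lemma min_le_mem (p : ℕ) (w : List ℕ) : min w.length p ≤ mem p w := le_max_left _ _

lemma mt_le_mem {p l : ℕ} {w : List ℕ} (hl : 0 < l) (hlp : l ≤ p) (hm : 0 < mt l w) :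
    l + mt l w ≤ mem p w := by
  have h := (mem_le_iff w p (mem p w)).1 le_rfl
  exact h.2 l hl hlp hm

lemma mt_take (l k : ℕ) (w : List ℕ) : mt l (w.take k) = min (mt l w) (k - l) := by
  have key : ∀ j, 0 < j → (j ≤ mt l (w.take k) ↔ j ≤ min (mt l w) (k - l)) := by
    intro j hj
    rw [le_mt_iff hj, le_min_iff, le_mt_iff hj, List.length_take]
    constructor
    · rintro ⟨h1, h2⟩
      rw [List.take_take, List.drop_take, List.take_take] at h2
      have e1 : min j k = j := by omega
      have e2 : min j (k - l) = j := by omega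
      rw [e1, e2] at h2
      exact ⟨⟨by omega, h2⟩, by omega⟩
    · rintro ⟨⟨h1, h2⟩, h3⟩
      refine ⟨by omega, ?_⟩
      rw [List.take_take, List.drop_take, List.take_take]
      have e1 : min j k = j := by omega
      have e2 : min j (k - l) = j := by omega
      rw [e1, e2]
      exact h2
  apply le_antisymm
  · rcases Nat.eq_zero_or_pos (mt l (w.take k)) with h | h
    · omega
    · exact (key _ h).1 le_rfl
  · rcases Nat.eq_zero_or_pos (min (mt l w) (k - l)) with h | h
    · omega
    · exact (key _ h).2 le_rfl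

/-- the remembered part has the same matches -/
lemma mt_St {p l : ℕ} (w : List ℕ) (hl : 0 < l) (hlp : l ≤ p) : mt l (St p w) = mt l w := by
  unfold St
  rw [mt_take]
  rcases Nat.eq_zero_or_pos (mt l w) with h | h
  · omega
  · have := mt_le_mem hl hlp h
    omega

lemma St_length (p : ℕ) (w : List ℕ) : (St p w).length = mem p w := by
  unfold St
  rw [List.length_take]
  have := mem_le_length p w
  omega

lemma pred_take {l k : ℕ} (w : List ℕ) (h : l - 1 < k) : pred l (w.take k) = pred l w := by
  unfold pred
  simp only [List.getD_eq_getElem?_getD]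
  rw [List.getElem?_take_of_lt h]

/-- the matches after a step only depend on the remembered part -/
lemma mt_cons_St {p l : ℕ} (w : List ℕ) (b : ℕ) (hl : 0 < l) (hlp : l ≤ p) :
    mt l (b :: St p w) = mt l (b :: w) := by
  rcases Nat.lt_or_ge w.length l with h | h
  · have h1 := St_length p w
    have h2 := mem_le_length p w
    rw [mt_cons_length (w := b :: w) (by simp only [List.length_cons]; omega)]
    rw [mt_cons_length (w := b :: St p w) (by
      simp only [List.length_cons]
      omega)]
  · have h1 : l ≤ (St p w).length := by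
      rw [St_length]
      have := min_le_mem p w
      omega
    rw [mt_cons hl h1, mt_cons hl h, mt_St w hl hlp]
    have h2 : pred l (St p w) = pred l w := by
      apply pred_take
      rw [St_length] at h1
      omega
    rw [h2]

lemma mem_cons_St (p : ℕ) (w : List ℕ) (b : ℕ) : mem p (b :: St p w) = mem p (b :: w) := by
  have h0 : min (b :: St p w).length p = min (b :: w).length p := by
    simp only [List.length_cons, St_length]
    have h1 := mem_le_length p w
    have h2 := min_le_mem p w
    omega
  apply le_antisymm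
  · rw [mem_le_iff]
    refine ⟨by rw [h0]; exact min_le_mem _ _, fun l hl hlp hm => ?_⟩
    rw [mt_cons_St w b hl hlp] at hm ⊢
    exact mt_le_mem hl hlp hm
  · rw [mem_le_iff]
    refine ⟨by rw [← h0]; exact min_le_mem _ _, fun l hl hlp hm => ?_⟩
    rw [← mt_cons_St w b hl hlp] at hm ⊢
    exact mt_le_mem hl hlp hm

lemma mem_cons_le (p : ℕ) (w : List ℕ) (b : ℕ) : mem p (b :: w) ≤ mem p w + 1 := by
  rw [mem_le_iff]
  have h2 := min_le_mem p w
  refine ⟨by simp only [List.length_cons]; omega, fun l hl hlp hm => ?_⟩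
  have hlen : l ≤ w.length := by
    have := add_mt_le_length hm
    simp only [List.length_cons] at this
    omega
  rw [mt_cons hl hlen] at hm ⊢
  split_ifs at hm ⊢ with hb
  · rcases Nat.eq_zero_or_pos (mt l w) with h | h
    · omega
    · have := mt_le_mem hl hlp h
      omega
  · omega

/-- the step -/
lemma St_cons (p : ℕ) (w : List ℕ) (b : ℕ) : St p (b :: w) = St p (b :: St p w) := by
  have h1 := mem_cons_le p w b
  unfold St at *
  have h2 : mem p (b :: List.take (mem p w) w) = mem p (b :: w) := mem_cons_St p w b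
  rw [h2]
  rcases Nat.eq_zero_or_pos (mem p (b :: w)) with h | h
  · rw [h]; simp
  · obtain ⟨k, hk⟩ : ∃ k, mem p (b :: w) = k + 1 := ⟨mem p (b :: w) - 1, by omega⟩
    rw [hk, List.take_succ_cons, List.take_succ_cons, List.take_take]
    have e : min k (mem p w) = k := by omega
    rw [e]

/-! ### Relabelling -/

lemma lcp_map {f : ℕ → ℕ} : ∀ (u v : List ℕ), (∀ x ∈ u, ∀ y ∈ v, f x = f y → x = y) →
    lcp (u.map f) (v.map f) = lcp u v
  | [], v, _ => by cases v <;> simp [lcp]
  | a :: u, [], _ => by simp [lcp]
  | a :: u, b :: v, h => by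
    simp only [List.map_cons]
    unfold lcp
    have ih := lcp_map u v (fun x hx y hy => h x (List.mem_cons_of_mem _ hx) y
      (List.mem_cons_of_mem _ hy))
    by_cases hab : a = b
    · subst hab
      simp [ih]
    · have : f a ≠ f b := fun hf => hab (h a List.mem_cons_self b List.mem_cons_self hf)
      simp [hab, this]

lemma mt_map {f : ℕ → ℕ} {w : List ℕ} (h : ∀ x ∈ w, ∀ y ∈ w, f x = f y → x = y) (l : ℕ) :
    mt l (w.map f) = mt l w := by
  unfold mt
  rw [← List.map_drop]
  exact lcp_map _ _ (fun x hx y hy => h x hx y (List.mem_of_mem_drop hy))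

lemma memAux_map {f : ℕ → ℕ} {w : List ℕ} (h : ∀ x ∈ w, ∀ y ∈ w, f x = f y → x = y) (p : ℕ) :
    memAux (w.map f) p = memAux w p := by
  induction p with
  | zero => rfl
  | succ p ih => unfold memAux; rw [ih, mt_map h]

lemma mem_map {f : ℕ → ℕ} {w : List ℕ} (h : ∀ x ∈ w, ∀ y ∈ w, f x = f y → x = y) (p : ℕ) :
    mem p (w.map f) = mem p w := by
  unfold mem
  rw [memAux_map h, List.length_map]

lemma St_map {f : ℕ → ℕ} {w : List ℕ} (h : ∀ x ∈ w, ∀ y ∈ w, f x = f y → x = y) (p : ℕ) :
    St p (w.map f) = (St p w).map f := by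
  unfold St
  rw [mem_map h, List.map_take]

/-! ### Move to front -/

/-- move the label `b` to the front -/
def mtf (b : ℕ) (L : List ℕ) : List ℕ := b :: L.erase b

/-- the old label of the new label `t`, when the label `z` is moved to the front -/
def sig (z t : ℕ) : ℕ := if t = 0 then z else if t ≤ z then t - 1 else t

lemma getD_append_idxOf (L : List ℕ) (b : ℕ) : (L ++ [b]).getD (L.idxOf b) 0 = b := by
  induction L with
  | nil => simp
  | cons a L ih =>
    by_cases h : a = b
    · subst h; simp
    · rw [List.idxOf_cons_ne _ h, List.cons_append, List.getD_cons_succ]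
      exact ih

lemma erase_getD (L : List ℕ) (b : ℕ) (t : ℕ) (ht : t < (L.erase b).length) :
    (L.erase b).getD t 0 = (L ++ [b]).getD (if t < L.idxOf b then t else t + 1) 0 := by
  induction L generalizing t with
  | nil => simp at ht
  | cons a L ih =>
    by_cases h : a = b
    · subst h
      simp only [List.erase_cons_head] at ht
      simp only [List.erase_cons_head, List.idxOf_cons_self, not_lt_zero, if_false,
        List.cons_append, List.getD_cons_succ]
      rw [List.getD_append _ _ _ _ ht]
    · rw [List.erase_cons_tail (by simpa using h)] at ht ⊢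
      rw [List.idxOf_cons_ne _ h, List.cons_append]
      cases t with
      | zero => simp
      | succ t =>
        rw [List.getD_cons_succ, ih t (by simpa using ht)]
        by_cases h1 : t < L.idxOf b
        · rw [if_pos h1, if_pos (by omega), List.getD_cons_succ]
        · rw [if_neg h1, if_neg (by omega), List.getD_cons_succ]

lemma mtf_getD (L : List ℕ) (b : ℕ) (t : ℕ) (ht : t < (mtf b L).length) :
    (mtf b L).getD t 0 = (L ++ [b]).getD (sig (L.idxOf b) t) 0 := by
  unfold mtf at *
  cases t with
  | zero =>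
    simp only [sig, if_true, List.getD_cons_zero]
    exact (getD_append_idxOf L b).symm
  | succ t =>
    rw [List.getD_cons_succ, erase_getD L b t (by simpa using ht)]
    have e : sig (L.idxOf b) (t + 1) = if t < L.idxOf b then t else t + 1 := by
      unfold sig
      rw [if_neg (Nat.succ_ne_zero t)]
      by_cases h1 : t < L.idxOf b
      · rw [if_pos h1, if_pos (by omega), Nat.add_sub_cancel]
      · rw [if_neg h1, if_neg (by omega)]
    rw [e]

lemma mtf_nodup {L : List ℕ} (h : L.Nodup) (b : ℕ) : (mtf b L).Nodup := by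
  unfold mtf
  rw [List.nodup_cons]
  exact ⟨fun hb => (h.mem_erase_iff.1 hb).1 rfl, h.erase b⟩

lemma mtf_length {L : List ℕ} (b : ℕ) :
    (mtf b L).length = if b ∈ L then L.length else L.length + 1 := by
  unfold mtf
  split_ifs with h
  · rw [List.length_cons, List.length_erase_of_mem h]
    have := List.length_pos_of_mem h
    omega
  · rw [List.length_cons, List.erase_of_not_mem h]

/-- the labelling function is injective on the labels in use -/
lemma label_inj {L : List ℕ} (h : L.Nodup) (b : ℕ) {x y : ℕ}
    (hx : x < L.length ∨ x = L.idxOf b) (hy : y < L.length ∨ y = L.idxOf b)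
    (he : (L ++ [b]).getD x 0 = (L ++ [b]).getD y 0) : x = y := by
  by_cases hb : b ∈ L
  · have h1 : L.idxOf b < L.length := List.idxOf_lt_length_iff.2 hb
    have hx' : x < L.length := by omega
    have hy' : y < L.length := by omega
    rw [List.getD_append _ _ _ _ hx', List.getD_append _ _ _ _ hy',
      List.getD_eq_getElem _ _ hx', List.getD_eq_getElem _ _ hy'] at he
    exact (List.Nodup.getElem_inj_iff h).1 he
  · have h1 : L.idxOf b = L.length := List.idxOf_eq_length hb
    have hnd : (L ++ [b]).Nodup := by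
      rw [List.nodup_append]
      refine ⟨h, by simp, ?_⟩
      intro a ha c hc
      simp only [List.mem_singleton] at hc
      subst hc
      exact fun e => hb (e ▸ ha)
    have hx' : x < (L ++ [b]).length := by simp; omega
    have hy' : y < (L ++ [b]).length := by simp; omega
    rw [List.getD_eq_getElem _ _ hx', List.getD_eq_getElem _ _ hy'] at he
    exact (List.Nodup.getElem_inj_iff hnd).1 he

/-! ### The table -/

/-- the table of an automaton: `n` states, the remembered string, the number of letters and
the transitions -/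
structure Tab where
  n : ℕ
  str : ℕ → List ℕ
  nl : ℕ → ℕ
  nxt : ℕ → ℕ → ℕ

/-- a correct transition -/
def Tab.OkStep (T : Tab) (p i z : ℕ) : Prop :=
  T.nxt i z = 0 ∨ (T.nxt i z < T.n ∧ (∀ l, 0 < l → l ≤ p → mt l (z :: T.str i) < l) ∧
    St p (z :: T.str i) = (T.str (T.nxt i z)).map (sig z) ∧
    T.nl (T.nxt i z) ≤ (if z = T.nl i then T.nl i + 1 else T.nl i))

/-- a correct table -/
structure Tab.Valid (T : Tab) (p : ℕ) : Prop where
  one_lt : 1 < T.n
  str_one : T.str 1 = []
  nl_one : T.nl 1 = 0
  lt_nl : ∀ i, 0 < i → i < T.n → ∀ t ∈ T.str i, t < T.nl i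
  head : ∀ i, 1 < i → i < T.n → (T.str i).head? = some 0
  step : ∀ i, 0 < i → i < T.n → ∀ z, z ≤ T.nl i → T.OkStep p i z

/-- the state and the labels of a word; the state `0` is dead -/
def Tab.run (T : Tab) : List ℕ → ℕ × List ℕ
  | [] => (1, [])
  | b :: w =>
    if (T.run w).1 = 0 then (0, []) else
      (T.nxt (T.run w).1 ((T.run w).2.idxOf b),
        (mtf b (T.run w).2).take (T.nl (T.nxt (T.run w).1 ((T.run w).2.idxOf b))))

/-- the invariant of the run -/
structure Tab.Inv (T : Tab) (p : ℕ) (w : List ℕ) (i : ℕ) (L : List ℕ) : Prop where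
  pos : 0 < i
  lt : i < T.n
  nodup : L.Nodup
  len : L.length = T.nl i
  St_eq : St p w = (T.str i).map (fun t => L.getD t 0)

/-- relabelling of the state after a letter -/
lemma Tab.Inv.cons_St {T : Tab} {p : ℕ} (hT : T.Valid p) {w : List ℕ} {i : ℕ} {L : List ℕ}
    (h : T.Inv p w i L) (b : ℕ) :
    b :: St p w = (L.idxOf b :: T.str i).map (fun t => (L ++ [b]).getD t 0) ∧
    (∀ x ∈ (L.idxOf b :: T.str i), ∀ y ∈ (L.idxOf b :: T.str i),
      (L ++ [b]).getD x 0 = (L ++ [b]).getD y 0 → x = y) := by
  constructor
  · rw [List.map_cons, getD_append_idxOf, h.St_eq]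
    congr 1
    apply List.map_congr_left
    intro t ht
    have := hT.lt_nl i h.pos h.lt t ht
    rw [List.getD_append _ _ _ _ (by rw [h.len]; exact this)]
  · intro x hx y hy he
    have key : ∀ x, x ∈ (L.idxOf b :: T.str i) → x < L.length ∨ x = L.idxOf b := by
      intro x hx
      rw [List.mem_cons] at hx
      rcases hx with rfl | hx
      · right; rfl
      · left
        rw [h.len]
        exact hT.lt_nl i h.pos h.lt x hx
    exact label_inj h.nodup b (key x hx) (key y hy) he

lemma Tab.Inv.idx_le {T : Tab} {p : ℕ} {w : List ℕ} {i : ℕ} {L : List ℕ}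
    (h : T.Inv p w i L) (b : ℕ) : L.idxOf b ≤ T.nl i := by
  rw [← h.len]
  exact List.idxOf_le_length

lemma Tab.Inv.mt_cons_eq {T : Tab} {p : ℕ} (hT : T.Valid p) {w : List ℕ} {i : ℕ} {L : List ℕ}
    (h : T.Inv p w i L) (b : ℕ) {l : ℕ} (hl : 0 < l) (hlp : l ≤ p) :
    mt l (b :: w) = mt l (L.idxOf b :: T.str i) := by
  obtain ⟨h1, h2⟩ := h.cons_St hT b
  rw [← mt_cons_St w b hl hlp, h1, mt_map h2]

lemma Tab.Inv.step {T : Tab} {p : ℕ} (hT : T.Valid p) {w : List ℕ} {i : ℕ} {L : List ℕ}
    (h : T.Inv p w i L) (b : ℕ) (hn : T.nxt i (L.idxOf b) ≠ 0) :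
    T.Inv p (b :: w) (T.nxt i (L.idxOf b)) ((mtf b L).take (T.nl (T.nxt i (L.idxOf b)))) := by
  rcases hT.step i h.pos h.lt _ (h.idx_le b) with h0 | ⟨h1, h2, h3, h4⟩
  · exact absurd h0 hn
  have hlen : T.nl (T.nxt i (L.idxOf b)) ≤ (mtf b L).length := by
    rw [mtf_length]
    have : (L.idxOf b = T.nl i) ↔ ¬ b ∈ L := by
      rw [← h.len]
      exact List.idxOf_eq_length_iff
    by_cases hb : b ∈ L
    · rw [if_neg (by rw [this]; simpa using hb)] at h4
      rw [if_pos hb, h.len]
      exact h4
    · rw [if_pos (by rw [this]; exact hb)] at h4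
      rw [if_neg hb, h.len]
      exact h4
  obtain ⟨h5, h6⟩ := h.cons_St hT b
  refine ⟨by omega, h1, (mtf_nodup h.nodup b).take, ?_, ?_⟩
  · rw [List.length_take]
    omega
  · rw [St_cons, h5, St_map h6, h3, List.map_map]
    apply List.map_congr_left
    intro t ht
    have ht' := hT.lt_nl _ (Nat.pos_of_ne_zero hn) h1 t ht
    simp only [Function.comp]
    rw [← mtf_getD L b t (by omega)]
    simp only [List.getD_eq_getElem?_getD]
    rw [List.getElem?_take_of_lt ht']

lemma Tab.run_inv {T : Tab} {p : ℕ} (hT : T.Valid p) (w : List ℕ) (hw : (T.run w).1 ≠ 0) :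
    T.Inv p w (T.run w).1 (T.run w).2 := by
  induction w with
  | nil =>
    refine ⟨by simp [Tab.run], hT.one_lt, by simp [Tab.run], by simp [Tab.run, hT.nl_one], ?_⟩
    simp [Tab.run, hT.str_one, St]
  | cons b w ih =>
    unfold Tab.run at hw ⊢
    by_cases h0 : (T.run w).1 = 0
    · rw [if_pos h0] at hw
      exact absurd rfl hw
    · rw [if_neg h0] at hw ⊢
      exact (ih h0).step hT b hw

/-- squares of period at most `p` lead to the dead state -/
lemma Tab.run_dead {T : Tab} {p : ℕ} (hT : T.Valid p) {w : List ℕ} {b l : ℕ} (hlp : l ≤ p)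
    (he : EndSq l (b :: w)) : (T.run (b :: w)).1 = 0 := by
  by_contra hne
  have hl : 0 < l := he.1
  unfold Tab.run at hne
  by_cases h0 : (T.run w).1 = 0
  · rw [if_pos h0] at hne
    exact hne rfl
  · rw [if_neg h0] at hne
    have hI := T.run_inv hT w h0
    rcases hT.step _ hI.pos hI.lt _ (hI.idx_le b) with h1 | ⟨h1, h2, h3, h4⟩
    · exact hne h1
    · have h5 := h2 l hl hlp
      rw [← hI.mt_cons_eq hT b hl hlp] at h5
      have h6 := (endSq_iff hl).1 he
      omega

end Pool.Agent.Lib.MP35b3f5
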