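import Pool.Agent.Lib.MP_35b3f5_co.Assembly

/-!
# Kernel checkers for the table (raw recursors, packed tables)
-/

set_option autoImplicit false

namespace Pool.Agent.Lib.MP35b3f5

/-! ### The functions evaluated by the kernel -/

/-- evaluate the argument first -/
noncomputable def force (x : ℕ) (f : ℕ → Bool) : Bool :=
  Nat.rec (motive := fun _ => Bool) (f 0) (fun n _ => f (Nat.succ n)) x

noncomputable def band (a b : Bool) : Bool := Bool.rec (motive := fun _ => Bool) false b a

/-- decode a string: base 16, last letter in the lowest digit, top digit `1` -/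
noncomputable def dec (k : ℕ) : ℕ → List ℕ :=
  Nat.rec (motive := fun _ => ℕ → List ℕ) (fun _ => [])
    (fun _ ih c => Bool.rec (motive := fun _ => List ℕ)
      (List.cons (Nat.mod c 16) (ih (Nat.div c 16))) [] (Nat.ble c 1)) k

noncomputable def lcpB (u : List ℕ) : List ℕ → ℕ :=
  List.rec (motive := fun _ => List ℕ → ℕ) (fun _ => 0)
    (fun a _ ih v => List.rec (motive := fun _ => ℕ) 0
      (fun b v' _ => Bool.rec (motive := fun _ => ℕ) 0 (Nat.succ (ih v')) (Nat.beq a b)) v) u

/-- `v` is empty -/
noncomputable def nilB (v : List ℕ) : Bool :=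
  List.rec (motive := fun _ => Bool) true (fun _ _ _ => false) v

/-- equality of `u.take k` and `v.map (sig z)` -/
noncomputable def eqB (z : ℕ) (u : List ℕ) : ℕ → List ℕ → Bool :=
  List.rec (motive := fun _ => ℕ → List ℕ → Bool)
    (fun _ v => nilB v)
    (fun a _ ih k v => Nat.rec (motive := fun _ => Bool) (nilB v)
      (fun k' _ => List.rec (motive := fun _ => Bool) false (fun t v' _ =>
        Bool.rec (motive := fun _ => Bool) false (ih k' v')
          (Nat.rec (motive := fun _ => Bool) (Nat.beq a z)
            (fun t' _ => Bool.rec (motive := fun _ => Bool) (Nat.beq a (Nat.succ t'))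
              (Nat.beq a t') (Nat.ble (Nat.succ t') z)) t)) v) k) u

/-- loop over the periods `l, l+1, …` -/
noncomputable def perB (u : List ℕ) (kk : ℕ → Bool) (p : ℕ) : List ℕ → ℕ → ℕ → Bool :=
  Nat.rec (motive := fun _ => List ℕ → ℕ → ℕ → Bool) (fun _ _ acc => kk acc)
    (fun _ ih v l acc => List.rec (motive := fun _ => Bool) (kk acc)
      (fun _ v' _ => Nat.rec (motive := fun _ => Bool) (ih v' (Nat.succ l) acc)
        (fun m' _ => Bool.rec (motive := fun _ => Bool) false
          (force (Nat.add l (Nat.succ m')) (fun e => Bool.rec (motive := fun _ => Bool)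
            (ih v' (Nat.succ l) acc) (ih v' (Nat.succ l) e) (Nat.ble acc e)))
          (Nat.ble (Nat.succ (Nat.succ m')) l)) (lcpB u v)) v) p

noncomputable def allB (f : ℕ → Bool) (k : ℕ) : Bool :=
  Nat.rec (motive := fun _ => Bool) true (fun n ih => band (f n) ih) k

/-- table lookup: entry `k` of width `w`, `m = 2 ^ w` -/
noncomputable def look (X w m k : ℕ) : ℕ := Nat.mod (Nat.shiftRight X (Nat.mul w k)) m

/-- the automaton from packed tables -/
noncomputable def mkTab (n S N X slots sw sm : ℕ) : Tab where
  n := n
  str i := dec 16 (look S 64 18446744073709551616 i)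
  nl i := look N 4 16 i
  nxt i z := look X sw sm (Nat.add (Nat.mul slots i) z)

/-- check of one transition -/
noncomputable def stepB (T : Tab) (p i m z : ℕ) (s : List ℕ) : Bool :=
  force (T.nxt i z) (fun j =>
    Bool.rec (motive := fun _ => Bool)
      (band (Nat.ble (Nat.succ j) T.n) (band
       (Nat.ble (T.nl j) (Bool.rec (motive := fun _ => ℕ) m (Nat.succ m) (Nat.beq z m)))
        (perB (z :: s) (fun acc => eqB z (z :: s) acc (T.str j)) p s 1
          (Bool.rec (motive := fun _ => ℕ) p (Nat.succ s.length)
            (Nat.ble (Nat.succ s.length) p)))))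
      true (Nat.beq j 0))

noncomputable def headB (s : List ℕ) : Bool :=
  List.rec (motive := fun _ => Bool) false (fun a _ _ => Nat.beq a 0) s

noncomputable def ltB (m : ℕ) (s : List ℕ) : Bool :=
  List.rec (motive := fun _ => Bool) true (fun a _ ih => band (Nat.ble (Nat.succ a) m) ih) s

/-- check of one state `i > 0` -/
noncomputable def stateB (T : Tab) (p i : ℕ) : Bool :=
  (fun s => force (T.nl i) (fun m =>
   band (ltB m s) (band (Bool.rec (motive := fun _ => Bool) (headB s) true (Nat.beq i 1))
    (allB (fun z => stepB T p i m z s) (Nat.succ m))))) (T.str i)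

/-- skip the class `z` in the state `i` (the last letter) -/
noncomputable def skipB (i z : ℕ) : Bool := band (Nat.beq z 0) (Nat.ble 2 i)

/-- the slack inequalities of the state `i` -/
noncomputable def slackB (X : Dat) (i : ℕ) : Bool :=
  force (Nat.mul X.αn (X.cv i)) (fun A => force (X.T.nl i) (fun m =>
    allB (fun z => Bool.rec (motive := fun _ => Bool)
      (force (X.cv (X.T.nxt i z)) (fun v => force (Nat.add A (X.sl i z)) (fun s =>
        allB (fun y => Bool.rec (motive := fun _ => Bool)
          (Bool.rec (motive := fun _ => Bool)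
            (Nat.ble s (Nat.mul X.αd (Nat.add v (X.cv (X.T.nxt i y)))))
            true (band (Nat.beq y z) (Nat.ble (Nat.succ z) m)))
          true (skipB i y)) (Nat.succ m)))) true (skipB i z)) (Nat.succ m)))

/-! ### Soundness -/

lemma ble_iff {a b : ℕ} : Nat.ble a b = true ↔ a ≤ b := by rw [Nat.ble_eq]

lemma beq_iff {a b : ℕ} : Nat.beq a b = true ↔ a = b := by rw [Nat.beq_eq]

lemma force_eq (x : ℕ) (f : ℕ → Bool) : force x f = f x := by
  cases x <;> rfl

lemma band_eq (a b : Bool) : band a b = (a && b) := by
  cases a <;> rfl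

lemma bool_rec_eq {α : Type} (b : Bool) (x y : α) :
    Bool.rec (motive := fun _ => α) x y b = if b = true then y else x := by
  cases b <;> rfl

lemma lcpB_eq (u v : List ℕ) : lcpB u v = lcp u v := by
  induction u generalizing v with
  | nil => cases v <;> rfl
  | cons a u ih =>
    cases v with
    | nil => rfl
    | cons b v =>
      show Bool.rec (motive := fun _ => ℕ) 0 (Nat.succ (lcpB u v)) (Nat.beq a b) = _
      have e : lcp (a :: u) (b :: v) = if a = b then lcp u v + 1 else 0 := rfl
      rw [bool_rec_eq, ih, e]
      by_cases h : a = b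
      · rw [if_pos (by rw [Nat.beq_eq]; exact h), if_pos h]
      · rw [if_neg (by rw [Nat.beq_eq]; exact h), if_neg h]

lemma nilB_eq {v : List ℕ} : nilB v = true ↔ v = [] := by
  cases v with
  | nil => exact ⟨fun _ => rfl, fun _ => rfl⟩
  | cons a v =>
    constructor
    · intro h
      exact absurd h (by show ¬ (false = true); simp)
    · intro h
      simp at h

lemma eqB_eq (z : ℕ) (u : List ℕ) (k : ℕ) (v : List ℕ) (h : eqB z u k v = true) :
    u.take k = v.map (sig z) := by
  induction u generalizing k v with
  | nil =>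
    have h1 : v = [] := nilB_eq.1 h
    rw [h1]
    simp
  | cons a u ih =>
    cases k with
    | zero =>
      have h1 : v = [] := nilB_eq.1 h
      rw [h1]
      simp
    | succ k =>
      cases v with
      | nil => exact absurd h (by show ¬ (false = true); simp)
      | cons t v =>
        have h1 : Bool.rec (motive := fun _ => Bool) false (eqB z u k v)
          (Nat.rec (motive := fun _ => Bool) (Nat.beq a z)
            (fun t' _ => Bool.rec (motive := fun _ => Bool) (Nat.beq a (Nat.succ t'))
              (Nat.beq a t') (Nat.ble (Nat.succ t') z)) t) = true := h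
        rw [bool_rec_eq] at h1
        split_ifs at h1 with h2
        · rw [List.take_succ_cons, List.map_cons, ih k v h1]
          congr 1
          cases t with
          | zero =>
            have h3 : Nat.beq a z = true := h2
            rw [Nat.beq_eq] at h3
            simp [sig, h3]
          | succ t =>
            have h3 : Bool.rec (motive := fun _ => Bool) (Nat.beq a (Nat.succ t))
              (Nat.beq a t) (Nat.ble (Nat.succ t) z) = true := h2
            rw [bool_rec_eq] at h3
            unfold sig
            rw [if_neg (Nat.succ_ne_zero t)]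
            by_cases h4 : t + 1 ≤ z
            · rw [if_pos (ble_iff.2 h4)] at h3
              rw [if_pos h4, Nat.add_sub_cancel]
              exact (Nat.beq_eq ▸ h3)
            · rw [if_neg (fun h => h4 (ble_iff.1 h))] at h3
              rw [if_neg h4]
              exact (Nat.beq_eq ▸ h3)

/-- upward memory loop -/
def memUp (u : List ℕ) : ℕ → ℕ → ℕ → ℕ
  | 0, _, acc => acc
  | k + 1, l, acc => memUp u k (l + 1) (if mt l u = 0 then acc else max acc (l + mt l u))

lemma memUp_const (u : List ℕ) (k l acc : ℕ) (h : u.length ≤ l) : memUp u k l acc = acc := by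
  induction k generalizing l acc with
  | zero => rfl
  | succ k ih =>
    unfold memUp
    rw [mt_cons_length h, if_pos rfl]
    exact ih (l + 1) acc (by omega)

lemma memUp_succ (u : List ℕ) (k l acc : ℕ) : memUp u (k + 1) l acc =
    max (memUp u k l acc) (if mt (l + k) u = 0 then 0 else l + k + mt (l + k) u) := by
  induction k generalizing l acc with
  | zero =>
    simp only [memUp, Nat.add_zero]
    split_ifs <;> simp
  | succ k ih =>
    unfold memUp
    rw [ih]
    have e : l + 1 + k = l + (k + 1) := by omega
    rw [e]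

lemma memUp_eq (u : List ℕ) (p acc : ℕ) : memUp u p 1 acc = max acc (memAux u p) := by
  induction p with
  | zero => simp [memUp, memAux]
  | succ p ih =>
    have e' : memAux u (p + 1) = max (memAux u p)
      (if mt (p + 1) u = 0 then 0 else p + 1 + mt (p + 1) u) := rfl
    rw [memUp_succ, ih, e']
    have e : 1 + p = p + 1 := by omega
    rw [e, max_assoc]

lemma perB_sound (u : List ℕ) (kk : ℕ → Bool) (p : ℕ) (l acc : ℕ)
    (h : perB u kk p (u.drop l) l acc = true) :
    (∀ q, l ≤ q → q < l + p → mt q u < q ∨ mt q u = 0) ∧ kk (memUp u p l acc) = true := by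
  induction p generalizing l acc with
  | zero =>
    refine ⟨fun q h1 h2 => by omega, ?_⟩
    exact h
  | succ p ih =>
    cases hv : u.drop l with
    | nil =>
      rw [hv] at h
      have hlen : u.length ≤ l := List.drop_eq_nil_iff.1 hv
      refine ⟨fun q h1 h2 => Or.inr (mt_cons_length (by omega)), ?_⟩
      rw [memUp_const u _ _ _ hlen]
      exact h
    | cons a v =>
      have hv' : u.drop (l + 1) = v := by
        rw [← List.drop_drop, hv]
        rfl
      have hlc : lcpB u (u.drop l) = mt l u := lcpB_eq _ _
      rw [hv] at h hlc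
      have h' : Nat.rec (motive := fun _ => Bool) (perB u kk p v (Nat.succ l) acc)
        (fun m' _ => Bool.rec (motive := fun _ => Bool) false
          (force (Nat.add l (Nat.succ m')) (fun e => Bool.rec (motive := fun _ => Bool)
            (perB u kk p v (Nat.succ l) acc) (perB u kk p v (Nat.succ l) e) (Nat.ble acc e)))
          (Nat.ble (Nat.succ (Nat.succ m')) l)) (lcpB u (a :: v)) = true := h
      rw [hlc] at h'
      rw [← hv'] at h'
      have key : ∀ acc', perB u kk p (u.drop (l + 1)) (l + 1) acc' = true →
          (mt l u < l ∨ mt l u = 0) →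
          acc' = (if mt l u = 0 then acc else max acc (l + mt l u)) →
          (∀ q, l ≤ q → q < l + (p + 1) → mt q u < q ∨ mt q u = 0) ∧
            kk (memUp u (p + 1) l acc) = true := by
        intro acc' h1 h2 h3
        obtain ⟨h4, h5⟩ := ih (l + 1) acc' h1
        refine ⟨fun q hq1 hq2 => ?_, ?_⟩
        · rcases Nat.lt_or_ge l q with h6 | h6
          · exact h4 q h6 (by omega)
          · obtain rfl : q = l := by omega
            exact h2
        · unfold memUp
          rw [← h3]
          exact h5
      cases hm : mt l u with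
      | zero =>
        rw [hm] at h'
        exact key acc h' (Or.inr hm) (by rw [hm, if_pos rfl])
      | succ m' =>
        rw [hm] at h'
        have h6 : Bool.rec (motive := fun _ => Bool) false
          (force (Nat.add l (Nat.succ m')) (fun e => Bool.rec (motive := fun _ => Bool)
            (perB u kk p (u.drop (l + 1)) (Nat.succ l) acc)
            (perB u kk p (u.drop (l + 1)) (Nat.succ l) e) (Nat.ble acc e)))
          (Nat.ble (Nat.succ (Nat.succ m')) l) = true := h'
        rw [bool_rec_eq] at h6
        split_ifs at h6 with h7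
        · rw [Nat.ble_eq] at h7
          have e9 : Nat.add l (Nat.succ m') = l + (m' + 1) := rfl
          rw [force_eq, bool_rec_eq, e9] at h6
          have h8 : mt l u < l ∨ mt l u = 0 := by left; omega
          by_cases h9 : acc ≤ l + (m' + 1)
          · rw [if_pos (ble_iff.2 h9)] at h6
            exact key (l + (m' + 1)) h6 h8 (by rw [hm, if_neg (by omega)]; omega)
          · rw [if_neg (fun h => h9 (ble_iff.1 h))] at h6
            exact key acc h6 h8 (by rw [hm, if_neg (by omega)]; omega)

lemma allB_sound {f : ℕ → Bool} {k : ℕ} (h : allB f k = true) : ∀ i, i < k → f i = true := by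
  induction k with
  | zero => intro i hi; omega
  | succ k ih =>
    have h1 : band (f k) (allB f k) = true := h
    rw [band_eq, Bool.and_eq_true] at h1
    intro i hi
    rcases Nat.lt_or_ge i k with h2 | h2
    · exact ih h1.2 i h2
    · obtain rfl : i = k := by omega
      exact h1.1

lemma stepB_sound {T : Tab} {p i z : ℕ} (h : stepB T p i (T.nl i) z (T.str i) = true) :
    T.OkStep p i z := by
  unfold stepB at h
  rw [force_eq, bool_rec_eq] at h
  unfold Tab.OkStep
  by_cases h0 : T.nxt i z = 0
  · left; exact h0
  · right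
    rw [if_neg (by rw [Nat.beq_eq]; exact h0)] at h
    rw [band_eq, band_eq, Bool.and_eq_true, Bool.and_eq_true] at h
    obtain ⟨h1, h2, h3⟩ := h
    rw [Nat.ble_eq] at h1 h2
    rw [bool_rec_eq] at h2 h3
    have h4 : (if Nat.ble (Nat.succ (T.str i).length) p = true then Nat.succ (T.str i).length
        else p) = min (z :: T.str i).length p := by
      rw [List.length_cons]
      by_cases h5 : (T.str i).length + 1 ≤ p
      · rw [if_pos (ble_iff.2 h5)]; omega
      · rw [if_neg (fun h => h5 (ble_iff.1 h))]; omega
    rw [h4] at h3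
    have h5 := perB_sound (z :: T.str i) _ p 1 _ h3
    obtain ⟨h6, h7⟩ := h5
    rw [memUp_eq] at h7
    refine ⟨h1, ?_, ?_, ?_⟩
    · intro l hl hlp
      rcases h6 l hl (by omega) with h | h
      · exact h
      · omega
    · exact eqB_eq z _ _ _ h7
    · refine le_trans h2 (le_of_eq ?_)
      by_cases hz : z = T.nl i
      · rw [if_pos hz, if_pos (by rw [Nat.beq_eq]; exact hz)]
      · rw [if_neg hz, if_neg (by rw [Nat.beq_eq]; exact hz)]

lemma headB_sound {s : List ℕ} (h : headB s = true) : s.head? = some 0 := by
  cases s with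
  | nil => exact absurd h (by show ¬ (false = true); simp)
  | cons a s =>
    have h1 : Nat.beq a 0 = true := h
    rw [Nat.beq_eq] at h1
    rw [h1]
    rfl

lemma ltB_sound {m : ℕ} {s : List ℕ} (h : ltB m s = true) : ∀ t ∈ s, t < m := by
  induction s with
  | nil => intro t ht; simp at ht
  | cons a s ih =>
    have h1 : band (Nat.ble (Nat.succ a) m) (ltB m s) = true := h
    rw [band_eq, Bool.and_eq_true] at h1
    intro t ht
    rw [List.mem_cons] at ht
    rcases ht with rfl | ht
    · exact ble_iff.1 h1.1
    · exact ih h1.2 t ht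

/-- soundness of the check of the automaton -/
theorem tab_valid {T : Tab} {p : ℕ} (h1 : 1 < T.n) (h2 : T.str 1 = []) (h3 : T.nl 1 = 0)
    (h : ∀ i, 0 < i → i < T.n → stateB T p i = true) : T.Valid p := by
  have key : ∀ i, 0 < i → i < T.n → ltB (T.nl i) (T.str i) = true ∧
      (i = 1 ∨ headB (T.str i) = true) ∧
      ∀ z, z ≤ T.nl i → stepB T p i (T.nl i) z (T.str i) = true := by
    intro i hi hin
    have h4 := h i hi hin
    unfold stateB at h4
    beta_reduce at h4
    rw [force_eq, band_eq, band_eq, Bool.and_eq_true, Bool.and_eq_true, bool_rec_eq] at h4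
    obtain ⟨h5, h6, h7⟩ := h4
    refine ⟨h5, ?_, fun z hz => allB_sound h7 z (by omega)⟩
    by_cases hi1 : i = 1
    · left; exact hi1
    · right
      rw [if_neg (by rw [Nat.beq_eq]; exact hi1)] at h6
      exact h6
  refine ⟨h1, h2, h3, ?_, ?_, ?_⟩
  · intro i hi hin
    exact ltB_sound (key i hi hin).1
  · intro i hi hin
    rcases (key i (by omega) hin).2.1 with h4 | h4
    · omega
    · exact headB_sound h4
  · intro i hi hin z hz
    exact stepB_sound ((key i hi hin).2.2 z hz)

lemma skipB_eq {i z : ℕ} (h : i = 1 ∨ z ≠ 0) : skipB i z = false := by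
  unfold skipB
  rw [band_eq]
  by_contra hne
  rw [Bool.not_eq_false, Bool.and_eq_true, beq_iff, ble_iff] at hne
  omega

lemma slackB_sound {X : Dat} {i : ℕ} (h : slackB X i = true) :
    ∀ z z', z ≤ X.T.nl i → z' ≤ X.T.nl i → (z ≠ z' ∨ z = X.T.nl i) →
    (i = 1 ∨ (z ≠ 0 ∧ z' ≠ 0)) →
    X.αn * X.cv i + X.sl i z ≤ X.αd * (X.cv (X.T.nxt i z) + X.cv (X.T.nxt i z')) := by
  intro z z' hz hz' hne hh
  unfold slackB at h
  rw [force_eq, force_eq] at h
  have h1 := allB_sound h z (by omega)
  beta_reduce at h1
  rw [skipB_eq (by tauto)] at h1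
  have h2 : force (X.cv (X.T.nxt i z)) (fun v => force (Nat.add (Nat.mul X.αn (X.cv i))
      (X.sl i z)) (fun s =>
        allB (fun y => Bool.rec (motive := fun _ => Bool)
          (Bool.rec (motive := fun _ => Bool)
            (Nat.ble s (Nat.mul X.αd (Nat.add v (X.cv (X.T.nxt i y)))))
            true (band (Nat.beq y z) (Nat.ble (Nat.succ z) (X.T.nl i))))
          true (skipB i y)) (Nat.succ (X.T.nl i)))) = true := h1
  rw [force_eq, force_eq] at h2
  have h3 := allB_sound h2 z' (by omega)
  beta_reduce at h3
  rw [skipB_eq (by tauto), bool_rec_eq] at h3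
  rw [band_eq] at h3
  rw [if_neg (by rw [Bool.and_eq_true, beq_iff, ble_iff]; omega), ble_iff] at h3
  exact h3

/-- soundness of all checks -/
theorem dat_valid {X : Dat} {p : ℕ} (h1 : 1 < X.T.n) (h2 : X.T.str 1 = []) (h3 : X.T.nl 1 = 0)
    (h4 : X.cv 0 = 0) (h5 : 0 < X.cv 1) (h6 : 0 < X.αn) (h7 : 0 < X.αd)
    (h : ∀ i, 0 < i → i < X.T.n → band (stateB X.T p i) (slackB X i) = true) : X.Valid p := by
  have key : ∀ i, 0 < i → i < X.T.n → stateB X.T p i = true ∧ slackB X i = true := by
    intro i hi hin
    have := h i hi hin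
    rw [band_eq, Bool.and_eq_true] at this
    exact this
  exact ⟨tab_valid h1 h2 h3 (fun i hi hin => (key i hi hin).1), h4, h5, h6, h7,
    fun i hi hin => slackB_sound (key i hi hin).2⟩

/-- gluing of ranges -/
lemma range_glue {f : ℕ → Bool} {a b c : ℕ} (h1 : ∀ i, a ≤ i → i < b → f i = true)
    (h2 : ∀ i, b ≤ i → i < c → f i = true) : ∀ i, a ≤ i → i < c → f i = true := by
  intro i h3 h4
  rcases Nat.lt_or_ge i b with h | h
  · exact h1 i h3 h
  · exact h2 i h h4

/-- a range check -/
lemma range_of {f : ℕ → Bool} {a k : ℕ} (h : allB (fun i => f (Nat.add a i)) k = true) :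
    ∀ i, a ≤ i → i < a + k → f i = true := by
  intro i h1 h2
  have h3 := allB_sound h (i - a) (by omega)
  have e : Nat.add a (i - a) = i := by
    show a + (i - a) = i
    omega
  beta_reduce at h3
  rw [e] at h3
  exact h3

end Pool.Agent.Lib.MP35b3f5
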