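import Pool.Agent.Lib.MP_35b3f5_co.DatA0
import Pool.Agent.Lib.MP_35b3f5_co.DatA1
import Pool.Agent.Lib.MP_35b3f5_co.DatA2
import Pool.Agent.Lib.MP_35b3f5_co.DatA3
import Pool.Agent.Lib.MP_35b3f5_co.DatA4
import Pool.Agent.Lib.MP_35b3f5_co.DatA5
import Pool.Agent.Lib.MP_35b3f5_co.DatA6
import Pool.Agent.Lib.MP_35b3f5_co.DatA7

/-! Records of the states (generated). -/

set_option autoImplicit false

namespace Pool.Agent.Lib.MP35b3f5

noncomputable def d8_0 (j : ℕ) : ℕ :=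
  (selB (selB (selB c8_0 c8_1 (Nat.ble 1 j)) (selB c8_2 c8_3 (Nat.ble 3 j)) (Nat.ble 2 j)) (selB (selB c8_4 c8_5 (Nat.ble 5 j)) (selB c8_6 (selB c8_7 c8_8 (Nat.ble 8 j)) (Nat.ble 7 j)) (Nat.ble 6 j)) (Nat.ble 4 j))

noncomputable def d8_1 (j : ℕ) : ℕ :=
  (selB (selB (selB c8_9 c8_10 (Nat.ble 10 j)) (selB c8_11 c8_12 (Nat.ble 12 j)) (Nat.ble 11 j)) (selB (selB c8_13 c8_14 (Nat.ble 14 j)) (selB c8_15 (selB c8_16 c8_17 (Nat.ble 17 j)) (Nat.ble 16 j)) (Nat.ble 15 j)) (Nat.ble 13 j))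

noncomputable def d8_2 (j : ℕ) : ℕ :=
  (selB (selB (selB c8_18 c8_19 (Nat.ble 19 j)) (selB c8_20 c8_21 (Nat.ble 21 j)) (Nat.ble 20 j)) (selB (selB c8_22 c8_23 (Nat.ble 23 j)) (selB c8_24 (selB c8_25 c8_26 (Nat.ble 26 j)) (Nat.ble 25 j)) (Nat.ble 24 j)) (Nat.ble 22 j))

noncomputable def d8_3 (j : ℕ) : ℕ :=
  (selB (selB (selB c8_27 c8_28 (Nat.ble 28 j)) (selB c8_29 c8_30 (Nat.ble 30 j)) (Nat.ble 29 j)) (selB (selB c8_31 c8_32 (Nat.ble 32 j)) (selB c8_33 (selB c8_34 c8_35 (Nat.ble 35 j)) (Nat.ble 34 j)) (Nat.ble 33 j)) (Nat.ble 31 j))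

noncomputable def d8_4 (j : ℕ) : ℕ :=
  (selB (selB (selB c8_36 c8_37 (Nat.ble 37 j)) (selB c8_38 c8_39 (Nat.ble 39 j)) (Nat.ble 38 j)) (selB (selB c8_40 c8_41 (Nat.ble 41 j)) (selB c8_42 (selB c8_43 c8_44 (Nat.ble 44 j)) (Nat.ble 43 j)) (Nat.ble 42 j)) (Nat.ble 40 j))

noncomputable def d8_5 (j : ℕ) : ℕ :=
  (selB (selB (selB c8_45 c8_46 (Nat.ble 46 j)) (selB c8_47 c8_48 (Nat.ble 48 j)) (Nat.ble 47 j)) (selB (selB c8_49 c8_50 (Nat.ble 50 j)) (selB c8_51 (selB c8_52 c8_53 (Nat.ble 53 j)) (Nat.ble 52 j)) (Nat.ble 51 j)) (Nat.ble 49 j))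

noncomputable def d8_6 (j : ℕ) : ℕ :=
  (selB (selB (selB c8_54 c8_55 (Nat.ble 55 j)) (selB c8_56 c8_57 (Nat.ble 57 j)) (Nat.ble 56 j)) (selB (selB c8_58 c8_59 (Nat.ble 59 j)) (selB c8_60 (selB c8_61 c8_62 (Nat.ble 62 j)) (Nat.ble 61 j)) (Nat.ble 60 j)) (Nat.ble 58 j))

noncomputable def d8_7 (j : ℕ) : ℕ :=
  (selB (selB (selB c8_63 c8_64 (Nat.ble 64 j)) (selB c8_65 c8_66 (Nat.ble 66 j)) (Nat.ble 65 j)) (selB (selB c8_67 c8_68 (Nat.ble 68 j)) (selB c8_69 (selB c8_70 c8_71 (Nat.ble 71 j)) (Nat.ble 70 j)) (Nat.ble 69 j)) (Nat.ble 67 j))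

noncomputable def d8_8 (j : ℕ) : ℕ :=
  c8_72

noncomputable def e8 (j : ℕ) : ℕ :=
  (selB (selB (selB (d8_0 j) (d8_1 j) (Nat.ble 9 j)) (selB (d8_2 j) (d8_3 j) (Nat.ble 27 j)) (Nat.ble 18 j)) (selB (selB (d8_4 j) (d8_5 j) (Nat.ble 45 j)) (selB (d8_6 j) (selB (d8_7 j) (d8_8 j) (Nat.ble 72 j)) (Nat.ble 63 j)) (Nat.ble 54 j)) (Nat.ble 36 j))

/-- the record of a state -/
noncomputable def g8 (i : ℕ) : ℕ :=
  Nat.land (Nat.shiftRight (fn (Nat.shiftRight i 6) e8) (Nat.mul 3360 (Nat.land i 63)))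
    0xffffffffffffffffffffffffffffffffffffffffffffffffffffffffffffffffffffffffffffffffffffffffffffffffffffffffffffffffffffffffffffffffffffffffffffffffffffffffffffffffffffffffffffffffffffffffffffffffffffffffffffffffffffffffffffffffffffffffffffffffffffffffffffffffffffffffffffffffffffffffffffffffffffffffffffffffffffffffffffffffffffffffffffffffffffffffffffffffffffffffffffffffffffffffffffffffffffffffffffffffffffffffffffffffffffffffffffffffffffffffffffffffffffffffffffffffffffffffffffffffffffffffffffffffffffffffffffffffffffffffffffffffffffffffffffffffffffffffffffffffffffffffffffffffffffffffffffffffffffffffffffffffffffffffffffffffffffffffffffffffffffffffffffffffffffffffffffffffffffffffffffffffffffffffffffffffffffffffffffffffffffffffffffffffffffffffffffffffffffffffffffffffffffffffffffffffffffffffffffffffffffffffffffffffffffffffffffffffffffffff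

/-- the numerical data: 4666 states, growth 7 / 6 -/
noncomputable def dat8 : Dat := datOf 4667 7 6 g8

end Pool.Agent.Lib.MP35b3f5
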