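import Pool.Agent.Lib.MP_35b3f5_co.Pack
import Pool.Agent.Lib.MP_35b3f5_co.AWalk

/-!
# Soundness of the search through the closed walks
-/

set_option autoImplicit false

namespace Pool.Agent.Lib.MP35b3f5

/-- the levels of the period `l`; `b` is the number of the first bound -/
def mkLv (b l : ℕ) (lm : ℕ → ℕ) : ℕ → Lv
  | 0 => .cons (448 + 20 * b) 0 0 1 .nil
  | r + 1 => .cons (448 + 20 * (b + (r + 1))) (lm (l - r)) (4 * r) (16 ^ (r + 1)) (mkLv b l lm r)

/-! ### Strings -/

lemma land_mask (x k : ℕ) : Nat.land x (2 ^ k - 1) = x % 2 ^ k := Nat.and_two_pow_sub_one_eq_mod x k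

lemma dec_get : ∀ (r k c : ℕ), r < k → 16 ^ (r + 1) ≤ c →
    (dec k c)[r]? = some (Nat.land (Nat.shiftRight c (4 * r)) 15) := by
  intro r
  induction r with
  | zero =>
    intro k c hk hc
    obtain ⟨k, rfl⟩ : ∃ k', k = k' + 1 := ⟨k - 1, by omega⟩
    have e : dec (k + 1) c = Bool.rec (motive := fun _ => List ℕ)
      (List.cons (Nat.mod c 16) (dec k (Nat.div c 16))) [] (Nat.ble c 1) := rfl
    have h1 : Nat.ble c 1 = false := by
      rw [Bool.eq_false_iff]
      intro h
      rw [ble_iff] at h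
      rw [pow_one] at hc
      omega
    rw [e, h1]
    show some (c % 16) = some (Nat.land c 15)
    rw [show (15 : ℕ) = 2 ^ 4 - 1 by norm_num, land_mask c 4]
    norm_num
  | succ r ih =>
    intro k c hk hc
    obtain ⟨k, rfl⟩ : ∃ k', k = k' + 1 := ⟨k - 1, by omega⟩
    have e : dec (k + 1) c = Bool.rec (motive := fun _ => List ℕ)
      (List.cons (Nat.mod c 16) (dec k (Nat.div c 16))) [] (Nat.ble c 1) := rfl
    have h0 : 16 ^ (r + 1 + 1) = 16 ^ (r + 1) * 16 := pow_succ _ _
    have h00 : 0 < 16 ^ (r + 1) := by positivity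
    have h1 : Nat.ble c 1 = false := by
      rw [Bool.eq_false_iff]
      intro h
      rw [ble_iff] at h
      omega
    rw [e, h1]
    show (dec k (c / 16))[r]? = _
    rw [ih k (c / 16) (by omega) (by rw [Nat.le_div_iff_mul_le (by omega)]; omega)]
    congr 2
    show (c / 16) >>> (4 * r) = c >>> (4 * (r + 1))
    rw [Nat.shiftRight_eq_div_pow, Nat.shiftRight_eq_div_pow, Nat.div_div_eq_div_mul]
    congr 1
    rw [show 4 * (r + 1) = 4 + 4 * r by ring, pow_add]
    norm_num

lemma dec_length_le : ∀ (j k c : ℕ), c < 2 * 16 ^ j → (dec k c).length ≤ j := by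
  intro j
  induction j with
  | zero =>
    intro k c hc
    cases k with
    | zero => exact le_refl _
    | succ k =>
      have e : dec (k + 1) c = Bool.rec (motive := fun _ => List ℕ)
        (List.cons (Nat.mod c 16) (dec k (Nat.div c 16))) [] (Nat.ble c 1) := rfl
      have h1 : Nat.ble c 1 = true := by
        rw [ble_iff]
        simp only [pow_zero] at hc
        omega
      rw [e, h1]
      simp
  | succ j ih =>
    intro k c hc
    cases k with
    | zero => exact Nat.zero_le _
    | succ k =>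
      have e : dec (k + 1) c = Bool.rec (motive := fun _ => List ℕ)
        (List.cons (Nat.mod c 16) (dec k (Nat.div c 16))) [] (Nat.ble c 1) := rfl
      cases hb : Nat.ble c 1 with
      | true =>
        rw [e, hb]
        exact Nat.zero_le _
      | false =>
        rw [e, hb]
        have h1 := ih k (c / 16) (by
          rw [Nat.div_lt_iff_lt_mul (by omega)]
          rw [pow_succ] at hc
          omega)
        show (dec k (c / 16)).length + 1 ≤ j + 1
        omega

/-! ### Entries -/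

/-- the entry of the transition -/
noncomputable def entB (R z : ℕ) : ℕ := Nat.land (Nat.shiftRight R (Nat.mul 40 z)) 1099511627775

lemma entB_nxt (R z : ℕ) : Nat.land (entB R z) 65535 = fld R (Nat.mul 40 z) 65535 := by
  unfold entB fld
  rw [show 1099511627775 = 2 ^ 40 - 1 by norm_num, show 65535 = 2 ^ 16 - 1 by norm_num,
    land_mask, land_mask, land_mask]
  exact Nat.mod_mod_of_dvd _ (pow_dvd_pow 2 (by norm_num))

lemma entB_sl (R z : ℕ) :
    Nat.shiftRight (entB R z) 16 = fld R (Nat.add (Nat.mul 40 z) 16) 16777215 := by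
  unfold entB fld
  rw [show 1099511627775 = 2 ^ 40 - 1 by norm_num, show 16777215 = 2 ^ 24 - 1 by norm_num,
    land_mask, land_mask]
  have h1 : Nat.shiftRight (Nat.shiftRight R (Nat.mul 40 z) % 2 ^ 40) 16 =
      (R >>> (40 * z) % 2 ^ 40) >>> 16 := rfl
  have h2 : Nat.shiftRight R (Nat.add (Nat.mul 40 z) 16) = R >>> (40 * z + 16) := rfl
  rw [h1, h2, Nat.shiftRight_add, Nat.shiftRight_eq_div_pow _ 16, Nat.shiftRight_eq_div_pow _ 16,
    show 2 ^ 40 = 2 ^ 16 * 2 ^ 24 by norm_num, Nat.mod_mul_right_div_self]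

lemma entB_pow (R z : ℕ) :
    Nat.land (Nat.div R (Nat.pow (32 ^ z) 8)) 1099511627775 = entB R z := by
  unfold entB
  congr 1
  show R / (32 ^ z) ^ 8 = R >>> (40 * z)
  rw [Nat.shiftRight_eq_div_pow, ← pow_mul, show 32 = 2 ^ 5 by norm_num, ← pow_mul]
  congr 2
  ring

lemma bor_iff {a b : Bool} : bor a b = true ↔ a = true ∨ b = true := by
  rw [bor_eq, Bool.or_eq_true]

lemma band_iff {a b : Bool} : band a b = true ↔ a = true ∧ b = true := by
  rw [band_eq, Bool.and_eq_true]

/-! ### The search -/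

section

variable {g : ℕ → ℕ} {n an ad p l Λ s₀ b c N : ℕ} {lam : ℕ → ℕ → ℚ} {lm : ℕ → ℕ}

/-- what is known about the next level -/
def Below (g : ℕ → ℕ) (n an ad l Λ s₀ N : ℕ) (lam : ℕ → ℕ → ℚ) (r : ℕ)
    (f : ℕ → ℕ → ℕ → Bool) : Prop :=
  ∀ i Ml M A, 0 < i → i < n → Ml.length = fld (g i) 360 255 → (∀ a ∈ Ml, a ≤ N) →
    M % 32 ^ (fld (g i) 360 255) = pk Ml → f i M A = true →
    Good (datOf n an ad g) lam l Λ s₀ r i Ml A

lemma childB_sound (hX : (datOf n an ad g).Valid p) (hN8 : N ≤ 8) {r m : ℕ}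
    {f : ℕ → ℕ → ℕ → Bool} (hf : Below g n an ad l Λ s₀ N lam r f) {i z x A : ℕ} {Ml : List ℕ}
    (hi : 0 < i) (hin : i < n) (hz : z ≤ fld (g i) 360 255)
    (hlen : Ml.length = fld (g i) 360 255) (hMl : ∀ a ∈ Ml, a ≤ N) (hx : x ≤ N)
    (h : childB an ad m f (pk Ml) A x (32 ^ z) (entB (g i) z) = true) :
    Good (datOf n an ad g) lam l Λ s₀ r ((datOf n an ad g).T.nxt i z)
      ((x :: Ml.eraseIdx z).take ((datOf n an ad g).T.nl ((datOf n an ad g).T.nxt i z)))
      ((an * A + m * (datOf n an ad g).sl i z) / ad) := by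
  have e1 : (datOf n an ad g).T.nxt i z = fld (g i) (Nat.mul 40 z) 65535 := rfl
  have e2 : (datOf n an ad g).sl i z = fld (g i) (Nat.add (Nat.mul 40 z) 16) 16777215 := rfl
  by_cases h0 : (datOf n an ad g).T.nxt i z = 0
  · rw [h0]
    exact Good.dead hX
  have hstep := hX.tab.step i hi hin z hz
  rcases hstep with h1 | ⟨h1, -, -, h4⟩
  · exact absurd h1 h0
  unfold childB at h
  rw [fc_eq, entB_nxt, entB_sl] at h
  have hMl' : ∀ a ∈ x :: Ml.eraseIdx z, a ≤ N := by
    intro a ha
    rw [List.mem_cons] at ha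
    rcases ha with ha | ha
    · rw [ha]; exact hx
    · exact hMl a (List.mem_of_mem_eraseIdx ha)
  have h32 : ∀ a ∈ x :: Ml.eraseIdx z, a < 32 := fun a ha => by
    have := hMl' a ha
    omega
  have hlen' : (datOf n an ad g).T.nl ((datOf n an ad g).T.nxt i z) ≤
      (x :: Ml.eraseIdx z).length := by
    rw [List.length_cons, List.length_eraseIdx, hlen]
    have e3 : (datOf n an ad g).T.nl i = fld (g i) 360 255 := rfl
    rw [e3] at h4
    by_cases hzz : z = fld (g i) 360 255
    · rw [if_pos hzz] at h4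
      rw [if_neg (by omega)]
      exact h4
    · rw [if_neg hzz] at h4
      rw [if_pos (by omega)]
      omega
  rw [e1] at h0 h1 hlen' ⊢
  rw [e2]
  have e3 : (datOf n an ad g).T.nl (fld (g i) (Nat.mul 40 z) 65535) =
    fld (g (fld (g i) (Nat.mul 40 z) 65535)) 360 255 := rfl
  rw [e3] at hlen' ⊢
  refine hf _ _ (mvB x (32 ^ z) (pk Ml)) _ (Nat.pos_of_ne_zero h0) h1 ?_ ?_ ?_ h
  · rw [List.length_take]
    omega
  · intro a ha
    exact hMl' a (List.mem_of_mem_take ha)
  · rw [mvB_pk x Ml (fun a ha => by have := hMl a ha; omega) z, ← pk_take _ _ h32]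

lemma natrec_succ {β : Type} (a : β) (F : ℕ → β → β) (k : ℕ) :
    Nat.rec (motive := fun _ => β) a F (k + 1) = F k (Nat.rec (motive := fun _ => β) a F k) := rfl

lemma newR_zero {m : ℕ} {f : ℕ → ℕ → ℕ → Bool} {M A Pn e : ℕ} :
    newR an ad m f M A Pn e N 0 = childB an ad m f M A N Pn e := by
  unfold newR
  rfl

lemma newR_succ {m : ℕ} {f : ℕ → ℕ → ℕ → Bool} {M A Pn e k : ℕ} :
    newR an ad m f M A Pn e N (k + 1) = band (Bool.rec (motive := fun _ => Bool) true
      (childB an ad m f M A k Pn e) (Nat.beq (posB M k Pn) Pn)) (newR an ad m f M A Pn e N k) := by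
  unfold newR
  exact natrec_succ _ _ _

lemma freeB_zero {m : ℕ} {f : ℕ → ℕ → ℕ → Bool} {M A Pn P Q : ℕ} :
    freeB an ad m f M A Pn N 0 P Q = false := by
  unfold freeB
  rfl

lemma freeB_succ {m : ℕ} {f : ℕ → ℕ → ℕ → Bool} {M A Pn k P Q : ℕ} :
    freeB an ad m f M A Pn N (k + 1) P Q =
      freeS an ad m f M A Pn N (freeB an ad m f M A Pn N k) P Q := by
  unfold freeB
  rfl

lemma newR_sound {m : ℕ} {f : ℕ → ℕ → ℕ → Bool} {A : ℕ} {Ml : List ℕ}
    (hnl : Ml.length ≤ 8) (hN8 : N ≤ 8) (hMl : ∀ a ∈ Ml, a ≤ N) {e : ℕ} (k : ℕ) (hk : k ≤ N)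
    (h : newR an ad m f (pk Ml) A (32 ^ Ml.length) e N k = true) :
      childB an ad m f (pk Ml) A N (32 ^ Ml.length) e = true ∧
      ∀ x, x < k → x ∉ Ml → childB an ad m f (pk Ml) A x (32 ^ Ml.length) e = true := by
  induction k with
  | zero =>
    rw [newR_zero] at h
    exact ⟨h, fun x hx => absurd hx (Nat.not_lt_zero x)⟩
  | succ k ih =>
    rw [newR_succ, band_iff, bool_rec_eq] at h
    obtain ⟨h1, h2⟩ := ih (by omega) h.2
    refine ⟨h1, fun x hx hxM => ?_⟩
    rcases Nat.lt_or_ge x k with h3 | h3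
    · exact h2 x h3 hxM
    · have hxk : x = k := by omega
      subst hxk
      have h4 := h.1
      rw [posB_eq Ml hnl (fun a ha => by have := hMl a ha; omega) x (by omega),
        List.idxOf_eq_length hxM, if_pos (beq_iff.2 rfl)] at h4
      exact h4

/-- the letters `z, z + 1, …` -/
lemma freeB_sound {m : ℕ} {f : ℕ → ℕ → ℕ → Bool} {i A : ℕ} {Ml : List ℕ}
    (hMl : ∀ a ∈ Ml, a < 32) :
    ∀ (k z Q : ℕ), Q = Nat.shiftRight (g i) (Nat.mul 40 z) → z ≤ fld (g i) 360 255 →
      freeB an ad m f (pk Ml) A (32 ^ fld (g i) 360 255) N k (32 ^ z) Q = true →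
      (∀ z' x, z ≤ z' → z' < fld (g i) 360 255 → Ml[z']? = some x →
        entB (g i) z' = 0 ∨ childB an ad m f (pk Ml) A x (32 ^ z') (entB (g i) z') = true) ∧
      (entB (g i) (fld (g i) 360 255) = 0 ∨
        newR an ad m f (pk Ml) A (32 ^ fld (g i) 360 255) (entB (g i) (fld (g i) 360 255)) N N =
          true) := by
  intro k
  induction k with
  | zero =>
    intro z Q _ _ h
    rw [freeB_zero] at h
    simp at h
  | succ k ih =>
    intro z Q hQ hz h
    have h1 := h
    rw [freeB_succ] at h1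
    unfold freeS at h1
    have hent : Nat.land Q 1099511627775 = entB (g i) z := by rw [hQ]; rfl
    rw [hent, bool_rec_eq] at h1
    by_cases hzz : z = fld (g i) 360 255
    · rw [if_pos (by rw [beq_iff, hzz]), bor_iff, beq_iff] at h1
      refine ⟨fun z' x h2 h3 => by omega, ?_⟩
      rw [hzz] at h1
      exact h1
    · rw [if_neg (by
        rw [beq_iff]
        intro h2
        exact hzz (Nat.pow_right_injective (le_refl 2 |>.trans (by norm_num)) h2)), band_iff,
        bor_iff, beq_iff] at h1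
      have e1 : Nat.mul (32 ^ z) 32 = 32 ^ (z + 1) := (pow_succ 32 z).symm
      have e2 : Nat.shiftRight Q 40 = Nat.shiftRight (g i) (Nat.mul 40 (z + 1)) := by
        rw [hQ]
        show (g i) >>> (40 * z) >>> 40 = (g i) >>> (40 * (z + 1))
        rw [← Nat.shiftRight_add]
        congr 1
      rw [e1] at h1
      obtain ⟨h2, h3⟩ := ih (z + 1) _ e2 (by omega) h1.2
      refine ⟨fun z' x h4 h5 h6 => ?_, h3⟩
      rcases Nat.lt_or_ge z z' with h7 | h7
      · exact h2 z' x h7 h5 h6
      · obtain rfl : z' = z := by omega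
        rw [pk_digit Ml hMl z' x h6] at h1
        exact h1.1

lemma entB_zero {i z : ℕ} (h : entB (g i) z = 0) : (datOf n an ad g).T.nxt i z = 0 := by
  have h1 := entB_nxt (g i) z
  rw [h] at h1
  exact h1.symm

lemma expB_sound (hX : (datOf n an ad g).Valid p) (hΛ : 0 < Λ)
    (hlm : Low lam l Λ lm l 1)
    (hs₀ : 0 < s₀) (hc : c = fld (g s₀) 384 18446744073709551615) (hN : N = fld (g s₀) 360 255)
    (hN8 : N ≤ 8) (hN15 : ∀ i, 0 < i → i < n → fld (g i) 360 255 ≤ 8) (hs₀n : s₀ < n) {r : ℕ}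
    (hr : r < l) (hr16 : r < 16) {f : ℕ → ℕ → ℕ → Bool}
    (hf : Below g n an ad l Λ s₀ N lam r f) {i A : ℕ} {Ml : List ℕ}
    (hi : 0 < i) (hin : i < n)
    (hlen : Ml.length = fld (g i) 360 255) (hMl : ∀ a ∈ Ml, a ≤ N)
    (h : expB an ad c N (lm (l - r)) (4 * r) (16 ^ (r + 1)) f (g i) (32 ^ fld (g i) 360 255)
      (pk Ml) A = true) :
    Good (datOf n an ad g) lam l Λ s₀ (r + 1) i Ml A := by
  have hnl := hN15 i hi hin
  unfold expB at h
  rw [bool_rec_eq] at h
  have hA' : ∀ z, (datOf n an ad g).αd *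
      ((an * A + lm (l - r) * (datOf n an ad g).sl i z) / ad) ≤
      (datOf n an ad g).αn * A + lm (l - r) * (datOf n an ad g).sl i z := by
    intro z
    exact Nat.mul_div_le _ _
  by_cases hcw : 16 ^ (r + 1) ≤ c
  · -- forced
    rw [if_pos (ble_iff.2 hcw)] at h
    have hget := dec_get r 16 c hr16 hcw
    set x := Nat.land (Nat.shiftRight c (4 * r)) 15 with hx
    have hstr : ((datOf n an ad g).T.str s₀)[r]? = some x := by
      have e : (datOf n an ad g).T.str s₀ = dec 16 c := by rw [hc]; rfl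
      rw [e]
      exact hget
    have hxN : x < N := by
      have h1 := hX.tab.lt_nl s₀ hs₀ hs₀n x (List.mem_of_getElem? hstr)
      rw [hN]
      exact h1
    have hpos : posB (pk Ml) x (32 ^ fld (g i) 360 255) = 32 ^ Ml.idxOf x := by
      rw [← hlen]
      exact posB_eq Ml (by omega) (fun a ha => by have := hMl a ha; omega) x (by omega)
    unfold forceB at h
    rw [hpos, entB_pow] at h
    have hidx : Ml.idxOf x ≤ fld (g i) 360 255 := by
      rw [← hlen]
      exact List.idxOf_le_length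
    have h2 := childB_sound hX hN8 hf hi hin hidx hlen hMl (by omega) h
    exact Good.forced hX hΛ hlm (by omega) hr hstr rfl (hA' _) h2
  · rw [if_neg (fun h => hcw (ble_iff.1 h))] at h
    have h1 := freeB_sound (fun a ha => by have := hMl a ha; omega) 9 0 (g i) (by
      show g i = (g i) >>> (40 * 0)
      rw [Nat.mul_zero, Nat.shiftRight_zero]) (Nat.zero_le _) h
    obtain ⟨h2, h3⟩ := h1
    apply Good.free hX hΛ hlm (by omega) hr hA'
    · intro z x hz hx
      rcases h2 z x (Nat.zero_le _) hz hx with h4 | h4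
      · rw [entB_zero h4]
        exact Good.dead hX
      · refine childB_sound hX hN8 hf hi hin ?_ hlen hMl ?_ h4
        · exact le_of_lt hz
        · exact hMl x (List.mem_of_getElem? hx)
    · intro x hxN hxM
      have e4 : (datOf n an ad g).T.nl i = fld (g i) 360 255 := rfl
      have e5 : (datOf n an ad g).T.nl s₀ = N := by rw [hN]; rfl
      rw [e5] at hxN hxM
      rw [e4]
      rcases h3 with h4 | h4
      · rw [entB_zero h4]
        exact Good.dead hX
      · rw [← hlen] at h4
        have h5 := newR_sound (by omega) hN8 hMl N le_rfl h4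
        rw [hlen] at h5
        have h6 : childB an ad (lm (l - r)) f (pk Ml) A x (32 ^ fld (g i) 360 255)
            (entB (g i) (fld (g i) 360 255)) = true := by
          rcases Nat.lt_or_ge x N with h7 | h7
          · exact h5.2 x h7 (hxM h7)
          · obtain rfl : x = N := by omega
            exact h5.1
        have h7 := childB_sound hX hN8 hf hi hin le_rfl hlen hMl hxN h6
        rw [List.eraseIdx_of_length_le (by omega)] at h7
        exact h7

theorem goB_sound (hX : (datOf n an ad g).Valid p) (hΛ : 0 < Λ) (hc1 : 1 ≤ c)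
    (hlm : Low lam l Λ lm l 1)
    (hs₀ : 0 < s₀) (hc : c = fld (g s₀) 384 18446744073709551615) (hN : N = fld (g s₀) 360 255)
    (hN8 : N ≤ 8) (hN15 : ∀ i, 0 < i → i < n → fld (g i) 360 255 ≤ 8) (hs₀n : s₀ < n)
    (hl16 : l ≤ 16)
    (hprune : ∀ r, r ≤ l → ∀ i M A, 0 < i → i < n → fld (g i) (448 + 20 * (b + r)) 1048575 ≤ A →
      Good (datOf n an ad g) lam l Λ s₀ r i M A) :
    ∀ r, r ≤ l → Below g n an ad l Λ s₀ N lam r (goB g an ad c N (mkLv b l lm r)) := by
  intro r
  induction r with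
  | zero =>
    intro _ i Ml M A hi hin hlen hMl hM h
    have h1 : bor (Nat.ble (Nat.land (Nat.shiftRight (g i) (448 + 20 * b)) 1048575) A)
      (expB an ad c N 0 0 1 (goB g an ad c N .nil) (g i)
        (Nat.shiftLeft 1 (Nat.mul 5 (Nat.land (Nat.shiftRight (g i) 360) 255)))
        (Nat.mod M (Nat.shiftLeft 1 (Nat.mul 5 (Nat.land (Nat.shiftRight (g i) 360) 255)))) A) =
        true := h
    rw [bor_iff] at h1
    rcases h1 with h1 | h1
    · rw [ble_iff] at h1
      exact hprune 0 (Nat.zero_le _) i Ml A hi hin h1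
    · -- the search cannot continue
      exfalso
      have hfalse : ∀ (M A x P e : ℕ), childB an ad 0 (goB g an ad c N .nil) M A x P e = false :=
        fun _ _ _ _ _ => rfl
      unfold expB at h1
      rw [bool_rec_eq] at h1
      rw [if_pos (ble_iff.2 hc1)] at h1
      unfold forceB at h1
      rw [hfalse] at h1
      simp at h1
  | succ r ih =>
    intro hr i Ml M A hi hin hlen hMl hM h
    have h1 : bor (Nat.ble (Nat.land (Nat.shiftRight (g i) (448 + 20 * (b + (r + 1)))) 1048575) A)
      (expB an ad c N (lm (l - r)) (4 * r) (16 ^ (r + 1)) (goB g an ad c N (mkLv b l lm r)) (g i)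
        (Nat.shiftLeft 1 (Nat.mul 5 (Nat.land (Nat.shiftRight (g i) 360) 255)))
        (Nat.mod M (Nat.shiftLeft 1 (Nat.mul 5 (Nat.land (Nat.shiftRight (g i) 360) 255)))) A) =
        true := h
    rw [bor_iff] at h1
    rcases h1 with h1 | h1
    · rw [ble_iff] at h1
      exact hprune (r + 1) hr i Ml A hi hin h1
    · have e1 : Nat.shiftLeft 1 (Nat.mul 5 (Nat.land (Nat.shiftRight (g i) 360) 255)) =
          32 ^ fld (g i) 360 255 := by
        show 1 <<< (5 * fld (g i) 360 255) = _
        rw [Nat.one_shiftLeft, pow_mul]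
        norm_num
      rw [e1] at h1
      have e2 : Nat.mod M (32 ^ fld (g i) 360 255) = pk Ml := hM
      rw [e2] at h1
      exact expB_sound hX hΛ hlm hs₀ hc hN hN8 hN15 hs₀n (by omega) (by omega)
        (ih (by omega)) hi hin hlen hMl h1

/-- **Soundness of the check of a start state.** -/
theorem startB_sound {j : ℕ} (hX : (datOf n an ad g).Valid (j + 1)) (hΛ : 0 < Λ)
    (hlm : Low lam l Λ lm l 1)
    (hN15 : ∀ i, 0 < i → i < n → fld (g i) 360 255 ≤ 8) (hl16 : l ≤ 16)
    (hprune : ∀ r, r ≤ l → ∀ s₀ i M A, 0 < i → i < n →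
      fld (g i) (448 + 20 * (b + r)) 1048575 ≤ A → Good (datOf n an ad g) lam l Λ s₀ r i M A)
    {i : ℕ} (hi : 0 < i) (hin : i < n) (hstr : j + 1 ≤ ((datOf n an ad g).T.str i).length)
    (h : startB g an ad (2 * 16 ^ j) (448 + 20 * (b + l)) (mkLv b l lm l) i = true) :
    Good (datOf n an ad g) lam l Λ i l i (List.range ((datOf n an ad g).T.nl i)) 0 := by
  unfold startB at h
  rw [bor_iff, bor_iff, beq_iff, ble_iff, fc_eq, fc_eq] at h
  have e0 : (datOf n an ad g).T.nl i = fld (g i) 360 255 := rfl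
  rw [e0]
  rcases h with h | h | h
  · exact hprune l le_rfl i i _ 0 hi hin (le_of_eq h)
  · exfalso
    have e : (datOf n an ad g).T.str i = dec 16 (fld (g i) 384 18446744073709551615) := rfl
    rw [e] at hstr
    have h1 := dec_length_le j 16 (fld (g i) 384 18446744073709551615) h
    omega
  · set N := fld (g i) 360 255 with hN
    set c := fld (g i) 384 18446744073709551615 with hc
    have hN8 : N ≤ 8 := hN15 i hi hin
    have hc1 : 1 ≤ c := by
      by_contra hc0
      have e : (datOf n an ad g).T.str i = dec 16 c := rfl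
      have h1 := dec_length_le 0 16 c (by omega)
      rw [e] at hstr
      omega
    have hgo := goB_sound (b := b) hX hΛ hc1 hlm hi hc hN hN8 hN15 hin hl16
      (fun r hr i' M A h1 h2 h3 => hprune r hr i i' M A h1 h2 h3) l le_rfl
    have e1 : Nat.shiftLeft 1 (Nat.mul 5 N) = 32 ^ N := by
      show 1 <<< (5 * N) = _
      rw [Nat.one_shiftLeft, pow_mul]
      norm_num
    have h2 : goB g an ad c N (mkLv b l lm l) i
        (Nat.mod 0x8398a418820 (Nat.shiftLeft 1 (Nat.mul 5 N))) 0 = true := h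
    rw [e1] at h2
    refine hgo i (List.range N) _ 0 hi hin (by rw [List.length_range]) ?_ ?_ h2
    · intro a ha
      rw [List.mem_range] at ha
      omega
    · rw [pk_range N hN8]
      exact Nat.mod_mod _ _

end

end Pool.Agent.Lib.MP35b3f5
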