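import Pool.Agent.Lib.MP_35b3f5_co.Lv8

/-!
# The search for the period 10 (kernel computation)
-/

set_option autoImplicit false

namespace Pool.Agent.Lib.MP35b3f5

/-- the check of one start state for the period 10 -/
noncomputable def chk10 (i : ℕ) : Bool := fc i (startB g8 7 6 536870912 848 lv10)

theorem dfs10_0 : ∀ i, 1 ≤ i → i < 515 → chk10 i = true :=
  range_of (a := 1) (k := 514) (by decide +kernel)

theorem dfs10_1 : ∀ i, 515 ≤ i → i < 782 → chk10 i = true :=
  range_of (a := 515) (k := 267) (by decide +kernel)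

theorem dfs10_2 : ∀ i, 782 ≤ i → i < 1403 → chk10 i = true :=
  range_of (a := 782) (k := 621) (by decide +kernel)

theorem dfs10_3 : ∀ i, 1403 ≤ i → i < 4667 → chk10 i = true :=
  range_of (a := 1403) (k := 3264) (by decide +kernel)

theorem dfs10 : ∀ i, 1 ≤ i → i < 4667 → chk10 i = true :=
  range_glue (range_glue (range_glue dfs10_0 dfs10_1) dfs10_2) dfs10_3

end Pool.Agent.Lib.MP35b3f5
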