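import Pool.Agent.Lib.MP_35b3f5_co.Lv8

/-!
# The search for the period 11 (kernel computation)
-/

set_option autoImplicit false

namespace Pool.Agent.Lib.MP35b3f5

/-- the check of one start state for the period 11 -/
noncomputable def chk11 (i : ℕ) : Bool := fc i (startB g8 7 6 536870912 1088 lv11)

theorem dfs11_0 : ∀ i, 1 ≤ i → i < 574 → chk11 i = true :=
  range_of (a := 1) (k := 573) (by decide +kernel)

theorem dfs11_1 : ∀ i, 574 ≤ i → i < 907 → chk11 i = true :=
  range_of (a := 574) (k := 333) (by decide +kernel)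

theorem dfs11_2 : ∀ i, 907 ≤ i → i < 1495 → chk11 i = true :=
  range_of (a := 907) (k := 588) (by decide +kernel)

theorem dfs11_3 : ∀ i, 1495 ≤ i → i < 4032 → chk11 i = true :=
  range_of (a := 1495) (k := 2537) (by decide +kernel)

theorem dfs11_4 : ∀ i, 4032 ≤ i → i < 4667 → chk11 i = true :=
  range_of (a := 4032) (k := 635) (by decide +kernel)

theorem dfs11 : ∀ i, 1 ≤ i → i < 4667 → chk11 i = true :=
  range_glue (range_glue (range_glue (range_glue dfs11_0 dfs11_1) dfs11_2) dfs11_3) dfs11_4

end Pool.Agent.Lib.MP35b3f5
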