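import Pool.Agent.Lib.MP_35b3f5_co.Lv8

/-!
# The search for the period 13 (kernel computation)
-/

set_option autoImplicit false

namespace Pool.Agent.Lib.MP35b3f5

/-- the check of one start state for the period 13 -/
noncomputable def chk13 (i : ℕ) : Bool := fc i (startB g8 7 6 536870912 1628 lv13)

theorem dfs13_0 : ∀ i, 1 ≤ i → i < 3821 → chk13 i = true :=
  range_of (a := 1) (k := 3820) (by decide +kernel)

theorem dfs13_1 : ∀ i, 3821 ≤ i → i < 4667 → chk13 i = true :=
  range_of (a := 3821) (k := 846) (by decide +kernel)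

theorem dfs13 : ∀ i, 1 ≤ i → i < 4667 → chk13 i = true :=
  range_glue dfs13_0 dfs13_1

end Pool.Agent.Lib.MP35b3f5
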