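import Pool.Agent.Lib.MP_35b3f5_co.Lv8

/-!
# The search for the period 9 (kernel computation)
-/

set_option autoImplicit false

namespace Pool.Agent.Lib.MP35b3f5

/-- the check of one start state for the period 9 -/
noncomputable def chk9 (i : ℕ) : Bool := fc i (startB g8 7 6 536870912 628 lv9)

theorem dfs9_0 : ∀ i, 1 ≤ i → i < 2828 → chk9 i = true :=
  range_of (a := 1) (k := 2827) (by decide +kernel)

theorem dfs9_1 : ∀ i, 2828 ≤ i → i < 4667 → chk9 i = true :=
  range_of (a := 2828) (k := 1839) (by decide +kernel)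

theorem dfs9 : ∀ i, 1 ≤ i → i < 4667 → chk9 i = true :=
  range_glue dfs9_0 dfs9_1

end Pool.Agent.Lib.MP35b3f5
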