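import Pool.Agent.Lib.MP_35b3f5_co.Rec

/-!
# The search through the closed walks (kernel code)

Marks are packed in base 32; a position `z` is given as `P = 32 ^ z`. `c` is the code of the
string of the start state (base 16, last letter lowest, top digit `1`).
-/

set_option autoImplicit false

namespace Pool.Agent.Lib.MP35b3f5

/-- the levels `r = l, l - 1, …, 0`: offset `o` of the bound, share `m` of the next step,
`s = 4 * (r - 1)`, `w = 16 ^ r` -/
inductive Lv where
  | nil : Lv
  | cons (o m s w : ℕ) (t : Lv) : Lv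

/-- the digits equal to `x`, marked with `16`; `Pn` is the position of the end of `M` -/
noncomputable def eqD (M x Pn : ℕ) : ℕ :=
  Nat.sub 0x108421084210
    (Nat.land (Nat.add (Nat.xor (Nat.add M (Nat.mul x Pn)) (Nat.mul x 0x10842108421))
      0xf7bdef7bdef) 0x108421084210)

/-- the position of the lowest marked digit -/
noncomputable def lowD (t : ℕ) : ℕ := Nat.div (Nat.succ (Nat.xor t (Nat.sub t 1))) 32

/-- the position of the mark `x` in the marks `M` (`Pn` if there is no such mark) -/
noncomputable def posB (M x Pn : ℕ) : ℕ := lowD (eqD M x Pn)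

/-- put `x` in front, without the mark at the position `P` -/
noncomputable def mvB (x P M : ℕ) : ℕ :=
  Nat.add (Nat.add x (Nat.mul 32 (Nat.mod M P))) (Nat.sub M (Nat.mod M (Nat.mul 32 P)))

/-- a child: `e` is the entry, `x` the mark, `P` the position -/
noncomputable def childB (an ad m : ℕ) (ih : ℕ → ℕ → ℕ → Bool) (M A x P e : ℕ) : Bool :=
  fc (Nat.land e 65535) (fun i' => ih i' (mvB x P M)
    (Nat.div (Nat.add (Nat.mul an A) (Nat.mul m (Nat.shiftRight e 16))) ad))

/-- the mark `N` and the marks `< k` of a new letter -/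
noncomputable def newR (an ad m : ℕ) (ih : ℕ → ℕ → ℕ → Bool) (M A Pn e N k : ℕ) : Bool :=
  Nat.rec (motive := fun _ => Bool) (childB an ad m ih M A N Pn e) (fun x r =>
    band (Bool.rec (motive := fun _ => Bool) true
      (childB an ad m ih M A x Pn e) (Nat.beq (posB M x Pn) Pn)) r) k

/-- the letter at the position `P` with the entries `Q`, then the next ones (`r`) -/
noncomputable def freeS (an ad m : ℕ) (ih : ℕ → ℕ → ℕ → Bool) (M A Pn N : ℕ)
    (r : ℕ → ℕ → Bool) (P Q : ℕ) : Bool :=
  Bool.rec (motive := fun _ => Bool)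
    (band (bor (Nat.beq (Nat.land Q 1099511627775) 0)
        (childB an ad m ih M A (Nat.land (Nat.div M P) 31) P
          (Nat.land Q 1099511627775)))
      (r (Nat.mul P 32) (Nat.shiftRight Q 40)))
    (bor (Nat.beq (Nat.land Q 1099511627775) 0)
      (newR an ad m ih M A Pn (Nat.land Q 1099511627775) N N)) (Nat.beq P Pn)

/-- all letters: old letters, then the new letter -/
noncomputable def freeB (an ad m : ℕ) (ih : ℕ → ℕ → ℕ → Bool)
    (M A Pn N : ℕ) (fuel : ℕ) : ℕ → ℕ → Bool :=
  Nat.rec (motive := fun _ => ℕ → ℕ → Bool) (fun _ _ => false)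
    (fun _ r => freeS an ad m ih M A Pn N r) fuel

/-- forced step: `x` is the mark of the letter and `P` its position -/
noncomputable def forceB (an ad m : ℕ) (ih : ℕ → ℕ → ℕ → Bool) (R M A x P : ℕ) : Bool :=
  childB an ad m ih M A x P (Nat.land (Nat.div R (Nat.pow P 8)) 1099511627775)

/-- expansion of a node -/
noncomputable def expB (an ad c N m s w : ℕ) (ih : ℕ → ℕ → ℕ → Bool) (R Pn M A : ℕ) : Bool :=
  Bool.rec (motive := fun _ => Bool) (freeB an ad m ih M A Pn N 9 1 R)
    (forceB an ad m ih R M A (Nat.land (Nat.shiftRight c s) 15)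
      (posB M (Nat.land (Nat.shiftRight c s) 15) Pn)) (Nat.ble w c)

/-- the search -/
noncomputable def goB (g : ℕ → ℕ) (an ad c N : ℕ) (lv : Lv) : ℕ → ℕ → ℕ → Bool :=
  Lv.rec (motive := fun _ => ℕ → ℕ → ℕ → Bool) (fun _ _ _ => false)
    (fun o m s w _ ih i M A =>
      bor (Nat.ble (Nat.land (Nat.shiftRight (g i) o) 1048575) A)
        (expB an ad c N m s w ih (g i)
          (Nat.shiftLeft 1 (Nat.mul 5 (Nat.land (Nat.shiftRight (g i) 360) 255)))
          (Nat.mod M (Nat.shiftLeft 1 (Nat.mul 5 (Nat.land (Nat.shiftRight (g i) 360) 255)))) A)) lv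

/-- the check of the start state `i`; `c0 = 16 ^ p`, `o` the offset of the first bound -/
noncomputable def startB (g : ℕ → ℕ) (an ad c0 o : ℕ) (lv : Lv) (i : ℕ) : Bool :=
  bor (Nat.beq (Nat.land (Nat.shiftRight (g i) o) 1048575) 0)
    (bor (Nat.ble (Nat.succ (Nat.land (Nat.shiftRight (g i) 384) 18446744073709551615)) c0)
      (fc (Nat.land (Nat.shiftRight (g i) 384) 18446744073709551615) (fun c =>
        fc (Nat.land (Nat.shiftRight (g i) 360) 255) (fun N =>
          goB g an ad c N lv i
            (Nat.mod 0x8398a418820 (Nat.shiftLeft 1 (Nat.mul 5 N))) 0))))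

end Pool.Agent.Lib.MP35b3f5
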