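import Pool.Agent.Lib.MP_35b3f5_co.U8
import Pool.Agent.Lib.MP_35b3f5_co.Dfs9
import Pool.Agent.Lib.MP_35b3f5_co.Dfs10
import Pool.Agent.Lib.MP_35b3f5_co.Dfs11
import Pool.Agent.Lib.MP_35b3f5_co.Dfs12
import Pool.Agent.Lib.MP_35b3f5_co.Dfs13
import Pool.Agent.Lib.MP_35b3f5_co.Dfs14

/-!
# Part (A): no token survives
-/

set_option autoImplicit false

namespace Pool.Agent.Lib.MP35b3f5

/-! ### The bounds -/

lemma uBase_sound {g : ℕ → ℕ} {i : ℕ} : ∀ {L : List ℕ}, uBase g i L = true → ∀ o ∈ L,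
    512 * fld (g i) 368 65535 ≤ fld (g i) o 1048575
  | [], _, o, ho => by simp at ho
  | a :: L, h, o, ho => by
    have h1 : band (Nat.ble (Nat.mul 512 (fld (g i) 368 65535)) (fld (g i) a 1048575))
      (uBase g i L) = true := h
    rw [band_eq, Bool.and_eq_true, ble_iff] at h1
    rw [List.mem_cons] at ho
    rcases ho with rfl | ho
    · exact h1.1
    · exact uBase_sound h1.2 o ho

lemma uOpen_sound {g : ℕ → ℕ} {i : ℕ} : ∀ {L : List ℕ}, uOpen g i L = true → ∀ o ∈ L,
    25088 ≤ fld (g i) o 1048575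
  | [], _, o, ho => by simp at ho
  | a :: L, h, o, ho => by
    have h1 : band (Nat.ble 25088 (fld (g i) a 1048575)) (uOpen g i L) = true := h
    rw [band_eq, Bool.and_eq_true, ble_iff] at h1
    rw [List.mem_cons] at ho
    rcases ho with rfl | ho
    · exact h1.1
    · exact uOpen_sound h1.2 o ho

lemma uTop_sound {g : ℕ → ℕ} {i : ℕ} : ∀ {L : List ℕ}, uTop g i L = true → ∀ o ∈ L,
    fld (g i) o 1048575 = 0
  | [], _, o, ho => by simp at ho
  | a :: L, h, o, ho => by
    have h1 : band (Nat.beq (fld (g i) a 1048575) 0) (uTop g i L) = true := h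
    rw [band_eq, Bool.and_eq_true, beq_iff] at h1
    rw [List.mem_cons] at ho
    rcases ho with rfl | ho
    · exact h1.1
    · exact uTop_sound h1.2 o ho

lemma KG8_eq : KG8 = K8 + G8 := by decide +kernel

lemma small8 : ∀ k, k < 145 → 7 * 2 ^ 15 + 255 * dg LM8 k + dg K8 k < 2 ^ 19 := by
  decide +kernel

/-- all facts about the records -/
lemma facts {i : ℕ} (hi : 0 < i) (hin : i < 4667) :
    uState g8 LM8 G8 KG8 MA8 i = true ∧ fld (g8 i) 368 65535 ≤ 49 ∧
    uBase g8 i [448, 648, 868, 1108, 1368, 1648] = true ∧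
    uOpen g8 i [1948, 2268, 2608, 2968] = true ∧ uTop g8 i [2248, 2588, 2948, 3328] = true := by
  have h := uChk_all i hi hin
  unfold uChk at h
  rw [fc_eq, band_eq, Bool.and_eq_true, band_eq, Bool.and_eq_true, band_eq, Bool.and_eq_true,
    band_eq, Bool.and_eq_true, ble_iff] at h
  exact h

lemma nl_le {i : ℕ} (hi : 0 < i) (hin : i < 4667) : fld (g8 i) 360 255 ≤ 8 :=
  (uState_sound rep_G8 KG8_eq rep_MA8 small8 (facts hi hin).1).1

lemma bounds (hX : dat8.Valid 8) {l b : ℕ} (hb : b + l < 145)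
    (hK : ∀ ρ, ρ < l → dg K8 (b + ρ) = 0 ∧ dg LM8 (b + ρ) ≤ lamN8 l (l - ρ)) :
    ∀ ρ, ρ < l → ∀ i, 0 < i → i < dat8.T.n → ∀ z, z ≤ dat8.T.nl i → dat8.T.nxt i z ≠ 0 →
      dat8.αd * fld (g8 (dat8.T.nxt i z)) (448 + 20 * (b + ρ)) 1048575 ≤
        dat8.αn * fld (g8 i) (448 + 20 * (b + (ρ + 1))) 1048575 +
          lamN8 l (l - ρ) * dat8.sl i z := by
  intro ρ hρ i hi hin z hz hne
  have hj : dat8.T.nxt i z < 4667 := by
    rcases hX.tab.step i hi hin z hz with h | ⟨h, -⟩
    · exact absurd h hne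
    · exact h
  have h1 := uState_sound rep_G8 KG8_eq rep_MA8 small8 (facts (Nat.pos_of_ne_zero hne) hj).1
  have h2 := uState_sound rep_G8 KG8_eq rep_MA8 small8 (facts hi hin).1
  have h3 := h2.2.2 z hz hne h1.2.1 (b + ρ) (by omega)
  obtain ⟨h4, h5⟩ := hK ρ hρ
  rw [h4] at h3
  have e1 : dat8.sl i z = fld (g8 i) (Nat.add (Nat.mul 40 z) 16) 16777215 := rfl
  have e2 : dat8.T.nxt i z = fld (g8 i) (Nat.mul 40 z) 65535 := rfl
  have e3 : dat8.αd = 6 := rfl
  have e4 : dat8.αn = 7 := rfl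
  rw [e1, e2, e3, e4]
  have h6 : fld (g8 i) (Nat.add (Nat.mul 40 z) 16) 16777215 * dg LM8 (b + ρ) ≤
      lamN8 l (l - ρ) * fld (g8 i) (Nat.add (Nat.mul 40 z) 16) 16777215 := by
    rw [Nat.mul_comm]
    exact Nat.mul_le_mul_right _ h5
  rw [show b + (ρ + 1) = b + ρ + 1 by ring]
  omega

/-- the shares up to the period 18 -/
lemma low_le {l : ℕ} (hl : l ≤ 18) : Low lam8 l 512 (lamN8 l) l 1 := by
  intro j _ _
  unfold lam8 lamQ
  rw [if_pos hl, one_mul]
  push_cast
  have : (512 : ℚ) * ((lamN8 l j : ℚ) / 512) = lamN8 l j := by ring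
  rw [this]

/-- closed walks -/
theorem closed8 (hX : dat8.Valid 8) {l b : ℕ} (hl : 8 ≤ l) (hl16 : l ≤ 16) (hb : b + l < 145)
    (hK : ∀ ρ, ρ < l → dg K8 (b + ρ) = 0 ∧ dg LM8 (b + ρ) ≤ lamN8 l (l - ρ))
    (h0 : 448 + 20 * b ∈ [448, 648, 868, 1108, 1368, 1648])
    (hs : ∀ i, 1 ≤ i → i < 4667 →
      startB g8 7 6 536870912 (448 + 20 * (b + l)) (mkLv b l (lamN8 l) l) i = true)
    {w : List ℕ} (hw : l ≤ w.length) (hm : mt l w = 0) :
    GG dat8.α dat8.C (dat8.D lam8) l l w = 0 := by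
  have hlow := low_le (l := l) (by omega)
  refine Good.final (Λ := 512) hX (by norm_num) hl ?_ hw hm
  intro i hi hin hstr
  refine startB_sound (n := 4667) (an := 7) (ad := 6) (j := 7) (b := b) hX (by norm_num) hlow
    (fun i hi hin => nl_le hi hin) hl16 ?_ hi hin hstr ?_
  · intro r hr s₀ i M A hi hin hA
    refine Good.ofOpen (X := dat8) (p := 8) hX lam8_nonneg (by norm_num) hlow
      (U := fun ρ i => fld (g8 i) (448 + 20 * (b + ρ)) 1048575) ?_ ?_ hr hA
    · intro i hi hin
      exact uBase_sound (facts hi hin).2.2.1 _ h0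
    · exact bounds hX hb hK
  · exact hs i hi hin

/-- open walks -/
theorem open8 (hX : dat8.Valid 8) {l L b : ℕ} (hL : L ≤ l) (hb : b + L < 145)
    (hlow : Low lam8 l 512 (lamN8 L) L ((dat8.α⁻¹) ^ (l - L)))
    (hK : ∀ ρ, ρ < L → dg K8 (b + ρ) = 0 ∧ dg LM8 (b + ρ) ≤ lamN8 L (L - ρ))
    (h0 : 448 + 20 * b ∈ [1948, 2268, 2608, 2968])
    (h1 : 448 + 20 * (b + L) ∈ [2248, 2588, 2948, 3328])
    {w : List ℕ} (hw : l ≤ w.length) (hm : mt l w = 0) :
    GG dat8.α dat8.C (dat8.D lam8) l l w = 0 := by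
  refine open_final (Λ := 512) hX lam8_nonneg (by norm_num) hL (cmax := 49)
    (U := fun ρ i => fld (g8 i) (448 + 20 * (b + ρ)) 1048575) ?_ ?_ hlow ?_ ?_ hw hm
  · intro i hi hin
    exact (facts hi hin).2.1
  · intro i hi hin
    exact uOpen_sound (facts hi hin).2.2.2.1 _ h0
  · exact bounds hX hb hK
  · intro i hi hin
    exact uTop_sound (facts hi hin).2.2.2.2 _ h1

/-- **Part (A)** for the parameters `dat8`, `lam8`. -/
theorem hA8 (hX : dat8.Valid 8) : ∀ l w, 8 < l → l ≤ w.length → SF w → mt l w = 0 →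
    GG dat8.α dat8.C (dat8.D lam8) l l w = 0 := by
  intro l w hl hw _ hm
  have hα : dat8.α⁻¹ = 6 / 7 := by
    show (((7 : ℕ) : ℚ) / ((6 : ℕ) : ℚ))⁻¹ = 6 / 7
    norm_num
  rcases Nat.lt_or_ge l 18 with h18 | h18
  · interval_cases l
    · refine closed8 hX (b := 0) (by norm_num) (by norm_num) (by norm_num) (by decide +kernel)
        (by decide) ?_ hw hm
      rw [lv9_eq]
      exact dfs9
    · refine closed8 hX (b := 10) (by norm_num) (by norm_num) (by norm_num) (by decide +kernel)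
        (by decide) ?_ hw hm
      rw [lv10_eq]
      exact dfs10
    · refine closed8 hX (b := 21) (by norm_num) (by norm_num) (by norm_num) (by decide +kernel)
        (by decide) ?_ hw hm
      rw [lv11_eq]
      exact dfs11
    · refine closed8 hX (b := 33) (by norm_num) (by norm_num) (by norm_num) (by decide +kernel)
        (by decide) ?_ hw hm
      rw [lv12_eq]
      exact dfs12
    · refine closed8 hX (b := 46) (by norm_num) (by norm_num) (by norm_num) (by decide +kernel)
        (by decide) ?_ hw hm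
      rw [lv13_eq]
      exact dfs13
    · refine closed8 hX (b := 60) (by norm_num) (by norm_num) (by norm_num) (by decide +kernel)
        (by decide) ?_ hw hm
      rw [lv14_eq]
      exact dfs14
    · refine open8 hX (L := 15) (b := 75) le_rfl (by norm_num) ?_ (by decide +kernel)
        (by decide) (by decide) hw hm
      simpa using low_le (l := 15) (by norm_num)
    · refine open8 hX (L := 16) (b := 91) le_rfl (by norm_num) ?_ (by decide +kernel)
        (by decide) (by decide) hw hm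
      simpa using low_le (l := 16) (by norm_num)
    · refine open8 hX (L := 17) (b := 108) le_rfl (by norm_num) ?_ (by decide +kernel)
        (by decide) (by decide) hw hm
      simpa using low_le (l := 17) (by norm_num)
  · refine open8 hX (L := 18) (b := 126) h18 (by norm_num) ?_ (by decide +kernel)
        (by decide) (by decide) hw hm
    rcases Nat.lt_or_ge 18 l with h | h
    · intro j hj hj18
      rw [hα]
      unfold lam8 lamQ
      rw [if_neg (by omega), if_pos hj18]
      push_cast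
      have : (512 : ℚ) * ((lamN8 18 j : ℚ) / 512 * (6 / 7) ^ (l - 18)) =
          (6 / 7) ^ (l - 18) * lamN8 18 j := by ring
      rw [this]
    · obtain rfl : l = 18 := by omega
      simpa using low_le (l := 18) le_rfl

end Pool.Agent.Lib.MP35b3f5
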