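import Pool.Agent.Lib.MP_35b3f5_co.Valid8
import Pool.Agent.Lib.MP_35b3f5_co.Share8
import Pool.Agent.Lib.MP_35b3f5_co.HA8

/-!
# The theorem: square-free words from lists of size 3
-/

set_option autoImplicit false

namespace Pool.Agent.Lib.MP35b3f5

/-- For lists of size `3` there is a square-free choice. -/
theorem exists_squarefree (A : ℕ → Finset ℕ) (hA3 : ∀ n, (A n).card = 3) :
    ∃ w : ℕ → ℕ, (∀ n, w n ∈ A n) ∧
      ∀ i l : ℕ, 0 < l → ¬ (∀ k, k < l → w (i + k) = w (i + l + k)) :=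
  word_of_tab dat8 8 dat8_valid lam8 lam8_nonneg (hA8 dat8_valid)
    (fun w hw => hB8 w hw w.length) A hA3

end Pool.Agent.Lib.MP35b3f5
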