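import Pool.Agent.Lib.MP_35b3f5_co.Assembly

/-!
# The number of square-free choices

The additive potential `Phi` grows by the factor `α` when it is summed over the good one-letter
extensions of a good word; this gives a lower bound for the number of good words.
-/

set_option autoImplicit false

namespace Pool.Agent.Lib.MP35b3f5

open Finset

/-- the hypotheses of the additive potential -/
structure Hyp (α : ℚ) (p : ℕ) (C : List ℕ → ℚ) (D : ℕ → List ℕ → ℚ) : Prop where
  hα : 0 < α
  hC : ∀ w, 0 ≤ C w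
  hD : ∀ l w, 0 ≤ D l w
  hCp : ∀ w b, SF w → ∀ l, l ≤ p → EndSq l (b :: w) → C (b :: w) = 0
  hA : ∀ l w, p < l → l ≤ w.length → SF w → mt l w = 0 → G α C D l w = 0
  hB : ∀ w, SF w → ∀ b c, b ≠ c → w.head? ≠ some b → w.head? ≠ some c →
      ∑ l ∈ (Ioc p w.length).filter (fun l => pred l w = b ∨ pred l w = c), D l w ≤
        C (b :: w) + C (c :: w) - α * C w

section
variable {α : ℚ} {p : ℕ} {C : List ℕ → ℚ} {D : ℕ → List ℕ → ℚ}

/-- a good word -/
def Q (α : ℚ) (p : ℕ) (C : List ℕ → ℚ) (D : ℕ → List ℕ → ℚ) (w : List ℕ) : Prop :=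
  SF w ∧ 0 < Phi α p C D w

theorem Phi_le (hC : ∀ w, 0 ≤ C w) (w : List ℕ) : Phi α p C D w ≤ C w := by
  unfold Phi
  have := sum_nonneg (s := Ioc p w.length) (f := fun l => G α C D l w)
    (fun l _ => G_nonneg hC l w)
  linarith

/-- the value of a letter is at most the potential of the longer word -/
theorem TT_le_Phi (h : Hyp α p C D) {w : List ℕ} (hw : SF w) {b : ℕ} (hSF : SF (b :: w)) :
    TT α p C D w b ≤ Phi α p C D (b :: w) := by
  unfold TT Phi
  have hA' : ∀ l, p < l → l ≤ w.length + 1 → mt l (b :: w) = 0 → G α C D l (b :: w) = 0 :=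
    fun l hl hl' hm => h.hA l (b :: w) hl (by simpa using hl') hSF hm
  have h1 : ∑ l ∈ Ioc p (b :: w).length, G α C D l (b :: w) ≤
      ∑ l ∈ (Ioc p w.length).filter (fun l => pred l w = b), (α * G α C D l w + D l w) := by
    rw [Finset.sum_filter]
    have h2 : ∑ l ∈ Ioc p (b :: w).length, G α C D l (b :: w) =
        ∑ l ∈ Ioc p w.length, G α C D l (b :: w) := by
      simp only [List.length_cons]
      by_cases hp : p ≤ w.length
      · rw [Finset.sum_Ioc_succ_top hp, hA' (w.length + 1) (by omega) le_rfl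
          (mt_cons_length (by simp)), add_zero]
      · rw [Finset.Ioc_eq_empty (by omega), Finset.Ioc_eq_empty (by omega)]
    rw [h2]
    apply sum_le_sum
    intro l hl
    rw [mem_Ioc] at hl
    split_ifs with hb
    · exact G_step h.hα hw (by omega) hl.2 hb (Or.inr hSF)
    · rw [hA' l hl.1 (by omega)]
      rw [mt_cons (by omega) hl.2, if_neg (fun h => hb h.symm)]
  linarith

open Classical in
/-- one step: the potentials of the good extensions add up to at least `α Phi w` -/
theorem step_sum (h : Hyp α p C D) {w : List ℕ} (hQ : Q α p C D w) {A : Finset ℕ}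
    (hAc : A.card = 3) :
    α * Phi α p C D w ≤
      ∑ a ∈ A.filter (fun a => Q α p C D (a :: w)), Phi α p C D (a :: w) := by
  obtain ⟨hw, hPhi⟩ := hQ
  obtain ⟨b, hb, c, hc, hbc, hb1, hc1⟩ : ∃ b ∈ A, ∃ c ∈ A, b ≠ c ∧ w.head? ≠ some b ∧
      w.head? ≠ some c := by
    have h1 : 1 < (A.filter (fun a => w.head? ≠ some a)).card := by
      have h2 : (A.filter (fun a => ¬ (w.head? ≠ some a))).card ≤ 1 := by
        rw [Finset.card_le_one]
        intro a ha b hb
        simp only [mem_filter, not_not] at ha hb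
        have := ha.2.symm.trans hb.2
        exact Option.some.inj this
      have h3 := Finset.card_filter_add_card_filter_not (s := A)
        (fun a => w.head? ≠ some a)
      omega
    rw [Finset.one_lt_card] at h1
    obtain ⟨b, hb, c, hc, hbc⟩ := h1
    rw [mem_filter] at hb hc
    exact ⟨b, hb.1, c, hc.1, hbc, hb.2, hc.2⟩
  have h1 := TT_add (D := D) (p := p) h.hα h.hC hbc (h.hB w hw b c hbc hb1 hc1)
  have key : ∀ b, TT α p C D w b ≤
      if Q α p C D (b :: w) then Phi α p C D (b :: w) else 0 := by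
    intro b
    by_cases hT : 0 < TT α p C D w b
    · obtain ⟨h2, h3⟩ := TT_pos h.hα h.hC h.hD hw (fun l hl he => h.hCp w b hw l hl he)
        (fun l hl hl' hSF hm => h.hA l (b :: w) hl (by simpa using hl') hSF hm) hT
      rw [if_pos ⟨h2, h3⟩]
      exact TT_le_Phi h hw h2
    · split_ifs with h2
      · exact (not_lt.1 hT).trans h2.2.le
      · exact not_lt.1 hT
  rw [Finset.sum_filter]
  have hnn : ∀ a, 0 ≤ if Q α p C D (a :: w) then Phi α p C D (a :: w) else 0 := by
    intro a
    split_ifs with h2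
    · exact h2.2.le
    · exact le_rfl
  have h4 : ∑ a ∈ ({b, c} : Finset ℕ), (if Q α p C D (a :: w) then Phi α p C D (a :: w) else 0) ≤
      ∑ a ∈ A, (if Q α p C D (a :: w) then Phi α p C D (a :: w) else 0) := by
    apply sum_le_sum_of_subset_of_nonneg
    · intro a ha
      rw [mem_insert, mem_singleton] at ha
      rcases ha with rfl | rfl
      · exact hb
      · exact hc
    · intro a _ _
      exact hnn a
  rw [Finset.sum_pair hbc] at h4
  have h5 := key b
  have h6 := key c
  linarith

open Classical in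
/-- the good words of length `n` compatible with `A`, last letter first -/
noncomputable def T (α : ℚ) (p : ℕ) (C : List ℕ → ℚ) (D : ℕ → List ℕ → ℚ)
    (A : ℕ → Finset ℕ) : ℕ → Finset (List ℕ)
  | 0 => {[]}
  | n + 1 => (T α p C D A n).biUnion (fun w =>
      ((A n).filter (fun a => Q α p C D (a :: w))).image (fun a => a :: w))

theorem mem_T_succ (A : ℕ → Finset ℕ) (n : ℕ) (a : ℕ) (w : List ℕ) :
    a :: w ∈ T α p C D A (n + 1) ↔ w ∈ T α p C D A n ∧ a ∈ A n ∧ Q α p C D (a :: w) := by
  classical
  rw [T, mem_biUnion]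
  constructor
  · rintro ⟨v, hv, ha⟩
    rw [mem_image] at ha
    obtain ⟨b, hb, hab⟩ := ha
    obtain ⟨rfl, rfl⟩ := List.cons.inj hab
    rw [mem_filter] at hb
    exact ⟨hv, hb⟩
  · rintro ⟨hw, ha⟩
    exact ⟨w, hw, mem_image.2 ⟨a, mem_filter.2 ha, rfl⟩⟩

theorem exists_cons_of_mem_T (A : ℕ → Finset ℕ) (n : ℕ) (v : List ℕ)
    (hv : v ∈ T α p C D A (n + 1)) : ∃ a w, v = a :: w := by
  classical
  rw [T, mem_biUnion] at hv
  obtain ⟨w, hw, ha⟩ := hv
  rw [mem_image] at ha
  obtain ⟨b, hb, hab⟩ := ha
  exact ⟨b, w, hab.symm⟩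

theorem Q_of_mem_T (h0 : 0 < C []) (A : ℕ → Finset ℕ) : ∀ (n : ℕ) (w : List ℕ),
    w ∈ T α p C D A n → Q α p C D w ∧ w.length = n
  | 0, w, hw => by
    rw [T, mem_singleton] at hw
    subst hw
    refine ⟨⟨trivial, ?_⟩, rfl⟩
    unfold Phi
    simpa using h0
  | n + 1, v, hv => by
    obtain ⟨a, w, rfl⟩ := exists_cons_of_mem_T A n v hv
    rw [mem_T_succ] at hv
    refine ⟨hv.2.2, ?_⟩
    rw [List.length_cons, (Q_of_mem_T h0 A n w hv.1).2]

theorem sum_T_succ (A : ℕ → Finset ℕ) (n : ℕ) (F : List ℕ → ℚ) :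
    ∑ v ∈ T α p C D A (n + 1), F v = ∑ w ∈ T α p C D A n,
      ∑ a ∈ (A n).filter (fun a => @decide (Q α p C D (a :: w)) (Classical.dec _)),
        F (a :: w) := by
  classical
  rw [T, Finset.sum_biUnion]
  · refine Finset.sum_congr rfl fun w _ => ?_
    rw [Finset.sum_image (fun a _ b _ hab => (List.cons.inj hab).1)]
    refine Finset.sum_congr ?_ fun _ _ => rfl
    ext a
    simp
  · intro w _ w' _ hww'
    rw [Function.onFun, Finset.disjoint_left]
    intro v hv hv'
    rw [mem_image] at hv hv'
    obtain ⟨a, -, rfl⟩ := hv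
    obtain ⟨b, -, hb⟩ := hv'
    exact hww' (List.cons.inj hb).2.symm

theorem potential_growth (h : Hyp α p C D) (h0 : 0 < C []) {A : ℕ → Finset ℕ}
    (hA3 : ∀ n, (A n).card = 3) (n : ℕ) :
    α ^ n * C [] ≤ ∑ w ∈ T α p C D A n, Phi α p C D w := by
  induction n with
  | zero =>
    rw [T, Finset.sum_singleton]
    unfold Phi
    simp
  | succ n ih =>
    rw [sum_T_succ]
    calc α ^ (n + 1) * C [] = α * (α ^ n * C []) := by ring
      _ ≤ α * ∑ w ∈ T α p C D A n, Phi α p C D w := mul_le_mul_of_nonneg_left ih h.hα.le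
      _ = ∑ w ∈ T α p C D A n, α * Phi α p C D w := by rw [mul_sum]
      _ ≤ _ := by
        refine sum_le_sum fun w hw => ?_
        refine (step_sum h (Q_of_mem_T h0 A n w hw).1 (hA3 n)).trans (le_of_eq ?_)
        refine Finset.sum_congr ?_ fun _ _ => rfl
        ext a
        simp

theorem card_T (h : Hyp α p C D) (h0 : 0 < C []) {K : ℚ} (hK : ∀ w, C w ≤ K)
    {A : ℕ → Finset ℕ} (hA3 : ∀ n, (A n).card = 3) (n : ℕ) :
    α ^ n * C [] ≤ K * (T α p C D A n).card := by
  refine (potential_growth h h0 hA3 n).trans ?_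
  calc ∑ w ∈ T α p C D A n, Phi α p C D w ≤ ∑ _w ∈ T α p C D A n, K :=
        sum_le_sum fun w _ => (Phi_le h.hC w).trans (hK w)
    _ = K * (T α p C D A n).card := by
        rw [Finset.sum_const, nsmul_eq_mul, mul_comm]

/-- a good word has a good extension -/
theorem exists_next (h : Hyp α p C D) (h0 : 0 < C []) {A : ℕ → Finset ℕ}
    (hA3 : ∀ n, (A n).card = 3) (n : ℕ) (w : List ℕ) (hw : w ∈ T α p C D A n) :
    ∃ a, a :: w ∈ T α p C D A (n + 1) := by
  classical
  have hQ := (Q_of_mem_T h0 A n w hw).1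
  have h1 := step_sum h hQ (hA3 n)
  have h2 : 0 < α * Phi α p C D w := mul_pos h.hα hQ.2
  have h3 : ((A n).filter (fun a => Q α p C D (a :: w))).Nonempty := by
    rw [Finset.nonempty_iff_ne_empty]
    intro he
    rw [he, Finset.sum_empty] at h1
    linarith
  obtain ⟨a, ha⟩ := h3
  rw [mem_filter] at ha
  exact ⟨a, (mem_T_succ A n a w).2 ⟨hw, ha.1, ha.2⟩⟩

theorem pre_of_eq : ∀ (w : List ℕ) (v : ℕ → ℕ),
    (∀ m < w.length, v m = w.reverse.getD m 0) → pre v w.length = w
  | [], _, _ => rfl
  | a :: w, v, hv => by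
    rw [List.length_cons, pre]
    have h1 : v w.length = a := by
      rw [hv _ (by simp), List.reverse_cons, List.getD_eq_getElem?_getD,
        List.getElem?_append_right (by simp)]
      simp
    rw [h1, pre_of_eq w v]
    intro m hm
    rw [hv m (by rw [List.length_cons]; omega), List.reverse_cons, List.getD_eq_getElem?_getD,
      List.getD_eq_getElem?_getD, List.getElem?_append_left (by simpa using hm)]

/-- each good word is a prefix of an infinite square-free word -/
theorem extend (h : Hyp α p C D) (h0 : 0 < C []) {A : ℕ → Finset ℕ}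
    (hA3 : ∀ n, (A n).card = 3) (n : ℕ) (w : List ℕ) (hw : w ∈ T α p C D A n) :
    ∃ v : ℕ → ℕ, pre v n = w ∧ (∀ m, v m ∈ A m) ∧
      ∀ i l : ℕ, 0 < l → ¬ (∀ k, k < l → v (i + k) = v (i + l + k)) := by
  classical
  choose f hf using fun (k : ℕ) (w : {w : List ℕ // w ∈ T α p C D A (n + k)}) =>
    exists_next h h0 hA3 (n + k) w.1 w.2
  let s : (k : ℕ) → {w : List ℕ // w ∈ T α p C D A (n + k)} := fun k =>
    Nat.rec ⟨w, hw⟩ (fun k w => ⟨f k w :: w.1, hf k w⟩) k
  let v : ℕ → ℕ := fun m => if m < n then w.reverse.getD m 0 else f (m - n) (s (m - n))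
  have hlen : w.length = n := (Q_of_mem_T h0 A n w hw).2
  have hpre0 : pre v n = w := by
    rw [← hlen]
    apply pre_of_eq
    intro m hm
    show (if m < n then _ else _) = _
    rw [if_pos (by omega)]
  have hpre : ∀ k, pre v (n + k) = (s k).1 := by
    intro k
    induction k with
    | zero => exact hpre0
    | succ k ih =>
      show v (n + k) :: pre v (n + k) = f k (s k) :: (s k).1
      have h1 : v (n + k) = f k (s k) := by
        show (if n + k < n then _ else _) = _
        rw [if_neg (by omega)]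
        congr 1
        · omega
        · have : n + k - n = k := by omega
          rw [this]
      rw [ih, h1]
  have hdown : ∀ m, pre v (m + 1) ∈ T α p C D A (m + 1) → pre v m ∈ T α p C D A m :=
    fun m hm => ((mem_T_succ A m (v m) (pre v m)).1 hm).1
  have hall : ∀ m, pre v m ∈ T α p C D A m := by
    intro m
    have hbig : ∀ k, pre v (m + k) ∈ T α p C D A (m + k) → pre v m ∈ T α p C D A m := by
      intro k
      induction k with
      | zero => exact fun h => h
      | succ k ih => exact fun h => ih (hdown (m + k) h)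
    apply hbig n
    rw [add_comm, hpre]
    exact (s m).2
  refine ⟨v, hpre0, fun m => ((mem_T_succ A m (v m) (pre v m)).1 (hall (m + 1))).2.1, ?_⟩
  apply squarefree_of_pre
  intro m
  exact (Q_of_mem_T h0 A m _ (hall m)).1.1

end

/-- **Assembly**: a valid table and good shares give the hypotheses of the potential. -/
theorem hyp_of_tab (X : Dat) (p : ℕ) (hX : X.Valid p) (lam : ℕ → ℕ → ℚ)
    (hlam : ∀ l j, 0 ≤ lam l j)
    (hA : ∀ l w, p < l → l ≤ w.length → SF w → mt l w = 0 → GG X.α X.C (X.D lam) l l w = 0)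
    (hB : ∀ w, SF w → ∑ l ∈ Ioc p w.length, lam l (mt l w + 1) ≤ 1) :
    Hyp X.α p X.C (X.D lam) := by
  have hαd : (0 : ℚ) < X.αd := by exact_mod_cast hX.αd_pos
  refine ⟨hX.α_pos, Dat.C_nonneg, Dat.D_nonneg hlam, ?_, ?_, ?_⟩
  · intro w b _ l hlp he
    exact Dat.C_dead hX (X.T.run_dead hX.tab hlp he)
  · intro l w hl hlw hw hm
    unfold G
    rw [hm, Nat.sub_zero]
    exact hA l w hl hlw hw hm
  · intro w hw b c hbc hb hc
    by_cases h0 : (X.T.run w).1 = 0
    · have h1 : ∑ l ∈ (Ioc p w.length).filter (fun l => pred l w = b ∨ pred l w = c),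
          X.D lam l w = 0 := by
        apply sum_eq_zero
        intro l _
        unfold Dat.D
        rw [if_pos h0]
      rw [h1, Dat.C_dead hX h0]
      have h2 := X.C_nonneg (b :: w)
      have h3 := X.C_nonneg (c :: w)
      linarith
    · have hI := X.T.run_inv hX.tab w h0
      set i := (X.T.run w).1 with hi
      set L := (X.T.run w).2 with hL
      have hzz : ∀ b c, b ≠ c → (L.idxOf b ≠ L.idxOf c ∨ L.idxOf b = X.T.nl i) := by
        intro b c hbc
        by_cases hbL : b ∈ L
        · left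
          intro he
          exact hbc ((List.idxOf_inj hbL).1 he)
        · right
          rw [← hI.len]
          exact List.idxOf_eq_length hbL
      have hhd : ∀ b c, w.head? ≠ some b → w.head? ≠ some c →
          (i = 1 ∨ (L.idxOf b ≠ 0 ∧ L.idxOf c ≠ 0)) := by
        intro b c hb hc
        by_cases h1 : i = 1
        · left; exact h1
        · right
          have := hI.pos
          exact ⟨hI.head_idx hX.tab (by omega) hb, hI.head_idx hX.tab (by omega) hc⟩
      have hsl : ∀ b c, b ≠ c → w.head? ≠ some b → w.head? ≠ some c →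
          (X.sl i (L.idxOf b) : ℚ) / X.αd ≤ X.C (b :: w) + X.C (c :: w) - X.α * X.C w := by
        intro b c hbc hb hc
        have h1 := hX.slack i hI.pos hI.lt (L.idxOf b) (L.idxOf c) (hI.idx_le b) (hI.idx_le c)
          (hzz b c hbc) (hhd b c hb hc)
        have e1 : X.C (b :: w) = X.cv (X.T.nxt i (L.idxOf b)) := by
          unfold Dat.C
          rw [X.T.run_cons_state w b h0]
        have e2 : X.C (c :: w) = X.cv (X.T.nxt i (L.idxOf c)) := by
          unfold Dat.C
          rw [X.T.run_cons_state w c h0]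
        have e3 : X.C w = X.cv i := rfl
        rw [e1, e2, e3, div_le_iff₀ hαd]
        unfold Dat.α
        have h2 : (X.αn : ℚ) * X.cv i + X.sl i (L.idxOf b) ≤
            X.αd * (X.cv (X.T.nxt i (L.idxOf b)) + X.cv (X.T.nxt i (L.idxOf c))) := by
          exact_mod_cast h1
        have h3 : (X.αn : ℚ) / X.αd * X.cv i * X.αd = X.αn * X.cv i := by
          field_simp
        nlinarith [h2, h3]
      set σ := X.C (b :: w) + X.C (c :: w) - X.α * X.C w with hσ
      have hs1 : (X.sl i (L.idxOf b) : ℚ) / X.αd ≤ σ := hsl b c hbc hb hc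
      have hs2 : (X.sl i (L.idxOf c) : ℚ) / X.αd ≤ σ := by
        have := hsl c b (Ne.symm hbc) hc hb
        linarith
      have hσ0 : 0 ≤ σ := le_trans (by positivity) hs1
      calc ∑ l ∈ (Ioc p w.length).filter (fun l => pred l w = b ∨ pred l w = c), X.D lam l w
          ≤ ∑ l ∈ (Ioc p w.length).filter (fun l => pred l w = b ∨ pred l w = c),
              lam l (mt l w + 1) * σ := by
            apply sum_le_sum
            intro l hl
            rw [mem_filter] at hl
            unfold Dat.D
            rw [← hi, ← hL, if_neg h0]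
            apply mul_le_mul_of_nonneg_left _ (hlam _ _)
            rcases hl.2 with h | h
            · rw [h]; exact hs1
            · rw [h]; exact hs2
        _ ≤ ∑ l ∈ Ioc p w.length, lam l (mt l w + 1) * σ := by
            apply sum_le_sum_of_subset_of_nonneg (filter_subset _ _)
            intro l _ _
            exact mul_nonneg (hlam _ _) hσ0
        _ = (∑ l ∈ Ioc p w.length, lam l (mt l w + 1)) * σ := by rw [sum_mul]
        _ ≤ 1 * σ := mul_le_mul_of_nonneg_right (hB w hw) hσ0
        _ = σ := one_mul σ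

end Pool.Agent.Lib.MP35b3f5
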