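import Pool.Agent.Lib.MP_35b3f5_co.Share

/-!
# The parameters `lam` (growth `7 / 6`, denominator `512`, table for `l ≤ 18`)
-/

set_option autoImplicit false

namespace Pool.Agent.Lib.MP35b3f5

/-- packed table of the shares, 9 bits per entry, entry `19 * l + j` -/
def dLAM : ℕ := 0x793c9e4f2793c9d0f2793c958a8391887422040000000954aa552a954aa5528943c9a8a44b1104008000000000be5f2f97cbe5f2f95eb35017888260a00c00000000000b85c38dc6e471b8daad443120621b0200400000000000c671b8dc6e371ae1a6c43c070240300000000000000008f7d3e9f2f974395a4c82f86810000000000000000000473b379bcde652e55e791405c000000000000000000008382b1ddcee6c2acee5b0000000000000000000000000e572b7d749e36970943b0000000000000000000000000c95badd10883a99c622c000000000000000000000000000000000000000000000000000000000000000000000000000000000000000000000000000000000000000000000000000000000000000000000000000000000000000000000000000000000000000000000000000000000000000000000000000000000000000000000000000000000000000000000000000000000000000000000000000000000000000000000000000000000000000000000000000000000000000000000000000000000000000000000000000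

/-- the shares times `512` -/
noncomputable def lamN8 (l j : ℕ) : ℕ := look dLAM 9 512 (Nat.add (Nat.mul 19 l) j)

/-- the shares -/
noncomputable def lam8 (l j : ℕ) : ℚ := lamQ 7 6 512 18 lamN8 l j

lemma lam8_nonneg (l j : ℕ) : 0 ≤ lam8 l j := lamQ_nonneg _ _ _ _ _ _ _

end Pool.Agent.Lib.MP35b3f5
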