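import Pool.Agent.Lib.MP_35b3f5_co.Dfs
import Pool.Agent.Lib.MP_35b3f5_co.DatA
import Pool.Agent.Lib.MP_35b3f5_co.Par8

/-!
# The levels of the periods 9, …, 14 (generated)
-/

set_option autoImplicit false

namespace Pool.Agent.Lib.MP35b3f5

noncomputable def lv9 : Lv :=
  .cons 628 44 32 68719476736 (
  .cons 608 49 28 4294967296 (
  .cons 588 103 24 268435456 (
  .cons 568 117 20 16777216 (
  .cons 548 136 16 1048576 (
  .cons 528 136 12 65536 (
  .cons 508 183 8 4096 (
  .cons 488 183 4 256 (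
  .cons 468 201 0 16 (
  .cons 448 0 0 1 (.nil))))))))))

lemma lv9_eq : mkLv 0 9 (lamN8 9) 9 = lv9 := by
  rfl

noncomputable def lv10 : Lv :=
  .cons 848 0 36 1099511627776 (
  .cons 828 59 32 68719476736 (
  .cons 808 74 28 4294967296 (
  .cons 788 92 24 268435456 (
  .cons 768 109 20 16777216 (
  .cons 748 158 16 1048576 (
  .cons 728 186 12 65536 (
  .cons 708 223 8 4096 (
  .cons 688 229 4 256 (
  .cons 668 229 0 16 (
  .cons 648 0 0 1 (.nil)))))))))))

lemma lv10_eq : mkLv 10 10 (lamN8 10) 10 = lv10 := by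
  rfl

noncomputable def lv11 : Lv :=
  .cons 1088 0 40 17592186044416 (
  .cons 1068 0 36 1099511627776 (
  .cons 1048 91 32 68719476736 (
  .cons 1028 119 28 4294967296 (
  .cons 1008 171 24 268435456 (
  .cons 988 216 20 16777216 (
  .cons 968 238 16 1048576 (
  .cons 948 238 12 65536 (
  .cons 928 199 8 4096 (
  .cons 908 261 4 256 (
  .cons 888 131 0 16 (
  .cons 868 0 0 1 (.nil))))))))))))

lemma lv11_eq : mkLv 21 11 (lamN8 11) 11 = lv11 := by
  rfl

noncomputable def lv12 : Lv :=
  .cons 1348 0 44 281474976710656 (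
  .cons 1328 23 40 17592186044416 (
  .cons 1308 40 36 1099511627776 (
  .cons 1288 121 32 68719476736 (
  .cons 1268 175 28 4294967296 (
  .cons 1248 185 24 268435456 (
  .cons 1228 202 20 16777216 (
  .cons 1208 222 16 1048576 (
  .cons 1188 222 12 65536 (
  .cons 1168 222 8 4096 (
  .cons 1148 118 4 256 (
  .cons 1128 71 0 16 (
  .cons 1108 0 0 1 (.nil)))))))))))))

lemma lv12_eq : mkLv 33 12 (lamN8 12) 12 = lv12 := by
  rfl

noncomputable def lv13 : Lv :=
  .cons 1628 0 48 4503599627370496 (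
  .cons 1608 8 44 281474976710656 (
  .cons 1588 26 40 17592186044416 (
  .cons 1568 95 36 1099511627776 (
  .cons 1548 200 32 68719476736 (
  .cons 1528 210 28 4294967296 (
  .cons 1508 229 24 268435456 (
  .cons 1488 232 20 16777216 (
  .cons 1468 249 16 1048576 (
  .cons 1448 249 12 65536 (
  .cons 1428 250 8 4096 (
  .cons 1408 250 4 256 (
  .cons 1388 143 0 16 (
  .cons 1368 0 0 1 (.nil))))))))))))))

lemma lv13_eq : mkLv 46 13 (lamN8 13) 13 = lv13 := by
  rfl

noncomputable def lv14 : Lv :=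
  .cons 1928 0 52 72057594037927936 (
  .cons 1908 3 48 4503599627370496 (
  .cons 1888 18 44 281474976710656 (
  .cons 1868 28 40 17592186044416 (
  .cons 1848 120 36 1099511627776 (
  .cons 1828 196 32 68719476736 (
  .cons 1808 211 28 4294967296 (
  .cons 1788 184 24 268435456 (
  .cons 1768 227 20 16777216 (
  .cons 1748 227 16 1048576 (
  .cons 1728 227 12 65536 (
  .cons 1708 227 8 4096 (
  .cons 1688 227 4 256 (
  .cons 1668 198 0 16 (
  .cons 1648 0 0 1 (.nil)))))))))))))))

lemma lv14_eq : mkLv 60 14 (lamN8 14) 14 = lv14 := by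
  rfl

end Pool.Agent.Lib.MP35b3f5
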