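import Pool.Agent.Lib.MP_35b3f5_co.DfsDef

/-!
# Lists packed in base 32
-/

set_option autoImplicit false

namespace Pool.Agent.Lib.MP35b3f5

/-- packed list -/
def pk : List ℕ → ℕ
  | [] => 0
  | a :: l => a + 32 * pk l

lemma pk_lt : ∀ (l : List ℕ), (∀ a ∈ l, a < 32) → pk l < 32 ^ l.length
  | [], _ => by simp [pk]
  | a :: l, h => by
    have h1 := pk_lt l (fun b hb => h b (List.mem_cons_of_mem _ hb))
    have h2 := h a List.mem_cons_self
    rw [pk, List.length_cons, pow_succ]
    omega

lemma pk_take : ∀ (k : ℕ) (l : List ℕ), (∀ a ∈ l, a < 32) → pk (l.take k) = pk l % 32 ^ k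
  | 0, l, _ => by simp [pk, Nat.mod_one]
  | k + 1, [], _ => by simp [pk]
  | k + 1, a :: l, h => by
    have ih := pk_take k l (fun b hb => h b (List.mem_cons_of_mem _ hb))
    have h2 := h a List.mem_cons_self
    rw [List.take_succ_cons, pk, pk, ih, pow_succ, Nat.mul_comm (32 ^ k) 32, Nat.mod_mul]
    have h3 : (a + 32 * pk l) % 32 = a := by omega
    have h4 : (a + 32 * pk l) / 32 = pk l := by omega
    rw [h3, h4]

lemma pk_div : ∀ (k : ℕ) (l : List ℕ), (∀ a ∈ l, a < 32) → pk l / 32 ^ k = pk (l.drop k)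
  | 0, l, _ => by simp
  | k + 1, [], _ => by simp [pk]
  | k + 1, a :: l, h => by
    have ih := pk_div k l (fun b hb => h b (List.mem_cons_of_mem _ hb))
    have h2 := h a List.mem_cons_self
    rw [List.drop_succ_cons, pk, pow_succ, Nat.mul_comm (32 ^ k) 32, ← Nat.div_div_eq_div_mul]
    have h4 : (a + 32 * pk l) / 32 = pk l := by omega
    rw [h4, ih]

lemma pk_append : ∀ (l m : List ℕ), pk (l ++ m) = pk l + 32 ^ l.length * pk m
  | [], m => by simp [pk]
  | a :: l, m => by
    rw [List.cons_append, pk, pk, pk_append l m, List.length_cons, pow_succ]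
    ring

/-- a digit -/
lemma pk_digit (l : List ℕ) (h : ∀ a ∈ l, a < 32) (k x : ℕ) (hk : l[k]? = some x) :
    Nat.land (Nat.div (pk l) (32 ^ k)) 31 = x := by
  have h1 : Nat.div (pk l) (32 ^ k) = pk (l.drop k) := pk_div k l h
  rw [h1]
  have h2 : k < l.length := by
    by_contra hn
    rw [List.getElem?_eq_none (by omega)] at hk
    simp at hk
  rw [List.getElem?_eq_getElem h2, Option.some.injEq] at hk
  rw [List.drop_eq_getElem_cons h2, hk, pk]
  have h3 : x < 32 := h x (by rw [← hk]; exact List.getElem_mem _)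
  have h4 : Nat.land (x + 32 * pk (List.drop (k + 1) l)) 31 =
      (x + 32 * pk (List.drop (k + 1) l)) % 2 ^ 5 := by
    exact Nat.and_two_pow_sub_one_eq_mod _ 5
  rw [h4]
  omega

/-- moving to the front -/
lemma mvB_pk (x : ℕ) (l : List ℕ) (h : ∀ a ∈ l, a < 32) (z : ℕ) :
    mvB x (32 ^ z) (pk l) = pk (x :: l.eraseIdx z) := by
  have e : mvB x (32 ^ z) (pk l) =
      x + 32 * (pk l % 32 ^ z) + (pk l - pk l % (32 * 32 ^ z)) := rfl
  rw [e, pk]
  have h1 : 32 * 32 ^ z = 32 ^ (z + 1) := by rw [pow_succ]; ring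
  rw [h1, List.eraseIdx_eq_take_drop_succ, pk_append, pk_take z l h, ← pk_div (z + 1) l h]
  have h2 : pk l - pk l % 32 ^ (z + 1) = 32 ^ (z + 1) * (pk l / 32 ^ (z + 1)) := by
    have := Nat.div_add_mod (pk l) (32 ^ (z + 1))
    omega
  rw [h2, List.length_take]
  rcases Nat.lt_or_ge l.length z with h3 | h3
  · have h4 : pk l / 32 ^ (z + 1) = 0 := by
      rw [pk_div _ _ h, List.drop_eq_nil_of_le (by omega)]
      rfl
    rw [h4]
    ring
  · rw [Nat.min_eq_left h3, pow_succ]
    ring

/-! ### The position of a mark -/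

lemma xor_step {a c : ℕ} (ha : a < 32) (hc : c < 32) (b d : ℕ) :
    Nat.xor (a + 32 * b) (c + 32 * d) = Nat.xor a c + 32 * Nat.xor b d := by
  show (a + 32 * b) ^^^ (c + 32 * d) = (a ^^^ c) + 32 * (b ^^^ d)
  have h1 : ((a + 32 * b) ^^^ (c + 32 * d)) % 2 ^ 5 = a ^^^ c := by
    rw [Nat.xor_mod_two_pow]
    congr 1 <;> omega
  have h2 : ((a + 32 * b) ^^^ (c + 32 * d)) / 2 ^ 5 = b ^^^ d := by
    rw [Nat.xor_div_two_pow]
    congr 1 <;> omega
  have := Nat.div_add_mod ((a + 32 * b) ^^^ (c + 32 * d)) (2 ^ 5)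
  rw [h1, h2] at this
  omega

lemma land_step {a c : ℕ} (ha : a < 32) (hc : c < 32) (b d : ℕ) :
    Nat.land (a + 32 * b) (c + 32 * d) = Nat.land a c + 32 * Nat.land b d := by
  show (a + 32 * b) &&& (c + 32 * d) = (a &&& c) + 32 * (b &&& d)
  have h1 : ((a + 32 * b) &&& (c + 32 * d)) % 2 ^ 5 = a &&& c := by
    rw [Nat.and_mod_two_pow]
    congr 1 <;> omega
  have h2 : ((a + 32 * b) &&& (c + 32 * d)) / 2 ^ 5 = b &&& d := by
    rw [Nat.and_div_two_pow]
    congr 1 <;> omega
  have := Nat.div_add_mod ((a + 32 * b) &&& (c + 32 * d)) (2 ^ 5)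
  rw [h1, h2] at this
  omega

/-- indicator digits -/
def ind (x : ℕ) (l : List ℕ) : List ℕ := l.map (fun a => if a = x then 16 else 0)

/-- the digit computation -/
lemma digit_calc : ∀ a, a < 16 → ∀ x, x < 16 →
    Nat.xor a x + 15 < 32 ∧ Nat.land (Nat.xor a x + 15) 16 = if a = x then 0 else 16 := by
  decide

lemma eqD_calc (x : ℕ) (hx : x < 16) : ∀ (l : List ℕ), (∀ a ∈ l, a < 16) →
    Nat.land (Nat.xor (pk l) (pk (List.replicate l.length x)) +
      pk (List.replicate l.length 15)) (pk (List.replicate l.length 16)) + pk (ind x l) =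
      pk (List.replicate l.length 16)
  | [], _ => by simp [pk, ind]
  | a :: l, h => by
    have ih := eqD_calc x hx l (fun b hb => h b (List.mem_cons_of_mem _ hb))
    have ha := h a List.mem_cons_self
    obtain ⟨h1, h2⟩ := digit_calc a ha x hx
    simp only [List.length_cons, List.replicate_succ, pk, ind, List.map_cons]
    rw [xor_step (by omega) (by omega)]
    have h3 : Nat.xor a x + 32 * Nat.xor (pk l) (pk (List.replicate l.length x)) +
        (15 + 32 * pk (List.replicate l.length 15)) =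
        (Nat.xor a x + 15) + 32 * (Nat.xor (pk l) (pk (List.replicate l.length x)) +
          pk (List.replicate l.length 15)) := by ring
    rw [h3, land_step h1 (by omega), h2]
    unfold ind at ih
    split_ifs with hax
    · omega
    · omega

lemma lowD_ind (x : ℕ) : ∀ (l : List ℕ), x ∈ l →
    0 < pk (ind x l) ∧
      Nat.xor (pk (ind x l)) (Nat.sub (pk (ind x l)) 1) + 1 = 32 ^ (l.idxOf x + 1)
  | [], h => by simp at h
  | a :: l, h => by
    by_cases hax : a = x
    · subst hax
      have e : ind a (a :: l) = 16 :: ind a l := by simp [ind]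
      rw [e, pk]
      refine ⟨by omega, ?_⟩
      have h1 : Nat.sub (16 + 32 * pk (ind a l)) 1 = 15 + 32 * pk (ind a l) := by
        show 16 + 32 * pk (ind a l) - 1 = _
        omega
      rw [h1, xor_step (by omega) (by omega), List.idxOf_cons_self]
      have h2 : Nat.xor (pk (ind a l)) (pk (ind a l)) = 0 := Nat.xor_self _
      rw [h2]
      rfl
    · have hl : x ∈ l := by
        rw [List.mem_cons] at h
        rcases h with h | h
        · exact absurd h.symm hax
        · exact h
      obtain ⟨h1, h2⟩ := lowD_ind x l hl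
      have e : ind x (a :: l) = 0 :: ind x l := by simp [ind, hax]
      rw [e, pk]
      refine ⟨by omega, ?_⟩
      have h3 : Nat.sub (0 + 32 * pk (ind x l)) 1 = 31 + 32 * (Nat.sub (pk (ind x l)) 1) := by
        show 0 + 32 * pk (ind x l) - 1 = 31 + 32 * (pk (ind x l) - 1)
        omega
      rw [h3, xor_step (by omega) (by omega), List.idxOf_cons_ne _ hax, pow_succ, ← h2]
      have h4 : Nat.xor 0 31 = 31 := rfl
      rw [h4]
      ring

lemma lowD_eq (x : ℕ) (l : List ℕ) (h : x ∈ l) : lowD (pk (ind x l)) = 32 ^ (l.idxOf x) := by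
  obtain ⟨-, h2⟩ := lowD_ind x l h
  have e : lowD (pk (ind x l)) =
    (Nat.xor (pk (ind x l)) (Nat.sub (pk (ind x l)) 1) + 1) / 32 := rfl
  rw [e, h2, pow_succ]
  omega

lemma pk_replicate_zero : ∀ k, pk (List.replicate k 0) = 0
  | 0 => rfl
  | k + 1 => by rw [List.replicate_succ, pk, pk_replicate_zero k]

lemma pk_replicate_mul (x : ℕ) : ∀ k, pk (List.replicate k x) = x * pk (List.replicate k 1)
  | 0 => rfl
  | k + 1 => by
    rw [List.replicate_succ, List.replicate_succ, pk, pk, pk_replicate_mul x k]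
    ring

/-- the position of the mark `x` -/
lemma posB_eq (l : List ℕ) (hl : l.length ≤ 8) (h : ∀ a ∈ l, a < 16) (x : ℕ) (hx : x < 16) :
    posB (pk l) x (32 ^ l.length) = 32 ^ (l.idxOf x) := by
  -- nine digits
  set m : List ℕ := l ++ x :: List.replicate (8 - l.length) 0 with hm
  have hlen : m.length = 9 := by
    rw [hm, List.length_append, List.length_cons, List.length_replicate]
    omega
  have hpk : pk m = pk l + x * 32 ^ l.length := by
    rw [hm, pk_append, pk, pk_replicate_zero]
    ring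
  have hm16 : ∀ a ∈ m, a < 16 := by
    intro a ha
    rw [hm, List.mem_append, List.mem_cons, List.mem_replicate] at ha
    rcases ha with ha | ha | ha
    · exact h a ha
    · rw [ha]; exact hx
    · rw [ha.2]; omega
  have hxm : x ∈ m := by
    rw [hm]
    simp
  have hidx : m.idxOf x = l.idxOf x := by
    rw [hm]
    by_cases hxl : x ∈ l
    · exact List.idxOf_append_of_mem hxl
    · rw [List.idxOf_append_of_notMem hxl, List.idxOf_cons_self, List.idxOf_eq_length hxl]
      rfl
  have h1 := eqD_calc x hx m hm16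
  rw [hlen] at h1
  have h2 : eqD (pk l) x (32 ^ l.length) = pk (ind x m) := by
    have e : eqD (pk l) x (32 ^ l.length) = 0x108421084210 -
      Nat.land (Nat.xor (pk l + x * 32 ^ l.length) (x * 0x10842108421) + 0xf7bdef7bdef)
        0x108421084210 := rfl
    have e1 : pk (List.replicate 9 16) = 0x108421084210 := by rfl
    have e2 : pk (List.replicate 9 15) = 0xf7bdef7bdef := by rfl
    have e3 : pk (List.replicate 9 x) = x * 0x10842108421 := by
      rw [pk_replicate_mul]
      rfl
    rw [e1, e2, e3] at h1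
    rw [e, ← hpk]
    omega
  unfold posB
  rw [h2, lowD_eq x m hxm, hidx]

/-- the initial marks -/
lemma pk_range (N : ℕ) (hN : N ≤ 8) : pk (List.range N) = 0x8398a418820 % 32 ^ N := by
  interval_cases N <;> rfl

end Pool.Agent.Lib.MP35b3f5
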