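import Mathlib

/-!
# Square-free words from lists of size 3: the additive potential

Words are lists with the LAST letter at the head: the word `x₁ x₂ … xₙ` is `[xₙ, …, x₁]`.
A period `l` (`p < l ≤ n`) is a *token* of the word `w`: the predicted next letter is
`w[l - 1]`, and `mt l w` is the number of letters which already agree with those `l` places
before.
-/

set_option autoImplicit false

namespace Pool.Agent.Lib.MP35b3f5

open Finset

/-- the word ends with a square of period `l` -/
def EndSq (l : ℕ) (w : List ℕ) : Prop := 0 < l ∧ 2 * l ≤ w.length ∧ w.take l = (w.drop l).take l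

/-- square-free words -/
def SF : List ℕ → Prop
  | [] => True
  | a :: w => SF w ∧ ∀ l, ¬ EndSq l (a :: w)

/-- length of the longest common prefix -/
def lcp : List ℕ → List ℕ → ℕ
  | a :: u, b :: v => if a = b then lcp u v + 1 else 0
  | _, _ => 0

/-- the number of last letters which agree with those `l` places before -/
def mt (l : ℕ) (w : List ℕ) : ℕ := lcp w (w.drop l)

/-- the predicted letter -/
def pred (l : ℕ) (w : List ℕ) : ℕ := w.getD (l - 1) 0

lemma sf_nil : SF [] := trivial

lemma SF.tail {a : ℕ} {w : List ℕ} (h : SF (a :: w)) : SF w := h.1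

lemma lcp_le_left : ∀ u v : List ℕ, lcp u v ≤ u.length
  | [], v => by cases v <;> simp [lcp]
  | a :: u, [] => by simp [lcp]
  | a :: u, b :: v => by
    unfold lcp
    split_ifs
    · have := lcp_le_left u v
      simp only [List.length_cons]
      omega
    · omega

lemma lcp_le_right : ∀ u v : List ℕ, lcp u v ≤ v.length
  | [], v => by cases v <;> simp [lcp]
  | a :: u, [] => by simp [lcp]
  | a :: u, b :: v => by
    unfold lcp
    split_ifs
    · have := lcp_le_right u v
      simp only [List.length_cons]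
      omega
    · omega

lemma le_lcp_iff : ∀ (k : ℕ) (u v : List ℕ),
    k ≤ lcp u v ↔ k ≤ u.length ∧ k ≤ v.length ∧ u.take k = v.take k
  | 0, u, v => by simp
  | k + 1, [], v => by cases v <;> simp [lcp]
  | k + 1, a :: u, [] => by simp [lcp]
  | k + 1, a :: u, b :: v => by
    have ih := le_lcp_iff k u v
    unfold lcp
    split_ifs with h
    · subst h
      simp only [List.length_cons, List.take_succ_cons, List.cons.injEq, true_and,
        Nat.add_le_add_iff_right]
      exact ih
    · simp [h]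

lemma le_mt_iff {l k : ℕ} {w : List ℕ} (hk : 0 < k) :
    k ≤ mt l w ↔ l + k ≤ w.length ∧ w.take k = (w.drop l).take k := by
  unfold mt
  rw [le_lcp_iff, List.length_drop]
  constructor
  · rintro ⟨_, h2, h3⟩
    exact ⟨by omega, h3⟩
  · rintro ⟨h1, h2⟩
    exact ⟨by omega, by omega, h2⟩

lemma endSq_iff {l : ℕ} {w : List ℕ} (hl : 0 < l) : EndSq l w ↔ l ≤ mt l w := by
  rw [le_mt_iff hl]
  unfold EndSq
  constructor
  · rintro ⟨_, h2, h3⟩; exact ⟨by omega, h3⟩
  · rintro ⟨h2, h3⟩; exact ⟨hl, by omega, h3⟩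

lemma SF.mt_lt {l : ℕ} {w : List ℕ} (hw : SF w) (hl : 0 < l) : mt l w < l := by
  cases w with
  | nil => simpa [mt, lcp] using hl
  | cons a w =>
    by_contra h
    push Not at h
    exact hw.2 l ((endSq_iff hl).2 h)

/-- adding a letter -/
lemma mt_cons {l : ℕ} {w : List ℕ} (hl : 0 < l) (hlw : l ≤ w.length) (b : ℕ) :
    mt l (b :: w) = if b = pred l w then mt l w + 1 else 0 := by
  obtain ⟨k, rfl⟩ : ∃ k, l = k + 1 := ⟨l - 1, by omega⟩
  have hk : k < w.length := by omega
  unfold mt pred
  rw [List.drop_succ_cons, List.drop_eq_getElem_cons hk]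
  simp only [Nat.add_sub_cancel]
  rw [List.getD_eq_getElem _ _ hk]
  rfl

lemma mt_cons_length {w : List ℕ} {l : ℕ} (h : w.length ≤ l) : mt l w = 0 := by
  unfold mt
  rw [List.drop_eq_nil_of_le h]
  cases w <;> rfl

/-! ### The potential -/

section Potential

variable (α : ℚ) (p : ℕ) (C : List ℕ → ℚ) (D : ℕ → List ℕ → ℚ)

open Classical in
/-- the penalty of the token `l` with `r` letters missing -/
noncomputable def GG : ℕ → ℕ → List ℕ → ℚ
  | 0, _, w => C w
  | r + 1, l, w => max 0 (((if r = 0 ∨ SF (pred l w :: w) then GG r l (pred l w :: w) else 0) -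
      D l w) / α)

/-- the penalty of the token `l` -/
noncomputable def G (l : ℕ) (w : List ℕ) : ℚ := GG α C D (l - mt l w) l w

/-- the potential -/
noncomputable def Phi (w : List ℕ) : ℚ := C w - ∑ l ∈ Ioc p w.length, G α C D l w

/-- the value of the letter `b` -/
noncomputable def TT (w : List ℕ) (b : ℕ) : ℚ :=
  C (b :: w) - ∑ l ∈ (Ioc p w.length).filter (fun l => pred l w = b),
    (α * G α C D l w + D l w)

variable {α p C D}

lemma GG_nonneg (hC : ∀ w, 0 ≤ C w) (r l : ℕ) (w : List ℕ) : 0 ≤ GG α C D r l w := by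
  cases r with
  | zero => exact hC w
  | succ r => exact le_max_left _ _

lemma G_nonneg (hC : ∀ w, 0 ≤ C w) (l : ℕ) (w : List ℕ) : 0 ≤ G α C D l w := GG_nonneg hC _ _ _

/-- one step of a token -/
lemma G_step (hα : 0 < α) {w : List ℕ} (hw : SF w) {l : ℕ} (hl : 0 < l) (hlw : l ≤ w.length)
    {b : ℕ} (hb : pred l w = b) (hok : l ≤ mt l (b :: w) ∨ SF (b :: w)) :
    G α C D l (b :: w) ≤ α * G α C D l w + D l w := by
  have hm := hw.mt_lt hl
  obtain ⟨r, hr⟩ : ∃ r, l - mt l w = r + 1 := ⟨l - mt l w - 1, by omega⟩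
  have hr' : l - mt l (b :: w) = r := by
    rw [mt_cons hl hlw, if_pos hb.symm]; omega
  unfold G
  rw [hr, hr', GG, hb]
  have hif : (r = 0 ∨ SF (b :: w)) := by
    rcases hok with h | h
    · left
      omega
    · exact Or.inr h
  rw [if_pos hif]
  have h1 : (GG α C D r l (b :: w) - D l w) / α ≤
      max 0 ((GG α C D r l (b :: w) - D l w) / α) := le_max_right _ _
  rw [div_le_iff₀ hα] at h1
  linarith

/-- the local inequality -/
lemma TT_add (hα : 0 < α) (hC : ∀ w, 0 ≤ C w) {w : List ℕ} {b c : ℕ} (hbc : b ≠ c)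
    (hB : ∑ l ∈ (Ioc p w.length).filter (fun l => pred l w = b ∨ pred l w = c), D l w ≤
      C (b :: w) + C (c :: w) - α * C w) :
    α * Phi α p C D w ≤ TT α p C D w b + TT α p C D w c := by
  have h1 : ∑ l ∈ (Ioc p w.length).filter (fun l => pred l w = b), (α * G α C D l w + D l w) +
      ∑ l ∈ (Ioc p w.length).filter (fun l => pred l w = c), (α * G α C D l w + D l w) =
      ∑ l ∈ (Ioc p w.length).filter (fun l => pred l w = b ∨ pred l w = c),
        (α * G α C D l w + D l w) := by
    rw [Finset.filter_or, Finset.sum_union]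
    rw [Finset.disjoint_filter]
    intro l _ h2 h3
    exact hbc (h2.symm.trans h3)
  have h2 : ∑ l ∈ (Ioc p w.length).filter (fun l => pred l w = b ∨ pred l w = c),
      α * G α C D l w ≤ α * ∑ l ∈ Ioc p w.length, G α C D l w := by
    rw [mul_sum]
    apply sum_le_sum_of_subset_of_nonneg (filter_subset _ _)
    intro l _ _
    exact mul_nonneg hα.le (G_nonneg hC _ _)
  have h3 : ∑ l ∈ (Ioc p w.length).filter (fun l => pred l w = b ∨ pred l w = c),
      (α * G α C D l w + D l w) =
      ∑ l ∈ (Ioc p w.length).filter (fun l => pred l w = b ∨ pred l w = c), α * G α C D l w +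
      ∑ l ∈ (Ioc p w.length).filter (fun l => pred l w = b ∨ pred l w = c), D l w :=
    sum_add_distrib
  unfold Phi TT
  linarith

/-- a letter of positive value keeps the word square-free and the potential positive -/
lemma TT_pos (hα : 0 < α) (hC : ∀ w, 0 ≤ C w) (hD : ∀ l w, 0 ≤ D l w) {w : List ℕ} (hw : SF w)
    {b : ℕ} (hCp : ∀ l, l ≤ p → EndSq l (b :: w) → C (b :: w) = 0)
    (hA : ∀ l, p < l → l ≤ w.length + 1 → SF (b :: w) → mt l (b :: w) = 0 →
      G α C D l (b :: w) = 0)
    (hT : 0 < TT α p C D w b) : SF (b :: w) ∧ 0 < Phi α p C D (b :: w) := by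
  have hnn : ∀ l ∈ (Ioc p w.length).filter (fun l => pred l w = b),
      0 ≤ α * G α C D l w + D l w := fun l _ =>
    add_nonneg (mul_nonneg hα.le (G_nonneg hC _ _)) (hD _ _)
  have hSF : SF (b :: w) := by
    refine ⟨hw, ?_⟩
    intro l hl
    have hl0 : 0 < l := hl.1
    have hlen : l ≤ w.length := by
      have := hl.2.1
      simp only [List.length_cons] at this
      omega
    by_cases hlp : l ≤ p
    · have h1 := hCp l hlp hl
      unfold TT at hT
      rw [h1] at hT
      have := sum_nonneg hnn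
      linarith
    · push Not at hlp
      have hmt : l ≤ mt l (b :: w) := (endSq_iff hl0).1 hl
      have hb : pred l w = b := by
        by_contra hne
        rw [mt_cons hl0 hlen, if_neg (fun h => hne h.symm)] at hmt
        omega
      have h1 := G_step (C := C) (D := D) hα hw hl0 hlen hb (Or.inl hmt)
      have h2 : G α C D l (b :: w) = C (b :: w) := by
        unfold G
        rw [Nat.sub_eq_zero_of_le hmt]
        rfl
      have h3 : α * G α C D l w + D l w ≤ ∑ l ∈ (Ioc p w.length).filter (fun l => pred l w = b),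
          (α * G α C D l w + D l w) :=
        single_le_sum hnn (mem_filter.2 ⟨mem_Ioc.2 ⟨hlp, hlen⟩, hb⟩)
      unfold TT at hT
      linarith
  refine ⟨hSF, lt_of_lt_of_le hT ?_⟩
  unfold TT Phi
  have h1 : ∑ l ∈ Ioc p (b :: w).length, G α C D l (b :: w) ≤
      ∑ l ∈ (Ioc p w.length).filter (fun l => pred l w = b), (α * G α C D l w + D l w) := by
    rw [Finset.sum_filter]
    have h2 : ∑ l ∈ Ioc p (b :: w).length, G α C D l (b :: w) =
        ∑ l ∈ Ioc p w.length, G α C D l (b :: w) := by
      simp only [List.length_cons]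
      by_cases hp : p ≤ w.length
      · rw [Finset.sum_Ioc_succ_top hp, hA (w.length + 1) (by omega) le_rfl hSF
          (mt_cons_length (by simp)), add_zero]
      · rw [Finset.Ioc_eq_empty (by omega), Finset.Ioc_eq_empty (by omega)]
    rw [h2]
    apply sum_le_sum
    intro l hl
    rw [mem_Ioc] at hl
    split_ifs with hb
    · exact G_step hα hw (by omega) hl.2 hb (Or.inr hSF)
    · rw [hA l hl.1 (by omega) hSF]
      rw [mt_cons (by omega) hl.2, if_neg (fun h => hb h.symm)]
  linarith

end Potential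

/-! ### The infinite word -/

/-- the prefix of length `n`, last letter first -/
def pre (w : ℕ → ℕ) : ℕ → List ℕ
  | 0 => []
  | n + 1 => w n :: pre w n

lemma pre_length (w : ℕ → ℕ) (n : ℕ) : (pre w n).length = n := by
  induction n with
  | zero => rfl
  | succ n ih => simp [pre, ih]

lemma pre_drop (w : ℕ → ℕ) (n k : ℕ) : (pre w (n + k)).drop k = pre w n := by
  induction k with
  | zero => rfl
  | succ k ih => exact ih

lemma pre_take_eq (w : ℕ → ℕ) (i j l : ℕ) (h : ∀ k, k < l → w (i + k) = w (j + k)) :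
    (pre w (i + l)).take l = (pre w (j + l)).take l := by
  induction l with
  | zero => simp
  | succ l ih =>
    have h1 : pre w (i + (l + 1)) = w (i + l) :: pre w (i + l) := rfl
    have h2 : pre w (j + (l + 1)) = w (j + l) :: pre w (j + l) := rfl
    rw [h1, h2, List.take_succ_cons, List.take_succ_cons, h l (Nat.lt_succ_self l),
      ih (fun k hk => h k (by omega))]

lemma squarefree_of_pre {w : ℕ → ℕ} (h : ∀ n, SF (pre w n)) (i l : ℕ) (hl : 0 < l) :
    ¬ (∀ k, k < l → w (i + k) = w (i + l + k)) := by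
  intro hk
  have h1 : EndSq l (pre w (i + l + l)) := by
    refine ⟨hl, by rw [pre_length]; omega, ?_⟩
    rw [pre_drop]
    exact (pre_take_eq w i (i + l) l hk).symm
  obtain ⟨n, hn⟩ : ∃ n, i + l + l = n + 1 := ⟨i + l + l - 1, by omega⟩
  have h2 := h (i + l + l)
  rw [hn] at h1 h2
  exact h2.2 l h1

/-- a strategy gives an infinite square-free word -/
theorem exists_word {Q : List ℕ → Prop} (h0 : Q []) (hQ : ∀ w, Q w → SF w)
    (hstep : ∀ w, Q w → ∀ A : Finset ℕ, A.card = 3 → ∃ a ∈ A, Q (a :: w))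
    (A : ℕ → Finset ℕ) (hA : ∀ n, (A n).card = 3) :
    ∃ w : ℕ → ℕ, (∀ n, w n ∈ A n) ∧
      ∀ i l : ℕ, 0 < l → ¬ (∀ k, k < l → w (i + k) = w (i + l + k)) := by
  choose f hf using fun (w : {w : List ℕ // Q w}) (n : ℕ) => hstep w.1 w.2 (A n) (hA n)
  let s : ℕ → {w : List ℕ // Q w} := fun n =>
    Nat.rec ⟨[], h0⟩ (fun n w => ⟨f w n :: w.1, (hf w n).2⟩) n
  let w : ℕ → ℕ := fun n => f (s n) n
  have hpre : ∀ n, pre w n = (s n).1 := by
    intro n
    induction n with
    | zero => rfl
    | succ n ih =>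
      show w n :: pre w n = f (s n) n :: (s n).1
      rw [ih]
  refine ⟨w, fun n => (hf (s n) n).1, ?_⟩
  apply squarefree_of_pre
  intro n
  rw [hpre]
  exact hQ _ (s n).2

/-- **Module M**: the additive potential. -/
theorem main (α : ℚ) (p : ℕ) (C : List ℕ → ℚ) (D : ℕ → List ℕ → ℚ)
    (hα : 0 < α) (hC : ∀ w, 0 ≤ C w) (hC0 : 0 < C []) (hD : ∀ l w, 0 ≤ D l w)
    (hCp : ∀ w b, SF w → ∀ l, l ≤ p → EndSq l (b :: w) → C (b :: w) = 0)
    (hA : ∀ l w, p < l → l ≤ w.length → SF w → mt l w = 0 → G α C D l w = 0)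
    (hB : ∀ w, SF w → ∀ b c, b ≠ c → w.head? ≠ some b → w.head? ≠ some c →
      ∑ l ∈ (Ioc p w.length).filter (fun l => pred l w = b ∨ pred l w = c), D l w ≤
        C (b :: w) + C (c :: w) - α * C w)
    (A : ℕ → Finset ℕ) (hA3 : ∀ n, (A n).card = 3) :
    ∃ w : ℕ → ℕ, (∀ n, w n ∈ A n) ∧
      ∀ i l : ℕ, 0 < l → ¬ (∀ k, k < l → w (i + k) = w (i + l + k)) := by
  apply exists_word (Q := fun w => SF w ∧ 0 < Phi α p C D w) _ (fun w h => h.1) _ A hA3
  · refine ⟨trivial, ?_⟩
    unfold Phi
    simpa using hC0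
  · rintro w ⟨hw, hPhi⟩ A hAc
    -- two letters different from the last one
    obtain ⟨b, hb, c, hc, hbc, hb1, hc1⟩ : ∃ b ∈ A, ∃ c ∈ A, b ≠ c ∧ w.head? ≠ some b ∧
        w.head? ≠ some c := by
      have h1 : 1 < (A.filter (fun a => w.head? ≠ some a)).card := by
        have h2 : (A.filter (fun a => ¬ (w.head? ≠ some a))).card ≤ 1 := by
          rw [Finset.card_le_one]
          intro a ha b hb
          simp only [mem_filter, not_not] at ha hb
          have := ha.2.symm.trans hb.2
          exact Option.some.inj this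
        have h3 := Finset.card_filter_add_card_filter_not (s := A)
          (fun a => w.head? ≠ some a)
        omega
      rw [Finset.one_lt_card] at h1
      obtain ⟨b, hb, c, hc, hbc⟩ := h1
      rw [mem_filter] at hb hc
      exact ⟨b, hb.1, c, hc.1, hbc, hb.2, hc.2⟩
    have h1 := TT_add (D := D) (p := p) hα hC hbc (hB w hw b c hbc hb1 hc1)
    have h2 : 0 < α * Phi α p C D w := mul_pos hα hPhi
    have key : ∀ b, 0 < TT α p C D w b → SF (b :: w) ∧ 0 < Phi α p C D (b :: w) := by
      intro b hT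
      exact TT_pos hα hC hD hw (fun l hl he => hCp w b hw l hl he)
        (fun l hl hl' hSF hm => hA l (b :: w) hl (by simpa using hl') hSF hm) hT
    by_cases hTb : 0 < TT α p C D w b
    · exact ⟨b, hb, key b hTb⟩
    · exact ⟨c, hc, key c (by linarith)⟩

end Pool.Agent.Lib.MP35b3f5
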