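import Pool.Agent.Lib.MP_35b3f5_co.Check

/-!
# Tables of records

One record (one natural number) for each state: nine entries of 40 bits (next state 16 bits,
slack 24 bits), then the number of labels (8 bits), the value (16 bits), the string (64 bits,
base 16, coded as in `dec`), and from bit 448 on the fields of 20 bits with the bounds for open
walks. The record of the state `i` is `g i`, for a function `g` which the kernel can evaluate.
-/

set_option autoImplicit false

namespace Pool.Agent.Lib.MP35b3f5

/-- records of 3360 bits -/
noncomputable def comb (s : List ℕ) : ℕ :=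
  List.rec (motive := fun _ => ℕ) 0 (fun a _ r => Nat.add a (Nat.shiftLeft r 3360)) s

noncomputable def selB (a b : ℕ) (c : Bool) : ℕ := Bool.rec (motive := fun _ => ℕ) a b c

/-- evaluate the argument first -/
noncomputable def fn (e : ℕ) (k : ℕ → ℕ) : ℕ :=
  Nat.rec (motive := fun _ => ℕ) (k 0) (fun m _ => k m) (Nat.add e 1)

/-- evaluate the argument first -/
noncomputable def fc (e : ℕ) (k : ℕ → Bool) : Bool :=
  Nat.rec (motive := fun _ => Bool) (k 0) (fun m _ => k m) (Nat.add e 1)

/-- a field of a record -/
noncomputable def fld (R o m : ℕ) : ℕ := Nat.land (Nat.shiftRight R o) m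

/-- the automaton of a record function -/
noncomputable def tabOf (n : ℕ) (g : ℕ → ℕ) : Tab where
  n := n
  str i := dec 16 (fld (g i) 384 18446744073709551615)
  nl i := fld (g i) 360 255
  nxt i z := fld (g i) (Nat.mul 40 z) 65535

/-- the numerical data of a record function -/
noncomputable def datOf (n an ad : ℕ) (g : ℕ → ℕ) : Dat where
  T := tabOf n g
  cv i := fld (g i) 368 65535
  sl i z := fld (g i) (Nat.add (Nat.mul 40 z) 16) 16777215
  αn := an
  αd := ad

lemma fc_eq (e : ℕ) (k : ℕ → Bool) : fc e k = k e := rfl

noncomputable def bor (a b : Bool) : Bool := Bool.rec (motive := fun _ => Bool) b true a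

lemma bor_eq (a b : Bool) : bor a b = (a || b) := by cases a <;> rfl

end Pool.Agent.Lib.MP35b3f5
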