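import Pool.Agent.Lib.MP_35b3f5_co.Spacing
import Pool.Agent.Lib.MP_35b3f5_co.Check

/-!
# Part (B): the sum of the shares of a square-free word is at most one
-/

set_option autoImplicit false

namespace Pool.Agent.Lib.MP35b3f5

open Finset

/-- the shares: a table for `l ≤ L`, a geometric tail for `l > L` -/
noncomputable def lamQ (αn αd Λ L : ℕ) (lamN : ℕ → ℕ → ℕ) (l j : ℕ) : ℚ :=
  if l ≤ L then (lamN l j : ℚ) / Λ
  else if j ≤ L then (lamN L j : ℚ) / Λ * ((αd : ℚ) / αn) ^ (l - L) else 0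

lemma lamQ_nonneg (αn αd Λ L : ℕ) (lamN : ℕ → ℕ → ℕ) (l j : ℕ) :
    0 ≤ lamQ αn αd Λ L lamN l j := by
  unfold lamQ
  split_ifs
  · positivity
  · positivity
  · exact le_rfl

/-- Interval bound with restricted endpoints. -/
theorem interval_bound' {p L top : ℕ} {s : ℕ → ℕ → ℚ} {F : ℕ → ℕ → ℚ} (hF0 : ∀ a b, 0 ≤ F a b)
    (hF : ∀ a b q m, (a = 0 ∨ p < a) → (b ≤ L ∨ b = top) → a < q → q < b → p < q → q ≤ L →
      m < q - a → m < b - q → s q m + F a q + F q b ≤ F a b)
    {m : ℕ → ℕ} (hm : ∀ l l', p < l → l < l' → l' ≤ L → min (m l) (m l') < l' - l) :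
    ∀ n a b, (a = 0 ∨ p < a) → (b ≤ L ∨ b = top) → b - a ≤ n →
      (∀ l, a < l → l < b → p < l → l ≤ L → m l < l - a ∧ m l < b - l) →
      ∑ l ∈ (Ioc p L).filter (fun l => a < l ∧ l < b), s l (m l) ≤ F a b := by
  intro n
  induction n with
  | zero =>
    intro a b _ _ hab _
    have h1 : (Ioc p L).filter (fun l => a < l ∧ l < b) = ∅ := by
      rw [filter_eq_empty_iff]
      intro l _ hl
      omega
    rw [h1, sum_empty]
    exact hF0 a b
  | succ n ih =>
    intro a b ha hb hab hP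
    rcases ((Ioc p L).filter (fun l => a < l ∧ l < b)).eq_empty_or_nonempty with he | hne
    · rw [he, sum_empty]
      exact hF0 a b
    · obtain ⟨q, hq, hmax⟩ := exists_max_image _ m hne
      rw [mem_filter, mem_Ioc] at hq
      obtain ⟨⟨hpq, hqL⟩, haq, hqb⟩ := hq
      obtain ⟨h1, h2⟩ := hP q haq hqb hpq hqL
      have hsplit : (Ioc p L).filter (fun l => a < l ∧ l < b) =
          insert q (((Ioc p L).filter (fun l => a < l ∧ l < q)) ∪
            ((Ioc p L).filter (fun l => q < l ∧ l < b))) := by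
        ext l
        simp only [mem_filter, mem_Ioc, mem_insert, mem_union]
        omega
      have hnot : q ∉ ((Ioc p L).filter (fun l => a < l ∧ l < q)) ∪
            ((Ioc p L).filter (fun l => q < l ∧ l < b)) := by
        simp only [mem_filter, mem_Ioc, mem_union]
        omega
      have hdisj : Disjoint ((Ioc p L).filter (fun l => a < l ∧ l < q))
            ((Ioc p L).filter (fun l => q < l ∧ l < b)) := by
        rw [disjoint_filter]
        omega
      have hL := ih a q ha (Or.inl hqL) (by omega) (by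
        intro l hal hlq hpl hlL
        have h3 := hmax l (mem_filter.2 ⟨mem_Ioc.2 ⟨hpl, hlL⟩, hal, by omega⟩)
        have h4 := hm l q hpl hlq hqL
        have h5 := (hP l hal (by omega) hpl hlL).1
        exact ⟨h5, by omega⟩)
      have hR := ih q b (Or.inr hpq) hb (by omega) (by
        intro l hql hlb hpl hlL
        have h3 := hmax l (mem_filter.2 ⟨mem_Ioc.2 ⟨hpl, hlL⟩, by omega, hlb⟩)
        have h4 := hm q l hpq hql hlL
        have h5 := (hP l (by omega) hlb hpl hlL).2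
        exact ⟨by omega, h5⟩)
      rw [hsplit, sum_insert hnot, sum_union hdisj]
      have h6 := hF a b q (m q) ha hb haq hqb hpq hqL h1 h2
      linarith

lemma geom_id {θ : ℚ} (k : ℕ) :
    (∑ i ∈ range k, θ ^ (i + 1)) * (1 - θ) = θ * (1 - θ ^ k) := by
  induction k with
  | zero => simp
  | succ k ih =>
    rw [sum_range_succ, add_mul, ih]
    ring

/-- the sum of a geometric tail -/
lemma tail_sum {θ : ℚ} (h0 : 0 ≤ θ) (h1 : θ < 1) (x : ℚ) (hx : 0 ≤ x) (L n : ℕ) :
    ∑ l ∈ Ioc L n, x * θ ^ (l - L) ≤ x * (θ / (1 - θ)) := by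
  rcases Nat.lt_or_ge n L with h | h
  · rw [Ioc_eq_empty (by omega), sum_empty]
    have : 0 ≤ θ / (1 - θ) := div_nonneg h0 (by linarith)
    positivity
  · obtain ⟨k, rfl⟩ : ∃ k, n = L + k := ⟨n - L, by omega⟩
    have h2 : ∑ l ∈ Ioc L (L + k), x * θ ^ (l - L) = x * ∑ i ∈ range k, θ ^ (i + 1) := by
      clear h
      induction k with
      | zero => simp
      | succ k ih =>
        rw [← Nat.add_assoc, Finset.sum_Ioc_succ_top (by omega), ih, sum_range_succ, mul_add]
        congr 3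
        omega
    rw [h2]
    apply mul_le_mul_of_nonneg_left _ hx
    rw [le_div_iff₀ (by linarith), geom_id]
    have h3 : 0 ≤ θ ^ k := pow_nonneg h0 k
    nlinarith

section

variable {αn αd Λ p L L' : ℕ} {lamN M F : ℕ → ℕ → ℕ}

/-- the numerical conditions of part (B) -/
structure ShareOk (αn αd Λ p L L' : ℕ) (lamN M F : ℕ → ℕ → ℕ) : Prop where
  αd_pos : 0 < αd
  α_lt : αd < αn
  Λ_pos : 0 < Λ
  le : L ≤ L'
  M1 : ∀ l, p < l → l ≤ L → ∀ m, m < l → lamN l (m + 1) ≤ M l (m + 1)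
  M2 : ∀ l, p < l → l ≤ L' → ∀ c, c < l → M l c ≤ M l (c + 1)
  M3 : ∀ l, L ≤ l → l < L' → ∀ c, 0 < c → c ≤ L → αd * M l c ≤ αn * M (l + 1) c
  hF : ∀ a b q, (a = 0 ∨ p < a) → (b ≤ L' ∨ b = 2 * L' + 1) → a < q → q < b → p < q → q ≤ L' →
    M q (min (q - a) (b - q)) + F a q + F q b ≤ F a b
  fin : F 0 (2 * L' + 1) * (αn - αd) + αd * M L' L ≤ Λ * (αn - αd)

lemma ShareOk.M_mono (h : ShareOk αn αd Λ p L L' lamN M F) {l c c' : ℕ} (hl : p < l)
    (hl' : l ≤ L') (hc : c ≤ c') (hc' : c' ≤ l) : M l c ≤ M l c' := by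
  induction c', hc using Nat.le_induction with
  | base => exact le_rfl
  | succ c' _ ih => exact le_trans (ih (by omega)) (h.M2 l hl hl' c' (by omega))

lemma ShareOk.M_geom (h : ShareOk αn αd Λ p L L' lamN M F) (hpL : p < L) {c : ℕ} (hc : 0 < c)
    (hcL : c ≤ L) (k : ℕ) (hk : L + k ≤ L') :
    (lamN L c : ℚ) * ((αd : ℚ) / αn) ^ k ≤ M (L + k) c := by
  have h1 : (0 : ℚ) < αd := by exact_mod_cast h.αd_pos
  have h2 : (0 : ℚ) < αn := by exact_mod_cast lt_trans h.αd_pos h.α_lt
  induction k with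
  | zero =>
    obtain ⟨m, rfl⟩ : ∃ m, c = m + 1 := ⟨c - 1, by omega⟩
    have := h.M1 L hpL le_rfl m (by omega)
    simp only [pow_zero, mul_one, Nat.add_zero]
    exact_mod_cast this
  | succ k ih =>
    have h3 := ih (by omega)
    have h4 : (αd : ℚ) * M (L + k) c ≤ αn * M (L + k + 1) c := by
      exact_mod_cast h.M3 (L + k) (by omega) (by omega) c hc hcL
    have h5 : (lamN L c : ℚ) * ((αd : ℚ) / αn) ^ (k + 1) =
        ((lamN L c : ℚ) * ((αd : ℚ) / αn) ^ k) * (αd / αn) := by ring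
    rw [h5, ← Nat.add_assoc]
    have h6 : ((lamN L c : ℚ) * ((αd : ℚ) / αn) ^ k) * (αd / αn) ≤
        (M (L + k) c : ℚ) * (αd / αn) := mul_le_mul_of_nonneg_right h3 (by positivity)
    refine le_trans h6 ?_
    rw [← mul_div_assoc, div_le_iff₀ h2]
    linarith

lemma ShareOk.lam_le (h : ShareOk αn αd Λ p L L' lamN M F) (hpL : p < L) {l c j : ℕ}
    (hl : p < l) (hl' : l ≤ L') (hj : 0 < j) (hjc : j ≤ c) (hc : c ≤ l) :
    lamQ αn αd Λ L lamN l j ≤ (M l c : ℚ) / Λ := by
  have hΛ : (0 : ℚ) < Λ := by exact_mod_cast h.Λ_pos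
  have hm : M l j ≤ M l c := h.M_mono hl hl' hjc hc
  have hm' : (M l j : ℚ) ≤ M l c := by exact_mod_cast hm
  unfold lamQ
  split_ifs with h1 h2
  · obtain ⟨m, rfl⟩ : ∃ m, j = m + 1 := ⟨j - 1, by omega⟩
    have := h.M1 l hl h1 m (by omega)
    have h3 : (lamN l (m + 1) : ℚ) ≤ M l (m + 1) := by exact_mod_cast this
    apply div_le_div_of_nonneg_right (le_trans h3 hm') hΛ.le
  · have h3 := h.M_geom hpL hj h2 (l - L) (by omega)
    have e : L + (l - L) = l := by omega
    rw [e] at h3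
    rw [div_mul_eq_mul_div]
    exact div_le_div_of_nonneg_right (le_trans h3 hm') hΛ.le
  · positivity

/-- **Part (B)**. -/
theorem ShareOk.sum_le (h : ShareOk αn αd Λ p L L' lamN M F) (hpL : p < L) {w : List ℕ}
    (hw : SF w) (n : ℕ) :
    ∑ l ∈ Ioc p n, lamQ αn αd Λ L lamN l (mt l w + 1) ≤ 1 := by
  have hΛ : (0 : ℚ) < Λ := by exact_mod_cast h.Λ_pos
  have hαd : (0 : ℚ) < αd := by exact_mod_cast h.αd_pos
  have hαn : (0 : ℚ) < αn := by exact_mod_cast lt_trans h.αd_pos h.α_lt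
  have hlt : (αd : ℚ) < αn := by exact_mod_cast h.α_lt
  have hLL := h.le
  set θ : ℚ := (αd : ℚ) / αn with hθ
  have hθ0 : 0 ≤ θ := by positivity
  have hθ1 : θ < 1 := by rw [hθ, div_lt_one hαn]; exact hlt
  -- the periods up to `L'`
  have h1 : ∑ l ∈ (Ioc p L').filter (fun l => 0 < l ∧ l < 2 * L' + 1),
      lamQ αn αd Λ L lamN l (mt l w + 1) ≤ (F 0 (2 * L' + 1) : ℚ) / Λ := by
    refine interval_bound' (s := fun l m => lamQ αn αd Λ L lamN l (m + 1))
      (F := fun a b => (F a b : ℚ) / Λ) (top := 2 * L' + 1) (fun a b => by positivity) ?_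
      (m := fun l => mt l w) ?_ (2 * L' + 1) 0 (2 * L' + 1) (Or.inl rfl) (Or.inr rfl)
      (by omega) ?_
    · intro a b q m ha hb haq hqb hpq hqL h2 h3
      have h4 := h.hF a b q ha hb haq hqb hpq hqL
      have h5 := h.lam_le hpL (l := q) (c := min (q - a) (b - q)) (j := m + 1) hpq hqL
        (by omega) (by omega) (by omega)
      have h6 : (M q (min (q - a) (b - q)) : ℚ) + F a q + F q b ≤ F a b := by exact_mod_cast h4
      calc lamQ αn αd Λ L lamN q (m + 1) + (F a q : ℚ) / Λ + (F q b : ℚ) / Λ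
          ≤ (M q (min (q - a) (b - q)) : ℚ) / Λ + (F a q : ℚ) / Λ + (F q b : ℚ) / Λ := by
            linarith
        _ = ((M q (min (q - a) (b - q)) : ℚ) + F a q + F q b) / Λ := by ring
        _ ≤ (F a b : ℚ) / Λ := div_le_div_of_nonneg_right h6 hΛ.le
    · intro l l' _ hll _
      exact hw.spacing hll
    · intro l hl _ _ hlL
      have := hw.mt_lt hl
      constructor <;> omega
  have h2 : (Ioc p L').filter (fun l => 0 < l ∧ l < 2 * L' + 1) = Ioc p L' := by
    rw [filter_eq_self]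
    intro l hl
    rw [mem_Ioc] at hl
    omega
  rw [h2] at h1
  -- the tail
  have h3 : ∑ l ∈ Ioc L' n, lamQ αn αd Λ L lamN l (mt l w + 1) ≤
      (M L' L : ℚ) / Λ * (θ / (1 - θ)) := by
    refine le_trans (sum_le_sum ?_) (tail_sum hθ0 hθ1 ((M L' L : ℚ) / Λ) (by positivity) L' n)
    intro l hl
    rw [mem_Ioc] at hl
    unfold lamQ
    rw [if_neg (by omega)]
    split_ifs with h4
    · have h5 := h.M_geom hpL (c := mt l w + 1) (by omega) h4 (L' - L) (by omega)
      have e : L + (L' - L) = L' := by omega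
      rw [e] at h5
      have h6 : M L' (mt l w + 1) ≤ M L' L := h.M_mono (by omega) le_rfl h4 hLL
      have h7 : (M L' (mt l w + 1) : ℚ) ≤ M L' L := by exact_mod_cast h6
      have e2 : l - L = (L' - L) + (l - L') := by omega
      rw [e2, pow_add, ← mul_assoc]
      apply mul_le_mul_of_nonneg_right _ (pow_nonneg hθ0 _)
      rw [div_mul_eq_mul_div]
      exact div_le_div_of_nonneg_right (le_trans h5 h7) hΛ.le
    · have := pow_nonneg hθ0 (l - L')
      positivity
  have h4 : ∑ l ∈ Ioc p n, lamQ αn αd Λ L lamN l (mt l w + 1) ≤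
      ∑ l ∈ Ioc p L' ∪ Ioc L' n, lamQ αn αd Λ L lamN l (mt l w + 1) := by
    apply sum_le_sum_of_subset_of_nonneg
    · intro l hl
      rw [mem_union, mem_Ioc, mem_Ioc]
      rw [mem_Ioc] at hl
      omega
    · intro l _ _
      exact lamQ_nonneg _ _ _ _ _ _ _
  have h5 : ∑ l ∈ Ioc p L' ∪ Ioc L' n, lamQ αn αd Λ L lamN l (mt l w + 1) ≤
      ∑ l ∈ Ioc p L', lamQ αn αd Λ L lamN l (mt l w + 1) +
      ∑ l ∈ Ioc L' n, lamQ αn αd Λ L lamN l (mt l w + 1) := by
    have h6 := sum_union_inter (s₁ := Ioc p L') (s₂ := Ioc L' n)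
      (f := fun l => lamQ αn αd Λ L lamN l (mt l w + 1))
    have h7 : 0 ≤ ∑ l ∈ Ioc p L' ∩ Ioc L' n, lamQ αn αd Λ L lamN l (mt l w + 1) :=
      sum_nonneg fun l _ => lamQ_nonneg _ _ _ _ _ _ _
    linarith
  -- the final inequality
  have h6 : (F 0 (2 * L' + 1) : ℚ) / Λ + (M L' L : ℚ) / Λ * (θ / (1 - θ)) ≤ 1 := by
    have hd : (0 : ℚ) < αn - αd := by linarith
    have e : θ / (1 - θ) = αd / (αn - αd) := by
      rw [hθ]
      field_simp
    rw [e]
    have h7 : (F 0 (2 * L' + 1) : ℚ) * (αn - αd) + αd * M L' L ≤ Λ * (αn - αd) := by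
      have h8 := h.fin
      have h9 : ((αn - αd : ℕ) : ℚ) = αn - αd := Nat.cast_sub h.α_lt.le
      rw [← h9]
      exact_mod_cast h8
    have e2 : (F 0 (2 * L' + 1) : ℚ) / Λ + (M L' L : ℚ) / Λ * (αd / (αn - αd)) =
        ((F 0 (2 * L' + 1) : ℚ) * (αn - αd) + αd * M L' L) / (Λ * (αn - αd)) := by
      field_simp
    rw [e2, div_le_one (by positivity)]
    exact h7
  linarith

end

/-! ### The checker -/

/-- implication, evaluated lazily -/
noncomputable def impB (a b : Bool) : Bool := Bool.rec (motive := fun _ => Bool) true b a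

lemma impB_eq {a b : Bool} (h : impB a b = true) (ha : a = true) : b = true := by
  subst ha
  exact h

/-- quantifier over `i < k` with a guard -/
noncomputable def allI (g f : ℕ → Bool) (k : ℕ) : Bool := allB (fun i => impB (g i) (f i)) k

lemma allI_sound {g f : ℕ → Bool} {k : ℕ} (h : allI g f k = true) {i : ℕ} (hi : i < k)
    (hg : g i = true) : f i = true := impB_eq (allB_sound h i hi) hg

noncomputable def minN (a b : ℕ) : ℕ := Bool.rec (motive := fun _ => ℕ) b a (Nat.ble a b)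

lemma minN_eq (a b : ℕ) : minN a b = min a b := by
  unfold minN
  rw [bool_rec_eq]
  by_cases h : a ≤ b
  · rw [if_pos (ble_iff.2 h)]; omega
  · rw [if_neg (fun h' => h (ble_iff.1 h'))]; omega

noncomputable def shM1 (p L : ℕ) (lamN M : ℕ → ℕ → ℕ) : Bool :=
  allI (fun l => Nat.ble (Nat.succ p) l) (fun l =>
    allB (fun m => Nat.ble (lamN l (Nat.succ m)) (M l (Nat.succ m))) l) (Nat.succ L)

noncomputable def shM2 (p L' : ℕ) (M : ℕ → ℕ → ℕ) : Bool :=
  allI (fun l => Nat.ble (Nat.succ p) l) (fun l =>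
    allB (fun c => Nat.ble (M l c) (M l (Nat.succ c))) l) (Nat.succ L')

noncomputable def shM3 (αn αd L L' : ℕ) (M : ℕ → ℕ → ℕ) : Bool :=
  allI (fun l => Nat.ble L l) (fun l =>
    allB (fun c => Nat.ble (Nat.mul αd (M l (Nat.succ c))) (Nat.mul αn (M (Nat.succ l)
      (Nat.succ c)))) L) L'

noncomputable def shF (p L' : ℕ) (M F : ℕ → ℕ → ℕ) (a b : ℕ) : Bool :=
  force (F a b) (fun X => allI (fun q => band (Nat.ble (Nat.succ p) q)
    (band (Nat.ble (Nat.succ a) q) (Nat.ble (Nat.succ q) b)))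
    (fun q => Nat.ble (Nat.add (Nat.add (M q (minN (Nat.sub q a) (Nat.sub b q))) (F a q)) (F q b))
      X) (Nat.succ L'))

noncomputable def shFF (p L' top : ℕ) (M F : ℕ → ℕ → ℕ) : Bool :=
  allB (fun a => impB (Bool.rec (motive := fun _ => Bool) (Nat.ble (Nat.succ p) a) true
      (Nat.beq a 0))
    (band (shF p L' M F a top)
      (allB (fun b => shF p L' M F a b) (Nat.succ L')))) (Nat.succ L')

/-- soundness of the check of part (B) -/
theorem shareOk_of {αn αd Λ p L L' : ℕ} {lamN M F : ℕ → ℕ → ℕ}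
    (h0 : band (Nat.ble 1 αd) (band (Nat.ble (Nat.succ αd) αn) (band (Nat.ble 1 Λ)
      (Nat.ble L L'))) = true)
    (h1 : shM1 p L lamN M = true) (h2 : shM2 p L' M = true) (h3 : shM3 αn αd L L' M = true)
    (h4 : shFF p L' (2 * L' + 1) M F = true)
    (h5 : Nat.ble (Nat.add (Nat.mul (F 0 (2 * L' + 1)) (Nat.sub αn αd)) (Nat.mul αd (M L' L)))
      (Nat.mul Λ (Nat.sub αn αd)) = true) :
    ShareOk αn αd Λ p L L' lamN M F := by
  simp only [band_eq, Bool.and_eq_true, ble_iff] at h0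
  refine ⟨h0.1, h0.2.1, h0.2.2.1, h0.2.2.2, ?_, ?_, ?_, ?_, ble_iff.1 h5⟩
  · intro l hl hlL m hm
    have h := allI_sound h1 (i := l) (by omega) (ble_iff.2 hl)
    exact ble_iff.1 (allB_sound h m hm)
  · intro l hl hlL c hc
    have h := allI_sound h2 (i := l) (by omega) (ble_iff.2 hl)
    exact ble_iff.1 (allB_sound h c hc)
  · intro l hl hlL c hc hcL
    have h := allI_sound h3 (i := l) (by omega) (ble_iff.2 hl)
    have h' := allB_sound h (c - 1) (by omega)
    beta_reduce at h'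
    have e : Nat.succ (c - 1) = c := by omega
    rw [e] at h'
    exact ble_iff.1 h'
  · intro a b q ha hb haq hqb hpq hqL
    have h := impB_eq (allB_sound h4 a (by omega)) (by
      rw [bool_rec_eq]
      rcases ha with rfl | ha
      · simp
      · split_ifs
        · rfl
        · exact ble_iff.2 ha)
    rw [band_eq, Bool.and_eq_true] at h
    have hb' : shF p L' M F a b = true := by
      rcases hb with hb | hb
      · exact allB_sound h.2 b (by omega)
      · rw [hb]; exact h.1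
    unfold shF at hb'
    rw [force_eq] at hb'
    have h6 := allI_sound hb' (i := q) (by omega) (by
      simp only [band_eq, Bool.and_eq_true, ble_iff]
      omega)
    rw [ble_iff, minN_eq] at h6
    exact h6

end Pool.Agent.Lib.MP35b3f5
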