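import Pool.Agent.Lib.MP_35b3f5_co.UCheck
import Pool.Agent.Lib.MP_35b3f5_co.DatA

/-!
# The bounds for open walks (kernel computation)
-/

set_option autoImplicit false

namespace Pool.Agent.Lib.MP35b3f5

/-- all checks of the bounds for one state -/
noncomputable def uChk (i : ℕ) : Bool :=
  fc i (fun i => band (uState g8 LM8 G8 KG8 MA8 i)
    (band (Nat.ble (fld (g8 i) 368 65535) 49) (band (uBase g8 i [448, 648, 868, 1108, 1368, 1648])
      (band (uOpen g8 i [1948, 2268, 2608, 2968])
        (uTop g8 i [2248, 2588, 2948, 3328])))))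

theorem uChk_0 : ∀ i, 1 ≤ i → i < 1200 → uChk i = true :=
  range_of (a := 1) (k := 1199) (by decide +kernel)

theorem uChk_1 : ∀ i, 1200 ≤ i → i < 2400 → uChk i = true :=
  range_of (a := 1200) (k := 1200) (by decide +kernel)

theorem uChk_2 : ∀ i, 2400 ≤ i → i < 3600 → uChk i = true :=
  range_of (a := 2400) (k := 1200) (by decide +kernel)

theorem uChk_3 : ∀ i, 3600 ≤ i → i < 4667 → uChk i = true :=
  range_of (a := 3600) (k := 1067) (by decide +kernel)

theorem uChk_all : ∀ i, 1 ≤ i → i < 4667 → uChk i = true :=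
  range_glue (range_glue (range_glue uChk_0 uChk_1) uChk_2) uChk_3

end Pool.Agent.Lib.MP35b3f5
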