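import Pool.Agent.Lib.MP_35b3f5_co.AWalk
import Pool.Agent.Lib.MP_35b3f5_co.Rec

/-!
# The bounds for open walks (check of all levels at once)

The fields of 20 bits of the records from bit 448 on are compared simultaneously.
-/

set_option autoImplicit false

namespace Pool.Agent.Lib.MP35b3f5

/-! ### The functions evaluated by the kernel -/

/-- one transition: `j` is the next state, `s` the slack -/
noncomputable def uEdge (g : ℕ → ℕ) (LM G Y R z : ℕ) : Bool :=
  fc (fld R (Nat.mul 40 z) 65535) (fun j => bor (Nat.beq j 0)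
    (fc (fld R (Nat.add (Nat.mul 40 z) 16) 16777215) (fun s => band (Nat.ble s 255)
      (Nat.beq (Nat.land (Nat.sub (Nat.add Y (Nat.mul s LM))
        (Nat.mul 6 (Nat.shiftRight (g j) 448))) G) G))))

/-- one state -/
noncomputable def uState (g : ℕ → ℕ) (LM G KG MA i : ℕ) : Bool :=
  fc (fld (g i) 360 255) (fun m => band (Nat.ble m 8)
    (band (Nat.beq (Nat.land (Nat.shiftRight (g i) 448) MA) 0)
      (fc (Nat.add (Nat.mul 7 (Nat.shiftRight (g i) 468)) KG) (fun Y =>
        allB (fun z => uEdge g LM G Y (g i) z) (Nat.succ m)))))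

/-- the first bounds of the periods of a list -/
noncomputable def uBase (g : ℕ → ℕ) (i : ℕ) : List ℕ → Bool :=
  List.rec (motive := fun _ => Bool) true (fun o _ r =>
    band (Nat.ble (Nat.mul 512 (fld (g i) 368 65535)) (fld (g i) o 1048575)) r)

/-- the first bounds of the open periods -/
noncomputable def uOpen (g : ℕ → ℕ) (i : ℕ) : List ℕ → Bool :=
  List.rec (motive := fun _ => Bool) true (fun o _ r =>
    band (Nat.ble 25088 (fld (g i) o 1048575)) r)

/-- the last bounds of the open periods -/
noncomputable def uTop (g : ℕ → ℕ) (i : ℕ) : List ℕ → Bool :=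
  List.rec (motive := fun _ => Bool) true (fun o _ r =>
    band (Nat.beq (fld (g i) o 1048575) 0) r)

def LM8 : ℕ := 0x4000110001d000310003900054000560007900079000790007400079000790007900079000790007900000000000000400010000220004b000520006a000790009400094000950009500095000950009500095000950000000000000030001400026000440005e000a0000b3000af000be000be000be000be000be000be000be0000000001000040001b000310004800086000d4000d5000e3000e3000e4000e3000e3000b8000b8000000000000003000120001c00078000c4000d3000b8000e3000e3000e3000e3000e3000c60000000000000080001a0005f000c8000d2000e5000e8000f9000f9000fa000fa0008f0000000000000170002800079000af000b9000ca000de000de000de00076000470000000000000000005b00077000ab000d8000ee000ee000c7001050008300000000000003b0004a0005c0006d0009e000ba000df000e5000e5000000002c0003100067000750008800088000b7000b7000c9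
def G8 : ℕ := 0x80000800008000080000800008000080000800008000080000800008000080000800008000080000800008000080000800008000080000800008000080000800008000080000800008000080000800008000080000800008000080000800008000080000800008000080000800008000080000800008000080000800008000080000800008000080000800008000080000800008000080000800008000080000800008000080000800008000080000800008000080000800008000080000800008000080000800008000080000800008000080000800008000080000800008000080000800008000080000800008000080000800008000080000800008000080000800008000080000800008000080000800008000080000800008000080000800008000080000800008000080000800008000080000800008000080000800008000080000800008000080000800008000080000800008000080000800008000080000800008000080000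
def KG8 : ℕ := 0xc0000800008000080000800008000080000800008000080000800008000080000800008000080000800008000080000c00008000080000800008000080000800008000080000800008000080000800008000080000800008000080000c000080000800008000080000800008000080000800008000080000800008000080000800008000080000c0000800008000080000800008000080000800008000080000800008000080000800008000080000c00008000080000800008000080000800008000080000800008000080000800008000080000c000080000800008000080000800008000080000800008000080000800008000080000c0000800008000080000800008000080000800008000080000800008000080000c00008000080000800008000080000800008000080000800008000080000c000080000800008000080000800008000080000800008000080000c0000800008000080000800008000080000800008000080000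
def K8 : ℕ := 0x40000000000000000000000000000000000000000000000000000000000000000000000000000000000000000000000400000000000000000000000000000000000000000000000000000000000000000000000000000000000000000400000000000000000000000000000000000000000000000000000000000000000000000000000000000040000000000000000000000000000000000000000000000000000000000000000000000000000000400000000000000000000000000000000000000000000000000000000000000000000000000400000000000000000000000000000000000000000000000000000000000000000000040000000000000000000000000000000000000000000000000000000000000000400000000000000000000000000000000000000000000000000000000000400000000000000000000000000000000000000000000000000000040000000000000000000000000000000000000000000000000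
def MA8 : ℕ := 0xf8000f8000f8000f8000f8000f8000f8000f8000f8000f8000f8000f8000f8000f8000f8000f8000f8000f8000f8000f8000f8000f8000f8000f8000f8000f8000f8000f8000f8000f8000f8000f8000f8000f8000f8000f8000f8000f8000f8000f8000f8000f8000f8000f8000f8000f8000f8000f8000f8000f8000f8000f8000f8000f8000f8000f8000f8000f8000f8000f8000f8000f8000f8000f8000f8000f8000f8000f8000f8000f8000f8000f8000f8000f8000f8000f8000f8000f8000f8000f8000f8000f8000f8000f8000f8000f8000f8000f8000f8000f8000f8000f8000f8000f8000f8000f8000f8000f8000f8000f8000f8000f8000f8000f8000f8000f8000f8000f8000f8000f8000f8000f8000f8000f8000f8000f8000f8000f8000f8000f8000f8000f8000f8000f8000f8000f8000f8000f8000f8000f8000f8000f8000f8000f8000f8000f8000f8000f8000f8000f8000f8000f8000f8000f8000f8000f8000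

/-! ### Digits -/

/-- digits in base `2 ^ 20` -/
def dg (u k : ℕ) : ℕ := u / 2 ^ (20 * k) % 2 ^ 20

/-- a number with given digits -/
def vl (x : ℕ → ℕ) : ℕ → ℕ → ℕ
  | 0, t => t
  | n + 1, t => x 0 + 2 ^ 20 * vl (fun k => x (k + 1)) n t

lemma dg_zero (u : ℕ) : dg u 0 = u % 2 ^ 20 := by simp [dg]

lemma dg_succ (u k : ℕ) : dg u (k + 1) = dg (u / 2 ^ 20) k := by
  unfold dg
  rw [Nat.div_div_eq_div_mul, ← pow_add]
  congr 3
  ring

lemma vl_dg : ∀ (n u : ℕ), vl (dg u) n (u / 2 ^ (20 * n)) = u
  | 0, u => by simp [vl]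
  | n + 1, u => by
    have ih := vl_dg n (u / 2 ^ 20)
    have e : (fun k => dg u (k + 1)) = dg (u / 2 ^ 20) := funext fun k => dg_succ u k
    rw [vl, e]
    have e2 : u / 2 ^ (20 * (n + 1)) = u / 2 ^ 20 / 2 ^ (20 * n) := by
      rw [Nat.div_div_eq_div_mul, ← pow_add]
      congr 2
      ring
    rw [e2, ih, dg_zero]
    omega

lemma vl_mul (a : ℕ) : ∀ (n : ℕ) (x : ℕ → ℕ) (t : ℕ),
    a * vl x n t = vl (fun k => a * x k) n (a * t)
  | 0, x, t => rfl
  | n + 1, x, t => by
    rw [vl, vl, ← vl_mul a n]
    ring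

lemma vl_add : ∀ (n : ℕ) (x y : ℕ → ℕ) (t s : ℕ),
    vl x n t + vl y n s = vl (fun k => x k + y k) n (t + s)
  | 0, x, y, t, s => rfl
  | n + 1, x, y, t, s => by
    rw [vl, vl, vl, ← vl_add n]
    ring

lemma land_pow {k a c : ℕ} (ha : a < 2 ^ k) (hc : c < 2 ^ k) (b d : ℕ) :
    Nat.land (a + 2 ^ k * b) (c + 2 ^ k * d) = Nat.land a c + 2 ^ k * Nat.land b d := by
  show (a + 2 ^ k * b) &&& (c + 2 ^ k * d) = (a &&& c) + 2 ^ k * (b &&& d)
  have h0 : 0 < 2 ^ k := by positivity
  have h1 : ((a + 2 ^ k * b) &&& (c + 2 ^ k * d)) % 2 ^ k = a &&& c := by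
    rw [Nat.and_mod_two_pow, Nat.add_mul_mod_self_left, Nat.add_mul_mod_self_left,
      Nat.mod_eq_of_lt ha, Nat.mod_eq_of_lt hc]
  have h2 : ((a + 2 ^ k * b) &&& (c + 2 ^ k * d)) / 2 ^ k = b &&& d := by
    rw [Nat.and_div_two_pow, Nat.add_mul_div_left _ _ h0, Nat.add_mul_div_left _ _ h0,
      Nat.div_eq_of_lt ha, Nat.div_eq_of_lt hc, Nat.zero_add, Nat.zero_add]
  have := Nat.div_add_mod ((a + 2 ^ k * b) &&& (c + 2 ^ k * d)) (2 ^ k)
  rw [h1, h2] at this
  rw [← this]
  ring

/-- all digits equal to `a` -/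
def rep (a : ℕ) : ℕ → ℕ
  | 0 => 0
  | n + 1 => a + 2 ^ 20 * rep a n

/-- simultaneous comparison of digits -/
lemma simd : ∀ (n : ℕ) (x y : ℕ → ℕ) (t s : ℕ), (∀ k, k < n → x k < 2 ^ 19) →
    (∀ k, k < n → y k < 2 ^ 19) →
    Nat.land (vl y n s + rep (2 ^ 19) n - vl x n t) (rep (2 ^ 19) n) = rep (2 ^ 19) n →
    ∀ k, k < n → x k ≤ y k
  | 0, _, _, _, _, _, _, _ => fun k hk => absurd hk (Nat.not_lt_zero k)
  | n + 1, x, y, t, s, hx, hy, h => by
    have hx0 := hx 0 (by omega)
    have hy0 := hy 0 (by omega)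
    rw [vl, vl, rep] at h
    set X := vl (fun k => x (k + 1)) n t with hX
    set Y := vl (fun k => y (k + 1)) n s with hY
    set G := rep (2 ^ 19) n with hG
    rcases Nat.lt_or_ge (Y + G) X with hlt | hge
    · exfalso
      have h0 : y 0 + 2 ^ 20 * Y + (2 ^ 19 + 2 ^ 20 * G) - (x 0 + 2 ^ 20 * X) = 0 := by
        omega
      rw [h0] at h
      have h1 : Nat.land 0 (2 ^ 19 + 2 ^ 20 * G) = 0 := Nat.zero_and _
      rw [h1] at h
      omega
    · have h0 : y 0 + 2 ^ 20 * Y + (2 ^ 19 + 2 ^ 20 * G) - (x 0 + 2 ^ 20 * X) =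
          (y 0 + 2 ^ 19 - x 0) + 2 ^ 20 * (Y + G - X) := by omega
      rw [h0, land_pow (by omega) (by norm_num)] at h
      have h1 : Nat.land (y 0 + 2 ^ 19 - x 0) (2 ^ 19) ≤ 2 ^ 19 := Nat.and_le_right
      have h2 : Nat.land (Y + G - X) G ≤ G := Nat.and_le_right
      have h3 : Nat.land (y 0 + 2 ^ 19 - x 0) (2 ^ 19) = 2 ^ 19 := by omega
      have h4 : Nat.land (Y + G - X) G = G := by omega
      have h5 : Nat.land (y 0 + 2 ^ 19 - x 0) (2 ^ 19) ≤ y 0 + 2 ^ 19 - x 0 := Nat.and_le_left
      intro k hk
      cases k with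
      | zero => omega
      | succ k =>
        exact simd n (fun k => x (k + 1)) (fun k => y (k + 1)) t s
          (fun k hk => hx (k + 1) (by omega)) (fun k hk => hy (k + 1) (by omega)) h4 k (by omega)

/-- bound of digits by a mask -/
lemma mask_lt : ∀ (n u : ℕ), Nat.land u (rep (31 * 2 ^ 15) n) = 0 →
    ∀ k, k < n → dg u k < 2 ^ 15
  | 0, _, _ => fun k hk => absurd hk (Nat.not_lt_zero k)
  | n + 1, u, h => by
    have hu : u = u % 2 ^ 20 + 2 ^ 20 * (u / 2 ^ 20) := (Nat.mod_add_div u (2 ^ 20)).symm
    rw [hu, rep, land_pow (Nat.mod_lt _ (by norm_num)) (by norm_num)] at h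
    have h1 : Nat.land (u % 2 ^ 20) (31 * 2 ^ 15) = 0 := by omega
    have h2 : Nat.land (u / 2 ^ 20) (rep (31 * 2 ^ 15) n) = 0 := by omega
    intro k hk
    cases k with
    | zero =>
      rw [dg_zero]
      have h3 : u % 2 ^ 20 = u % 2 ^ 20 % 2 ^ 15 + 2 ^ 15 * (u % 2 ^ 20 / 2 ^ 15) :=
        (Nat.mod_add_div _ (2 ^ 15)).symm
      have h4 : (31 * 2 ^ 15 : ℕ) = 0 + 2 ^ 15 * 31 := by norm_num
      rw [h3, h4, land_pow (Nat.mod_lt _ (by norm_num)) (by norm_num)] at h1
      have h5 : Nat.land (u % 2 ^ 20 / 2 ^ 15) 31 = u % 2 ^ 20 / 2 ^ 15 % 2 ^ 5 :=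
        Nat.and_two_pow_sub_one_eq_mod _ 5
      rw [h5] at h1
      have h6 : u % 2 ^ 20 < 2 ^ 20 := Nat.mod_lt _ (by norm_num)
      omega
    | succ k =>
      rw [dg_succ]
      exact mask_lt n (u / 2 ^ 20) h2 k (by omega)

lemma fld_dg (R k : ℕ) : fld R (448 + 20 * k) 1048575 = dg (Nat.shiftRight R 448) k := by
  unfold fld dg
  have h1 : Nat.land (Nat.shiftRight R (448 + 20 * k)) 1048575 =
      Nat.shiftRight R (448 + 20 * k) % 2 ^ 20 := Nat.and_two_pow_sub_one_eq_mod _ 20
  rw [h1]
  congr 1
  show R >>> (448 + 20 * k) = R >>> 448 / 2 ^ (20 * k)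
  rw [Nat.shiftRight_add, Nat.shiftRight_eq_div_pow _ (20 * k)]

lemma rep_G8 : rep (2 ^ 19) 145 = G8 := by decide +kernel

lemma rep_MA8 : rep (31 * 2 ^ 15) 146 = MA8 := by decide +kernel

/-- soundness for one state -/
theorem uState_sound {g : ℕ → ℕ} {i LM K G KG MA : ℕ} (hG : rep (2 ^ 19) 145 = G)
    (hKG : KG = K + G) (hMA : rep (31 * 2 ^ 15) 146 = MA)
    (hL : ∀ k, k < 145 → 7 * 2 ^ 15 + 255 * dg LM k + dg K k < 2 ^ 19)
    (h : uState g LM G KG MA i = true) :
    fld (g i) 360 255 ≤ 8 ∧ Nat.land (Nat.shiftRight (g i) 448) MA = 0 ∧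
    ∀ z, z ≤ fld (g i) 360 255 → fld (g i) (Nat.mul 40 z) 65535 ≠ 0 →
      Nat.land (Nat.shiftRight (g (fld (g i) (Nat.mul 40 z) 65535)) 448) MA = 0 →
      ∀ k, k < 145 →
      6 * fld (g (fld (g i) (Nat.mul 40 z) 65535)) (448 + 20 * k) 1048575 ≤
        7 * fld (g i) (448 + 20 * (k + 1)) 1048575 + dg K k +
          fld (g i) (Nat.add (Nat.mul 40 z) 16) 16777215 * dg LM k := by
  unfold uState at h
  rw [fc_eq, band_eq, Bool.and_eq_true, band_eq, Bool.and_eq_true, fc_eq, ble_iff, beq_iff] at h
  obtain ⟨h1, h2, h3⟩ := h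
  refine ⟨h1, h2, ?_⟩
  intro z hz hj hmj k hk
  have h4 := allB_sound h3 z (Nat.lt_succ_of_le hz)
  beta_reduce at h4
  unfold uEdge at h4
  rw [fc_eq, bor_eq, Bool.or_eq_true, beq_iff, fc_eq, band_eq, Bool.and_eq_true, ble_iff,
    beq_iff] at h4
  rcases h4 with h4 | ⟨h4, h5⟩
  · exact absurd h4 hj
  set j := fld (g i) (Nat.mul 40 z) 65535 with hjdef
  set s := fld (g i) (Nat.add (Nat.mul 40 z) 16) 16777215 with hs
  rw [← hMA] at h2 hmj
  have hdi := mask_lt 146 _ h2
  have hdj := mask_lt 146 _ hmj
  set u := Nat.shiftRight (g i) 448 with hu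
  set v := Nat.shiftRight (g j) 448 with hv
  have e0 : Nat.shiftRight (g i) 468 = u / 2 ^ 20 := by
    show (g i) >>> (448 + 20) = (g i) >>> 448 / 2 ^ 20
    rw [Nat.shiftRight_add, Nat.shiftRight_eq_div_pow _ 20]
  have e2 : 7 * (u / 2 ^ 20) + K + s * LM =
      vl (fun k => 7 * dg (u / 2 ^ 20) k + dg K k + s * dg LM k) 145
        (7 * (u / 2 ^ 20 / 2 ^ (20 * 145)) + K / 2 ^ (20 * 145) +
          s * (LM / 2 ^ (20 * 145))) := by
    rw [← vl_add, ← vl_add, ← vl_mul, ← vl_mul, vl_dg, vl_dg, vl_dg]
  have e3 : 6 * v = vl (fun k => 6 * dg v k) 145 (6 * (v / 2 ^ (20 * 145))) := by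
    rw [← vl_mul, vl_dg]
  have e1 : Nat.sub (Nat.add (Nat.add (Nat.mul 7 (Nat.shiftRight (g i) 468)) KG)
      (Nat.mul s LM)) (Nat.mul 6 v) =
      vl (fun k => 7 * dg (u / 2 ^ 20) k + dg K k + s * dg LM k) 145
        (7 * (u / 2 ^ 20 / 2 ^ (20 * 145)) + K / 2 ^ (20 * 145) +
          s * (LM / 2 ^ (20 * 145))) + rep (2 ^ 19) 145 -
        vl (fun k => 6 * dg v k) 145 (6 * (v / 2 ^ (20 * 145))) := by
    rw [← e2, ← e3, e0, hG, hKG]
    have e4 : 7 * (u / 2 ^ 20) + (K + G) + s * LM = 7 * (u / 2 ^ 20) + K + s * LM + G := by ring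
    show 7 * (u / 2 ^ 20) + (K + G) + s * LM - 6 * v = _
    rw [e4]
  rw [e1, ← hG] at h5
  have hdu : ∀ k, k < 145 → dg (u / 2 ^ 20) k < 2 ^ 15 := by
    intro k hk
    rw [← dg_succ]
    exact hdi (k + 1) (by omega)
  have h6 := simd 145 _ _ _ _ (fun k hk => by
    have := hdj k (by omega)
    show 6 * dg v k < 2 ^ 19
    omega) (fun k hk => by
    have h7 := hdu k hk
    have h8 := hL k hk
    have h9 : s * dg LM k ≤ 255 * dg LM k := Nat.mul_le_mul_right _ h4
    show 7 * dg (u / 2 ^ 20) k + dg K k + s * dg LM k < 2 ^ 19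
    omega) h5 k hk
  rw [fld_dg, fld_dg, ← hu, ← hv, dg_succ]
  exact h6

end Pool.Agent.Lib.MP35b3f5
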