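import Pool.Agent.Lib.MP_35b3f5_co.DatA

/-!
# The data `dat8` are valid

All transitions of the automaton (4666 states) and all inequalities of the values, checked by
the kernel.
-/

set_option autoImplicit false

namespace Pool.Agent.Lib.MP35b3f5

/-- the check of one state -/
noncomputable def chk8 (i : ℕ) : Bool := band (stateB dat8.T 8 i) (slackB dat8 i)

lemma v8_1 : allB (fun i => chk8 (Nat.add 1 i)) 200 = true := by decide +kernel

lemma v8_201 : allB (fun i => chk8 (Nat.add 201 i)) 200 = true := by decide +kernel

lemma v8_401 : allB (fun i => chk8 (Nat.add 401 i)) 200 = true := by decide +kernel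

lemma v8_601 : allB (fun i => chk8 (Nat.add 601 i)) 200 = true := by decide +kernel

lemma v8_801 : allB (fun i => chk8 (Nat.add 801 i)) 200 = true := by decide +kernel

lemma v8_1001 : allB (fun i => chk8 (Nat.add 1001 i)) 200 = true := by decide +kernel

lemma v8_1201 : allB (fun i => chk8 (Nat.add 1201 i)) 200 = true := by decide +kernel

lemma v8_1401 : allB (fun i => chk8 (Nat.add 1401 i)) 200 = true := by decide +kernel

lemma v8_1601 : allB (fun i => chk8 (Nat.add 1601 i)) 200 = true := by decide +kernel

lemma v8_1801 : allB (fun i => chk8 (Nat.add 1801 i)) 200 = true := by decide +kernel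

lemma v8_2001 : allB (fun i => chk8 (Nat.add 2001 i)) 200 = true := by decide +kernel

lemma v8_2201 : allB (fun i => chk8 (Nat.add 2201 i)) 200 = true := by decide +kernel

lemma v8_2401 : allB (fun i => chk8 (Nat.add 2401 i)) 200 = true := by decide +kernel

lemma v8_2601 : allB (fun i => chk8 (Nat.add 2601 i)) 200 = true := by decide +kernel

lemma v8_2801 : allB (fun i => chk8 (Nat.add 2801 i)) 200 = true := by decide +kernel

lemma v8_3001 : allB (fun i => chk8 (Nat.add 3001 i)) 200 = true := by decide +kernel

lemma v8_3201 : allB (fun i => chk8 (Nat.add 3201 i)) 200 = true := by decide +kernel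

lemma v8_3401 : allB (fun i => chk8 (Nat.add 3401 i)) 200 = true := by decide +kernel

lemma v8_3601 : allB (fun i => chk8 (Nat.add 3601 i)) 200 = true := by decide +kernel

lemma v8_3801 : allB (fun i => chk8 (Nat.add 3801 i)) 200 = true := by decide +kernel

lemma v8_4001 : allB (fun i => chk8 (Nat.add 4001 i)) 200 = true := by decide +kernel

lemma v8_4201 : allB (fun i => chk8 (Nat.add 4201 i)) 200 = true := by decide +kernel

lemma v8_4401 : allB (fun i => chk8 (Nat.add 4401 i)) 200 = true := by decide +kernel

lemma v8_4601 : allB (fun i => chk8 (Nat.add 4601 i)) 66 = true := by decide +kernel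

lemma v8_all : ∀ i, 1 ≤ i → i < 4667 → chk8 i = true := by
  exact range_glue (range_of (f := chk8) v8_1) (
    range_glue (range_of (f := chk8) v8_201) (
    range_glue (range_of (f := chk8) v8_401) (
    range_glue (range_of (f := chk8) v8_601) (
    range_glue (range_of (f := chk8) v8_801) (
    range_glue (range_of (f := chk8) v8_1001) (
    range_glue (range_of (f := chk8) v8_1201) (
    range_glue (range_of (f := chk8) v8_1401) (
    range_glue (range_of (f := chk8) v8_1601) (
    range_glue (range_of (f := chk8) v8_1801) (
    range_glue (range_of (f := chk8) v8_2001) (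
    range_glue (range_of (f := chk8) v8_2201) (
    range_glue (range_of (f := chk8) v8_2401) (
    range_glue (range_of (f := chk8) v8_2601) (
    range_glue (range_of (f := chk8) v8_2801) (
    range_glue (range_of (f := chk8) v8_3001) (
    range_glue (range_of (f := chk8) v8_3201) (
    range_glue (range_of (f := chk8) v8_3401) (
    range_glue (range_of (f := chk8) v8_3601) (
    range_glue (range_of (f := chk8) v8_3801) (
    range_glue (range_of (f := chk8) v8_4001) (
    range_glue (range_of (f := chk8) v8_4201) (
    range_glue (range_of (f := chk8) v8_4401) (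
    range_of (f := chk8) v8_4601)))))))))))))))))))))))

theorem dat8_valid : dat8.Valid 8 :=
  dat_valid (by decide +kernel) (by decide +kernel) (by decide +kernel) (by decide +kernel)
    (by decide +kernel) (by decide +kernel) (by decide +kernel)
    (fun i h1 h2 => v8_all i h1 h2)

end Pool.Agent.Lib.MP35b3f5
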